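import Mathlib
import Pool.Agent.Zk39.GD.Stage

/-!
# One sided windows and single paths
-/

set_option autoImplicit false
set_option linter.unusedSectionVars false

namespace Pool.Agent.Zk39.GD

open Finset Pool.Agent.H319R3.GC

/-- closed one sided windows in a class -/
theorem cw_fin {σ : ℤ} (hσ : σ = 1 ∨ σ = -1) {a b : ℝ} (hab : a ≤ b) {Q : ℕ} (hQ : 0 < Q) (c : ℤ) :
    {x : ℤ | a ≤ ((σ * x : ℤ) : ℝ) ∧ ((σ * x : ℤ) : ℝ) ≤ b ∧ (Q : ℤ) ∣ x - c}.Finite ∧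
    ({x : ℤ | a ≤ ((σ * x : ℤ) : ℝ) ∧ ((σ * x : ℤ) : ℝ) ≤ b ∧ (Q : ℤ) ∣ x - c}.ncard : ℝ) ≤ (b - a) / Q + 1 := by
  have hσσ : σ * σ = 1 := by rcases hσ with rfl | rfl <;> norm_num
  have hQR : (0 : ℝ) < Q := by exact_mod_cast hQ
  set α : ℝ := (a - ((σ * c : ℤ) : ℝ)) / Q with hα
  set β : ℝ := (b - ((σ * c : ℤ) : ℝ)) / Q with hβ
  have hαβ : β - α = (b - a) / Q := by rw [hα, hβ]; ring
  have hsub : {x : ℤ | a ≤ ((σ * x : ℤ) : ℝ) ∧ ((σ * x : ℤ) : ℝ) ≤ b ∧ (Q : ℤ) ∣ x - c} ⊆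
      (((Icc ⌈α⌉ ⌊β⌋).image (fun n : ℤ => c + σ * Q * n) : Finset ℤ) : Set ℤ) := by
    rintro x ⟨h1, h2, n, hn⟩
    rw [mem_coe, mem_image]
    have e1 : ((σ * x : ℤ) : ℝ) = ((σ * c : ℤ) : ℝ) + Q * ((σ * n : ℤ) : ℝ) := by
      have h3 : σ * x = σ * c + Q * (σ * n) := by linear_combination σ * hn
      rw [h3]
      push_cast
      ring
    refine ⟨σ * n, mem_Icc.2 ⟨Int.ceil_le.2 ?_, Int.le_floor.2 ?_⟩, ?_⟩
    · rw [hα, div_le_iff₀ hQR]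
      rw [e1] at h1
      linarith
    · rw [hβ, le_div_iff₀ hQR]
      rw [e1] at h2
      linarith
    · have : c + σ * Q * (σ * n) = c + (σ * σ) * (Q * n) := by ring
      rw [this, hσσ, one_mul, ← hn]
      ring
  refine ⟨(Finset.finite_toSet _).subset hsub, ?_⟩
  have h1 := Set.ncard_le_ncard hsub (Finset.finite_toSet _)
  rw [Set.ncard_coe_finset] at h1
  have h2 : ((Icc ⌈α⌉ ⌊β⌋).card : ℝ) ≤ (b - a) / Q + 1 := by
    rw [Int.card_Icc]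
    rcases le_total 0 (⌊β⌋ + 1 - ⌈α⌉) with h3 | h3
    · have h4 : (((⌊β⌋ + 1 - ⌈α⌉).toNat : ℕ) : ℝ) = ((⌊β⌋ + 1 - ⌈α⌉ : ℤ) : ℝ) := by
        exact_mod_cast Int.toNat_of_nonneg h3
      rw [h4]
      push_cast
      have := Int.floor_le β
      have := Int.le_ceil α
      linarith
    · rw [Int.toNat_of_nonpos h3, Nat.cast_zero]
      have : 0 ≤ (b - a) / Q := div_nonneg (by linarith) hQR.le
      linarith
  refine le_trans ?_ h2
  exact_mod_cast h1.trans card_image_le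

/-- the number of elements `x` of `S` with `0 < σ x ≤ X` in the class of `c` modulo `Q` -/
noncomputable def cn (S : Set ℤ) (σ : ℤ) (X : ℝ) (Q : ℕ) (c : ℤ) : ℝ :=
  ({x : ℤ | x ∈ S ∧ 0 < σ * x ∧ ((σ * x : ℤ) : ℝ) ≤ X ∧ (Q : ℤ) ∣ x - c}.ncard : ℝ)

theorem side_fin {σ : ℤ} (hσ : σ = 1 ∨ σ = -1) (X : ℝ) : {x : ℤ | 0 < σ * x ∧ ((σ * x : ℤ) : ℝ) ≤ X}.Finite := by
  refine (cw_fin hσ (a := 0) (b := max X 0) (le_max_right _ _) (Q := 1) one_pos 0).1.subset ?_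
  rintro x ⟨h1, h2⟩
  refine ⟨by exact_mod_cast h1.le, h2.trans (le_max_left _ _), by simp⟩

theorem cn_set_fin (S : Set ℤ) {σ : ℤ} (hσ : σ = 1 ∨ σ = -1) (X : ℝ) (Q : ℕ) (c : ℤ) :
    {x : ℤ | x ∈ S ∧ 0 < σ * x ∧ ((σ * x : ℤ) : ℝ) ≤ X ∧ (Q : ℤ) ∣ x - c}.Finite :=
  (side_fin hσ X).subset fun _ hx => ⟨hx.2.1, hx.2.2.1⟩

theorem cn_nonneg (S : Set ℤ) (σ : ℤ) (X : ℝ) (Q : ℕ) (c : ℤ) : 0 ≤ cn S σ X Q c := Nat.cast_nonneg _

theorem cn_le (S : Set ℤ) {σ : ℤ} (hσ : σ = 1 ∨ σ = -1) {X : ℝ} (hX : 0 ≤ X) {Q : ℕ} (hQ : 0 < Q) (c : ℤ) :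
    cn S σ X Q c ≤ X / Q + 1 := by
  obtain ⟨h1, h2⟩ := cw_fin hσ hX hQ c
  rw [sub_zero] at h2
  refine le_trans ?_ h2
  unfold cn
  exact_mod_cast Set.ncard_le_ncard (by
    rintro x ⟨_, h3, h4, h5⟩
    exact ⟨by exact_mod_cast h3.le, h4, h5⟩) h1

theorem cn_le' (S : Set ℤ) {σ : ℤ} (hσ : σ = 1 ∨ σ = -1) {X : ℝ} (hX : 0 ≤ X) (Q : ℕ) (c : ℤ) :
    cn S σ X Q c ≤ X := by
  rcases lt_or_ge X 1 with h | h
  · have he : {x : ℤ | x ∈ S ∧ 0 < σ * x ∧ ((σ * x : ℤ) : ℝ) ≤ X ∧ (Q : ℤ) ∣ x - c} = ∅ := by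
      rw [Set.eq_empty_iff_forall_notMem]
      rintro x ⟨_, h1, h2, _⟩
      have h3 : (1 : ℝ) ≤ ((σ * x : ℤ) : ℝ) := by exact_mod_cast h1
      linarith
    unfold cn
    rw [he, Set.ncard_empty]
    simpa using hX
  · obtain ⟨h1, h2⟩ := cw_fin hσ h (Q := 1) one_pos 0
    have h3 : (X - 1) / ((1 : ℕ) : ℝ) + 1 = X := by push_cast; ring
    rw [h3] at h2
    refine le_trans ?_ h2
    unfold cn
    exact_mod_cast Set.ncard_le_ncard (by
      rintro x ⟨_, h3, h4, _⟩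
      exact ⟨by exact_mod_cast h3, h4, by simp⟩) h1

theorem cn_congr (S : Set ℤ) (σ : ℤ) (X : ℝ) {Q : ℕ} {c c' : ℤ} (h : (Q : ℤ) ∣ c - c') : cn S σ X Q c = cn S σ X Q c' := by
  unfold cn
  congr 2
  ext x
  simp only [Set.mem_ofPred_eq]
  have : (Q : ℤ) ∣ x - c ↔ (Q : ℤ) ∣ x - c' := by
    constructor
    · intro h1
      have := dvd_add h1 h
      rwa [show x - c + (c - c') = x - c' by ring] at this
    · intro h1
      have := dvd_sub h1 h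
      rwa [show x - c' - (c - c') = x - c by ring] at this
  rw [this]

/-- splitting a class mod `Q` into classes mod `Q R` -/
theorem cn_split (S : Set ℤ) {σ : ℤ} (hσ : σ = 1 ∨ σ = -1) (X : ℝ) {Q R : ℕ} (hQ : 0 < Q) (hR : 0 < R) (c : ℤ) :
    cn S σ X Q c = ∑ e ∈ range R, cn S σ X (Q * R) (c + Q * e) := by
  classical
  have hQZ : (0 : ℤ) < Q := by exact_mod_cast hQ
  have hRZ : (0 : ℤ) < R := by exact_mod_cast hR
  set F : Finset ℤ := (cn_set_fin S hσ X Q c).toFinset with hF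
  have hmem : ∀ x, x ∈ F ↔ x ∈ S ∧ 0 < σ * x ∧ ((σ * x : ℤ) : ℝ) ≤ X ∧ (Q : ℤ) ∣ x - c := by
    intro x
    rw [hF, Set.Finite.mem_toFinset]
    rfl
  have h1 : cn S σ X Q c = (F.card : ℝ) := by
    unfold cn
    rw [hF, Set.ncard_eq_toFinset_card _ (cn_set_fin S hσ X Q c)]
  have hmaps : ∀ x ∈ F, (((x - c) / Q) % (R : ℤ)).toNat ∈ range R := by
    intro x _
    rw [mem_range]
    have h1 := Int.emod_lt_of_pos ((x - c) / Q) hRZ
    have h0 := Int.emod_nonneg ((x - c) / Q) hRZ.ne'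
    omega
  rw [h1, card_eq_sum_card_fiberwise hmaps]
  push_cast
  refine sum_congr rfl fun e he => ?_
  rw [mem_range] at he
  have heq : ((F.filter fun x => (((x - c) / Q) % (R : ℤ)).toNat = e : Finset ℤ) : Set ℤ) =
      {x : ℤ | x ∈ S ∧ 0 < σ * x ∧ ((σ * x : ℤ) : ℝ) ≤ X ∧ ((Q * R : ℕ) : ℤ) ∣ x - (c + Q * e)} := by
    ext x
    rw [mem_coe, mem_filter, hmem]
    simp only [Set.mem_ofPred_eq]
    constructor
    · rintro ⟨⟨h2, h3, h4, q, hq⟩, h5⟩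
      refine ⟨h2, h3, h4, ?_⟩
      rw [hq, Int.mul_ediv_cancel_left _ hQZ.ne'] at h5
      have h0 := Int.emod_nonneg q hRZ.ne'
      have h6 : q % R = e := by omega
      have h7 := Int.emod_add_mul_ediv q R
      refine ⟨q / R, ?_⟩
      push_cast
      linear_combination hq - (Q : ℤ) * h7 + (Q : ℤ) * h6
    · rintro ⟨h2, h3, h4, q, hq⟩
      push_cast at hq
      have h5 : x - c = Q * (e + R * q) := by linear_combination hq
      refine ⟨⟨h2, h3, h4, ⟨_, h5⟩⟩, ?_⟩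
      rw [h5, Int.mul_ediv_cancel_left _ hQZ.ne', Int.add_mul_emod_self_left, Int.emod_eq_of_lt (by positivity) (by omega)]
      simp
  unfold cn
  rw [← heq, Set.ncard_coe_finset]

namespace GS

variable {ι : Type} [Fintype ι] [DecidableEq ι] (G : GS ι) {ρ : ι → ℝ}

/-- every path is an itinerary -/
theorem wd_of_dvd {k : ℕ} : ∀ {i : ι} {w : List ℕ} {x : ℤ}, w ∈ G.Pth k i →
    (G.Nv (G.ct i w) : ℤ) ∣ G.Mv (G.ct i w) * x - G.Ww i w → G.wd k (i, x) = w := by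
  induction k with
  | zero =>
    intro i w x hw _
    rw [Pth_zero, mem_singleton] at hw
    rw [hw]
    rfl
  | succ k ih =>
    intro i w x hw hdvd
    simp only [Pth, mem_biUnion, mem_range, mem_image] at hw
    obtain ⟨a, ha, w', hw', rfl⟩ := hw
    simp only [ct, Ww, Nv_add, Nv_single, Mv_add, Mv_single] at hdvd
    push_cast at hdvd
    have hn : (0 : ℤ) < G.n i := by exact_mod_cast G.n_pos i
    have h1 : (G.n i : ℤ) ∣ G.Mv (G.ct (G.nx i a) w') * (G.b i * x - G.c i a) := by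
      have h2 := (dvd_mul_right (G.n i : ℤ) (G.Nv (G.ct (G.nx i a) w') : ℤ)).trans hdvd
      have h3 := dvd_add h2 (dvd_mul_right (G.n i : ℤ) (G.Ww (G.nx i a) w'))
      have e : G.Mv (G.ct (G.nx i a) w') * (G.b i * x - G.c i a) = G.b i * G.Mv (G.ct (G.nx i a) w') * x -
          (G.c i a * G.Mv (G.ct (G.nx i a) w') + G.n i * G.Ww (G.nx i a) w') + G.n i * G.Ww (G.nx i a) w' := by ring
      rw [e]
      exact h3
    have h2 : (G.n i : ℤ) ∣ G.b i * x - G.c i a := (G.Mv_cop _ i).symm.dvd_of_dvd_mul_left h1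
    have h3 : (G.n i : ℤ) ∣ G.b i * (x - a) := by
      have h3 := dvd_sub h2 (G.adm i a ha)
      have e : G.b i * (x - a) = G.b i * x - G.c i a - (G.b i * a - G.c i a) := by ring
      rw [e]
      exact h3
    have h4 : (G.n i : ℤ) ∣ x - a := (G.cop i i).symm.dvd_of_dvd_mul_left h3
    have hdig : (x % G.n i).toNat = a := by
      have h5 : x % G.n i = a := by
        have h6 : x % G.n i = (a : ℤ) % G.n i := (Int.modEq_iff_dvd.2 h4).symm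
        rw [h6, Int.emod_eq_of_lt (by positivity) (by exact_mod_cast ha)]
      rw [h5]
      simp
    have h5 := G.step_eq i x
    rw [hdig] at h5
    have h6 : (G.Nv (G.ct (G.nx i a) w') : ℤ) ∣ G.Mv (G.ct (G.nx i a) w') * (G.step (i, x)).2 - G.Ww (G.nx i a) w' := by
      have h7 : (G.n i : ℤ) * (G.Nv (G.ct (G.nx i a) w') : ℤ) ∣ G.n i *
          (G.Mv (G.ct (G.nx i a) w') * (G.step (i, x)).2 - G.Ww (G.nx i a) w') := by
        have e : (G.n i : ℤ) * (G.Mv (G.ct (G.nx i a) w') * (G.step (i, x)).2 - G.Ww (G.nx i a) w') =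
            G.b i * G.Mv (G.ct (G.nx i a) w') * x -
              (G.c i a * G.Mv (G.ct (G.nx i a) w') + G.n i * G.Ww (G.nx i a) w') := by
          linear_combination G.Mv (G.ct (G.nx i a) w') * h5
        rw [e]
        exact hdvd
      exact (mul_dvd_mul_iff_left hn.ne').1 h7
    have h7 := ih hw' h6
    have h8 : G.step (i, x) = (G.nx i a, (G.step (i, x)).2) := by
      apply Prod.ext
      · show G.nx i (x % G.n i).toNat = G.nx i a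
        rw [hdig]
      · rfl
    show (x % G.n i).toNat :: G.wd k (G.step (i, x)) = a :: w'
    rw [hdig, h8, h7]

theorem wd_take {l k : ℕ} (h : l ≤ k) (z : ι × ℤ) : (G.wd k z).take l = G.wd l z := by
  induction l generalizing k z with
  | zero => simp [wd]
  | succ l ih =>
    obtain ⟨k', rfl⟩ : ∃ k', k = k' + 1 := ⟨k - 1, by omega⟩
    simp only [wd, List.take_succ_cons]
    rw [ih (by omega)]

/-- two integers with the same path and the same image are equal -/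
theorem wd_inj {l k : ℕ} (h : l ≤ k) {i : ι} {x y : ℤ} (hw : G.wd k (i, x) = G.wd k (i, y))
    (hxy : (G.step^[l] (i, x)).2 = (G.step^[l] (i, y)).2) : x = y := by
  have h1 : G.wd l (i, x) = G.wd l (i, y) := by rw [← G.wd_take h, ← G.wd_take h, hw]
  have h2 := G.iter_eq l i x
  have h3 := G.iter_eq l i y
  rw [h1, hxy] at h2
  have h4 : G.Mv (G.ct i (G.wd l (i, y))) * x = G.Mv (G.ct i (G.wd l (i, y))) * y := by linarith
  exact mul_left_cancel₀ (G.Mv_ne _) h4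

/-- invariance outside of `[-R, R]` -/
def QI (R : ℕ) (S : ι → Set ℤ) : Prop :=
  ∀ (i : ι) (x : ℤ), (R : ℤ) < |x| → (x ∈ S i ↔ (G.step (i, x)).2 ∈ S (G.step (i, x)).1)

variable {G}

theorem QI.iter {R : ℕ} {S : ι → Set ℤ} (hS : G.QI R S) {k : ℕ} {i : ι} {x : ℤ}
    (hx : ∀ l < k, (R : ℤ) < |(G.step^[l] (i, x)).2|) :
    x ∈ S i ↔ (G.step^[k] (i, x)).2 ∈ S (G.step^[k] (i, x)).1 := by
  induction k with
  | zero => simp
  | succ k ih =>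
    rw [ih fun l hl => hx l (by omega), Function.iterate_succ_apply']
    exact hS _ _ (hx k (by omega))

variable (G)

/-- the exceptional integers of a path -/
theorem exc_fin (R : ℕ) (k : ℕ) (i : ι) (w : List ℕ) :
    {x : ℤ | G.wd k (i, x) = w ∧ ∃ l < k, |(G.step^[l] (i, x)).2| ≤ (R : ℤ)}.Finite ∧
    ({x : ℤ | G.wd k (i, x) = w ∧ ∃ l < k, |(G.step^[l] (i, x)).2| ≤ (R : ℤ)}.ncard : ℝ) ≤ k * (2 * R + 1) := by
  have hone : ∀ l < k, {x : ℤ | G.wd k (i, x) = w ∧ |(G.step^[l] (i, x)).2| ≤ (R : ℤ)}.Finite ∧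
      {x : ℤ | G.wd k (i, x) = w ∧ |(G.step^[l] (i, x)).2| ≤ (R : ℤ)}.ncard ≤ 2 * R + 1 := by
    intro l hl
    have hinj : Set.InjOn (fun x : ℤ => (G.step^[l] (i, x)).2)
        {x : ℤ | G.wd k (i, x) = w ∧ |(G.step^[l] (i, x)).2| ≤ (R : ℤ)} := by
      intro x hx y hy hxy
      exact G.wd_inj hl.le (hx.1.trans hy.1.symm) hxy
    have hmaps : ∀ x ∈ {x : ℤ | G.wd k (i, x) = w ∧ |(G.step^[l] (i, x)).2| ≤ (R : ℤ)},
        (G.step^[l] (i, x)).2 ∈ ((Icc (-(R : ℤ)) R : Finset ℤ) : Set ℤ) := by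
      intro x hx
      rw [mem_coe, mem_Icc]
      exact abs_le.1 hx.2
    refine ⟨Set.Finite.of_finite_image ((Finset.finite_toSet (Icc (-(R : ℤ)) R)).subset (by
      rintro _ ⟨x, hx, rfl⟩
      exact hmaps x hx)) hinj, ?_⟩
    have h1 := Set.ncard_le_ncard_of_injOn (fun x : ℤ => (G.step^[l] (i, x)).2) hmaps hinj (Finset.finite_toSet _)
    rw [Set.ncard_coe_finset, Int.card_Icc] at h1
    omega
  have hsub : {x : ℤ | G.wd k (i, x) = w ∧ ∃ l < k, |(G.step^[l] (i, x)).2| ≤ (R : ℤ)} ⊆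
      ⋃ l ∈ range k, {x : ℤ | G.wd k (i, x) = w ∧ |(G.step^[l] (i, x)).2| ≤ (R : ℤ)} := by
    rintro x ⟨h1, l, hl, h2⟩
    rw [Set.mem_iUnion₂]
    exact ⟨l, mem_range.2 hl, h1, h2⟩
  have hfin : (⋃ l ∈ range k, {x : ℤ | G.wd k (i, x) = w ∧ |(G.step^[l] (i, x)).2| ≤ (R : ℤ)}).Finite :=
    Set.Finite.biUnion (Finset.finite_toSet _) fun l hl => (hone l (mem_range.1 hl)).1
  refine ⟨hfin.subset hsub, ?_⟩
  have h1 := (Set.ncard_le_ncard hsub hfin).trans (Finset.set_ncard_biUnion_le _ _)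
  have h2 : ∑ l ∈ range k, {x : ℤ | G.wd k (i, x) = w ∧ |(G.step^[l] (i, x)).2| ≤ (R : ℤ)}.ncard ≤ k * (2 * R + 1) := by
    refine (sum_le_card_nsmul _ _ (2 * R + 1) fun l hl => (hone l (mem_range.1 hl)).2).trans ?_
    rw [card_range, smul_eq_mul]
  exact_mod_cast h1.trans h2

/-- the elements of a class with a given path -/
def Aset (S : ι → Set ℤ) (σ : ℤ) (X : ℝ) (Q : ℕ) (c : ℤ) (k : ℕ) (i : ι) (w : List ℕ) : Set ℤ :=
  {x : ℤ | x ∈ S i ∧ 0 < σ * x ∧ ((σ * x : ℤ) : ℝ) ≤ X ∧ (Q : ℤ) ∣ x - c ∧ G.wd k (i, x) = w}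

/-- their images -/
def Zset (S : ι → Set ℤ) (σ : ℤ) (X : ℝ) (Q : ℕ) (c : ℤ) (i : ι) (w : List ℕ) : Set ℤ :=
  {z : ℤ | z ∈ S (G.en i w) ∧ 0 < σ * (G.Mv (G.ct i w)).sign * z ∧
    ((σ * (G.Mv (G.ct i w)).sign * z : ℤ) : ℝ) ≤ X * |(G.Mv (G.ct i w) : ℝ)| / G.Nv (G.ct i w) ∧
    (((G.Mv (G.ct i w)).natAbs * Q : ℕ) : ℤ) ∣ G.Ww i w - (G.Mv (G.ct i w) * c - G.Nv (G.ct i w) * z)}

theorem word_count {R : ℕ} {S : ι → Set ℤ} (hS : G.QI R S) {σ : ℤ} (hσ : σ = 1 ∨ σ = -1) (X : ℝ)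
    {Q : ℕ} (c : ℤ) {k : ℕ} {i : ι} {w : List ℕ} (hw : w ∈ G.Pth k i) :
    |((G.Aset S σ X Q c k i w).ncard : ℝ) - ((G.Zset S σ X Q c i w).ncard : ℝ)| ≤
      2 * |(G.Ww i w : ℝ)| + 2 + k * (2 * R + 1) := by
  set M := G.Mv (G.ct i w) with hM
  set K := G.Nv (G.ct i w) with hK
  set W := G.Ww i w with hW
  set j := G.en i w with hj
  have hM0 : M ≠ 0 := G.Mv_ne _
  have hKR : (0 : ℝ) < K := G.Nv_posR _
  have hKZ : (K : ℤ) ≠ 0 := by exact_mod_cast (G.Nv_pos _).ne'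
  set τ : ℤ := σ * M.sign with hτd
  have hτ : τ = 1 ∨ τ = -1 := by
    rw [hτd]
    rcases lt_or_gt_of_ne hM0 with h1 | h1
    · rw [Int.sign_eq_neg_one_of_neg h1]
      rcases hσ with rfl | rfl <;> norm_num
    · rw [Int.sign_eq_one_of_pos h1]
      rcases hσ with rfl | rfl <;> norm_num
  have hM1 : (1 : ℝ) ≤ |(M : ℝ)| := G.abs_Mv_ge _
  set X' : ℝ := X * |(M : ℝ)| / K with hX'
  -- the basic identity
  have hid : ∀ x : ℤ, G.wd k (i, x) = w → (K : ℝ) * ((τ * (G.step^[k] (i, x)).2 : ℤ) : ℝ) =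
      |(M : ℝ)| * ((σ * x : ℤ) : ℝ) - ((τ * W : ℤ) : ℝ) := by
    intro x hx
    have h1 := G.iter_eq k i x
    rw [hx] at h1
    have hsM : M.sign * M = |M| := Int.sign_mul_self_eq_abs M
    have h2 : (K : ℤ) * (τ * (G.step^[k] (i, x)).2) = |M| * (σ * x) - τ * W := by
      rw [hτd]
      linear_combination σ * M.sign * h1 + σ * x * hsM
    have h3 := congrArg (fun t : ℤ => (t : ℝ)) h2
    simp only [Int.cast_mul, Int.cast_sub, Int.cast_natCast, Int.cast_abs] at h3 ⊢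
    linarith
  have hWabs : |((τ * W : ℤ) : ℝ)| = |(W : ℝ)| := by
    rcases hτ with h | h <;> rw [h] <;> simp
  have hWb := abs_le.1 hWabs.le
  set B : Set ℤ := {x : ℤ | (G.step^[k] (i, x)).2 ∈ S j ∧ 0 < τ * (G.step^[k] (i, x)).2 ∧
    ((τ * (G.step^[k] (i, x)).2 : ℤ) : ℝ) ≤ X' ∧ (Q : ℤ) ∣ x - c ∧ G.wd k (i, x) = w} with hB
  set D1 : Set ℤ := {x : ℤ | 0 ≤ ((σ * x : ℤ) : ℝ) ∧ ((σ * x : ℤ) : ℝ) ≤ |(W : ℝ)| ∧ ((1 : ℕ) : ℤ) ∣ x - 0} with hD1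
  set D2 : Set ℤ := {x : ℤ | X - |(W : ℝ)| ≤ ((σ * x : ℤ) : ℝ) ∧ ((σ * x : ℤ) : ℝ) ≤ X ∧ ((1 : ℕ) : ℤ) ∣ x - 0} with hD2
  set D3 : Set ℤ := {x : ℤ | -|(W : ℝ)| ≤ ((σ * x : ℤ) : ℝ) ∧ ((σ * x : ℤ) : ℝ) ≤ 0 ∧ ((1 : ℕ) : ℤ) ∣ x - 0} with hD3
  set D4 : Set ℤ := {x : ℤ | X ≤ ((σ * x : ℤ) : ℝ) ∧ ((σ * x : ℤ) : ℝ) ≤ X + |(W : ℝ)| ∧ ((1 : ℕ) : ℤ) ∣ x - 0} with hD4
  set Ex : Set ℤ := {x : ℤ | G.wd k (i, x) = w ∧ ∃ l < k, |(G.step^[l] (i, x)).2| ≤ (R : ℤ)} with hEx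
  obtain ⟨hExf, hExc⟩ := G.exc_fin R k i w
  have hW0 := abs_nonneg (W : ℝ)
  obtain ⟨hf1, hc1⟩ := cw_fin hσ hW0 (Q := 1) one_pos 0
  obtain ⟨hf2, hc2⟩ := cw_fin hσ (show X - |(W : ℝ)| ≤ X by linarith) (Q := 1) one_pos 0
  obtain ⟨hf3, hc3⟩ := cw_fin hσ (show -|(W : ℝ)| ≤ 0 by linarith) (Q := 1) one_pos 0
  obtain ⟨hf4, hc4⟩ := cw_fin hσ (show X ≤ X + |(W : ℝ)| by linarith) (Q := 1) one_pos 0
  have e1 : ((1 : ℕ) : ℝ) = 1 := Nat.cast_one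
  simp only [e1, div_one] at hc1 hc2 hc3 hc4
  have hone : ∀ x : ℤ, ((1 : ℕ) : ℤ) ∣ x - 0 := fun x => by simp
  -- invariance
  have hinv : ∀ x : ℤ, G.wd k (i, x) = w → x ∉ Ex → (x ∈ S i ↔ (G.step^[k] (i, x)).2 ∈ S j) := by
    intro x hx hxE
    have h1 : ∀ l < k, (R : ℤ) < |(G.step^[l] (i, x)).2| := by
      intro l hl
      by_contra hcon
      exact hxE ⟨hx, l, hl, not_lt.1 hcon⟩
    have h2 := hS.iter h1
    rwa [G.en_wd k i x, hx] at h2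
  have hA1 : G.Aset S σ X Q c k i w ⊆ ((B ∪ Ex) ∪ D1) ∪ D2 := by
    rintro x ⟨h1, h2, h3, h4, h5⟩
    by_cases hxE : x ∈ Ex
    · exact Or.inl (Or.inl (Or.inr hxE))
    have h6 := hid x h5
    by_cases h7 : 0 < τ * (G.step^[k] (i, x)).2
    · by_cases h8 : ((τ * (G.step^[k] (i, x)).2 : ℤ) : ℝ) ≤ X'
      · exact Or.inl (Or.inl (Or.inl ⟨(hinv x h5 hxE).1 h1, h7, h8, h4, h5⟩))
      · refine Or.inr ⟨?_, h3, hone x⟩
        rw [not_le, hX', div_lt_iff₀ hKR] at h8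
        have h9 : |(M : ℝ)| * (X - ((σ * x : ℤ) : ℝ)) ≤ |(W : ℝ)| := by nlinarith [hWb.1]
        have h10 : 1 * (X - ((σ * x : ℤ) : ℝ)) ≤ |(M : ℝ)| * (X - ((σ * x : ℤ) : ℝ)) :=
          mul_le_mul_of_nonneg_right hM1 (by linarith)
        linarith
    · refine Or.inl (Or.inr ⟨by exact_mod_cast h2.le, ?_, hone x⟩)
      have h8 : ((τ * (G.step^[k] (i, x)).2 : ℤ) : ℝ) ≤ 0 := by exact_mod_cast not_lt.1 h7
      have h9 : |(M : ℝ)| * ((σ * x : ℤ) : ℝ) ≤ |(W : ℝ)| := by nlinarith [hWb.2]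
      have h10 : (0 : ℝ) ≤ ((σ * x : ℤ) : ℝ) := by exact_mod_cast h2.le
      nlinarith
  have hB1 : B ⊆ ((G.Aset S σ X Q c k i w ∪ Ex) ∪ D3) ∪ D4 := by
    rintro x ⟨h1, h2, h3, h4, h5⟩
    by_cases hxE : x ∈ Ex
    · exact Or.inl (Or.inl (Or.inr hxE))
    have h6 := hid x h5
    have h7 : (0 : ℝ) ≤ ((τ * (G.step^[k] (i, x)).2 : ℤ) : ℝ) := by exact_mod_cast h2.le
    by_cases h8 : 0 < σ * x
    · by_cases h9 : ((σ * x : ℤ) : ℝ) ≤ X
      · exact Or.inl (Or.inl (Or.inl ⟨(hinv x h5 hxE).2 h1, h8, h9, h4, h5⟩))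
      · refine Or.inr ⟨(not_le.1 h9).le, ?_, hone x⟩
        rw [hX', le_div_iff₀ hKR] at h3
        have h10 : |(M : ℝ)| * (((σ * x : ℤ) : ℝ) - X) ≤ |(W : ℝ)| := by nlinarith [hWb.2]
        have h11 : 1 * (((σ * x : ℤ) : ℝ) - X) ≤ |(M : ℝ)| * (((σ * x : ℤ) : ℝ) - X) :=
          mul_le_mul_of_nonneg_right hM1 (by linarith)
        linarith
    · refine Or.inl (Or.inr ⟨?_, by exact_mod_cast not_lt.1 h8, hone x⟩)
      have h9 : ((σ * x : ℤ) : ℝ) ≤ 0 := by exact_mod_cast not_lt.1 h8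
      have h10 : 0 ≤ (K : ℝ) * ((τ * (G.step^[k] (i, x)).2 : ℤ) : ℝ) := by positivity
      have h11 : -|(W : ℝ)| ≤ |(M : ℝ)| * ((σ * x : ℤ) : ℝ) := by linarith [hWb.1]
      nlinarith
  -- the bijection
  have hinj : Set.InjOn (fun x : ℤ => (G.step^[k] (i, x)).2) B := by
    intro x hx y hy hxy
    exact G.wd_inj le_rfl (hx.2.2.2.2.trans hy.2.2.2.2.symm) hxy
  have hMQ : ((M.natAbs * Q : ℕ) : ℤ) ∣ M * Q ∧ M * Q ∣ ((M.natAbs * Q : ℕ) : ℤ) := by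
    rw [Nat.cast_mul]
    exact ⟨mul_dvd_mul (Int.natAbs_dvd.2 dvd_rfl) dvd_rfl, mul_dvd_mul (Int.dvd_natAbs.2 dvd_rfl) dvd_rfl⟩
  have himg : (fun x : ℤ => (G.step^[k] (i, x)).2) '' B = G.Zset S σ X Q c i w := by
    ext z
    rw [Set.mem_image]
    constructor
    · rintro ⟨x, ⟨h1, h2, h3, h4, h5⟩, rfl⟩
      refine ⟨h1, h2, h3, ?_⟩
      have h6 := G.iter_eq k i x
      rw [h5] at h6
      have h7 : W - (M * c - K * (G.step^[k] (i, x)).2) = M * (x - c) := by linear_combination h6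
      show ((M.natAbs * Q : ℕ) : ℤ) ∣ W - (M * c - K * (G.step^[k] (i, x)).2)
      rw [h7]
      exact hMQ.1.trans (mul_dvd_mul dvd_rfl h4)
    · rintro ⟨h1, h2, h3, h4⟩
      obtain ⟨t, ht⟩ := hMQ.2.trans h4
      have hx : M * (c + Q * t) = W + K * z := by
        have ht' : W - (M * c - K * z) = M * Q * t := ht
        linear_combination -ht'
      have hwd : G.wd k (i, c + Q * t) = w := by
        apply G.wd_of_dvd hw
        show (K : ℤ) ∣ M * (c + Q * t) - W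
        rw [hx]
        exact ⟨z, by ring⟩
      have h6 := G.iter_eq k i (c + Q * t)
      rw [hwd] at h6
      have h7 : (G.step^[k] (i, c + Q * t)).2 = z := by
        apply mul_left_cancel₀ hKZ
        have h6' : (K : ℤ) * (G.step^[k] (i, c + Q * t)).2 = M * (c + Q * t) - W := h6
        rw [h6', hx]
        ring
      refine ⟨c + Q * t, ⟨?_, ?_, ?_, ⟨t, by ring⟩, hwd⟩, h7⟩
      · rw [h7]; exact h1
      · rw [h7]; exact h2
      · rw [h7]; exact h3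
  have hZB : (G.Zset S σ X Q c i w).ncard = B.ncard := by rw [← himg, hinj.ncard_image]
  have hAf : (G.Aset S σ X Q c k i w).Finite := (side_fin hσ X).subset fun x hx => ⟨hx.2.1, hx.2.2.1⟩
  have hBf : B.Finite := by
    apply Set.Finite.of_finite_image _ hinj
    rw [himg]
    exact (side_fin hτ X').subset fun z hz => ⟨hz.2.1, hz.2.2.1⟩
  have n1 : ((G.Aset S σ X Q c k i w).ncard : ℝ) ≤ B.ncard + Ex.ncard + D1.ncard + D2.ncard := by
    have h1 := Set.ncard_le_ncard hA1 (((hBf.union hExf).union hf1).union hf2)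
    have h2 := Set.ncard_union_le ((B ∪ Ex) ∪ D1) D2
    have h3 := Set.ncard_union_le (B ∪ Ex) D1
    have h4 := Set.ncard_union_le B Ex
    have h5 : (G.Aset S σ X Q c k i w).ncard ≤ B.ncard + Ex.ncard + D1.ncard + D2.ncard := by omega
    exact_mod_cast h5
  have n2 : (B.ncard : ℝ) ≤ (G.Aset S σ X Q c k i w).ncard + Ex.ncard + D3.ncard + D4.ncard := by
    have h1 := Set.ncard_le_ncard hB1 (((hAf.union hExf).union hf3).union hf4)
    have h2 := Set.ncard_union_le ((G.Aset S σ X Q c k i w ∪ Ex) ∪ D3) D4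
    have h3 := Set.ncard_union_le (G.Aset S σ X Q c k i w ∪ Ex) D3
    have h4 := Set.ncard_union_le (G.Aset S σ X Q c k i w) Ex
    have h5 : B.ncard ≤ (G.Aset S σ X Q c k i w).ncard + Ex.ncard + D3.ncard + D4.ncard := by omega
    exact_mod_cast h5
  rw [hZB, abs_le]
  constructor <;> linarith

end GS

end Pool.Agent.Zk39.GD
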