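import Mathlib
import Pool.Agent.Zk39.LD.Win

/-!
# Equidistribution of almost invariant sets in residue classes
-/

set_option autoImplicit false
set_option linter.unusedSectionVars false

namespace Pool.Agent.Zk39.GD

open Finset Pool.Agent.H319R3.GC

namespace GS

variable {ι : Type} [Fintype ι] [DecidableEq ι] (G : GS ι) {ρ : ι → ℝ}

/-- decomposition along the paths -/
theorem cn_paths (S : ι → Set ℤ) {σ : ℤ} (hσ : σ = 1 ∨ σ = -1) (X : ℝ) (Q : ℕ) (c : ℤ) (k : ℕ) (i : ι) :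
    cn (S i) σ X Q c = ∑ w ∈ G.Pth k i, ((G.Aset S σ X Q c k i w).ncard : ℝ) := by
  classical
  set F : Finset ℤ := (cn_set_fin (S i) hσ X Q c).toFinset with hF
  have hmem : ∀ x, x ∈ F ↔ x ∈ S i ∧ 0 < σ * x ∧ ((σ * x : ℤ) : ℝ) ≤ X ∧ (Q : ℤ) ∣ x - c := by
    intro x
    rw [hF, Set.Finite.mem_toFinset]
    rfl
  have h1 : cn (S i) σ X Q c = (F.card : ℝ) := by
    unfold cn
    rw [hF, Set.ncard_eq_toFinset_card _ (cn_set_fin (S i) hσ X Q c)]
  rw [h1, card_eq_sum_card_fiberwise (f := fun x : ℤ => G.wd k (i, x)) (t := G.Pth k i) fun x _ => G.wd_mem k i x]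
  push_cast
  refine sum_congr rfl fun w _ => ?_
  have heq : ((F.filter fun x => G.wd k (i, x) = w : Finset ℤ) : Set ℤ) = G.Aset S σ X Q c k i w := by
    ext x
    rw [mem_coe, mem_filter, hmem]
    unfold Aset
    simp only [Set.mem_ofPred_eq]
    tauto
  rw [← heq, Set.ncard_coe_finset]

theorem Aset_le (S : ι → Set ℤ) {σ : ℤ} (hσ : σ = 1 ∨ σ = -1) {X : ℝ} (hX : 0 ≤ X) {Q : ℕ} (hQ : 0 < Q)
    (hQN : ∀ v, IsCoprime (G.Nv v : ℤ) (Q : ℤ)) (c : ℤ) (k : ℕ) (i : ι) (w : List ℕ) :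
    ((G.Aset S σ X Q c k i w).ncard : ℝ) ≤ X / (G.Nv (G.ct i w) * Q) + 1 := by
  rcases (G.Aset S σ X Q c k i w).eq_empty_or_nonempty with h | ⟨x₀, hx₀⟩
  · rw [h, Set.ncard_empty]
    have := G.Nv_posR (G.ct i w)
    push_cast
    positivity
  · have hpos : 0 < G.Nv (G.ct i w) * Q := Nat.mul_pos (G.Nv_pos _) hQ
    obtain ⟨h1, h2⟩ := cw_fin hσ hX hpos x₀
    rw [sub_zero] at h2
    push_cast at h2
    refine le_trans ?_ h2
    have hsub : G.Aset S σ X Q c k i w ⊆ {x : ℤ | 0 ≤ ((σ * x : ℤ) : ℝ) ∧ ((σ * x : ℤ) : ℝ) ≤ X ∧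
        ((G.Nv (G.ct i w) * Q : ℕ) : ℤ) ∣ x - x₀} := by
      rintro x ⟨_, h3, h4, h5, h6⟩
      refine ⟨by exact_mod_cast h3.le, h4, ?_⟩
      have e1 : (G.Nv (G.ct i w) : ℤ) ∣ x - x₀ := by
        have := G.wd_cong (h6.trans hx₀.2.2.2.2.symm)
        rwa [h6] at this
      have e2 : (Q : ℤ) ∣ x - x₀ := by
        have := dvd_sub h5 hx₀.2.2.2.1
        have e : x - c - (x₀ - c) = x - x₀ := by ring
        rwa [e] at this
      push_cast
      exact (hQN _).mul_dvd e1 e2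
    have h3 := Set.ncard_le_ncard hsub (by exact_mod_cast h1)
    push_cast at h3 ⊢
    exact_mod_cast h3

open scoped Classical in
/-- two residue classes of one group of paths -/
theorem group_diff (S : ι → Set ℤ) {σ : ℤ} (hσ : σ = 1 ∨ σ = -1) {X : ℝ} (hX : 0 ≤ X) {k Q Q₀ : ℕ} (hQ : 0 < Q)
    (hQQ : Q₀ ∣ Q) (hQN : ∀ v, IsCoprime (G.Nv v : ℤ) (Q : ℤ)) (c₁ c₂ : ℤ) (i j : ι) (v : ι → ℕ)
    (hQM : Q₀ ∣ (G.Mv v).natAbs) :
    |∑ w ∈ G.gr k i j v, ((G.Zset S σ X Q c₁ i w).ncard : ℝ) - ∑ w ∈ G.gr k i j v, ((G.Zset S σ X Q c₂ i w).ncard : ℝ)| ≤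
      2 * (X / (G.Nv v * Q) + 1) * tv (G.gr k i j v) (G.Ww i) Q₀ ((G.Mv v).natAbs * Q) := by
  set M := G.Mv v with hMd
  set K := G.Nv v with hKd
  have hM0 : M ≠ 0 := G.Mv_ne _
  have hKR : (0 : ℝ) < K := G.Nv_posR _
  have hQR : (0 : ℝ) < Q := by exact_mod_cast hQ
  set τ : ℤ := σ * M.sign with hτd
  have hτ : τ = 1 ∨ τ = -1 := by
    rw [hτd]
    rcases lt_or_gt_of_ne hM0 with h1 | h1
    · rw [Int.sign_eq_neg_one_of_neg h1]
      rcases hσ with rfl | rfl <;> norm_num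
    · rw [Int.sign_eq_one_of_pos h1]
      rcases hσ with rfl | rfl <;> norm_num
  have hMR : (0 : ℝ) < |(M : ℝ)| := abs_pos.2 (by exact_mod_cast hM0)
  have hMnat : ((M.natAbs : ℕ) : ℝ) = |(M : ℝ)| := by rw [Nat.cast_natAbs, Int.cast_abs]
  set N : ℕ := M.natAbs * Q with hN
  have hNpos : 0 < N := Nat.mul_pos (Int.natAbs_pos.2 hM0) hQ
  have hNR : (N : ℝ) = |(M : ℝ)| * Q := by rw [hN, Nat.cast_mul, hMnat]
  set X' : ℝ := X * |(M : ℝ)| / K with hX'
  have hX'0 : 0 ≤ X' := by positivity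
  have hX'N : X' / N = X / (K * Q) := by rw [hX', hNR]; field_simp
  set g := G.gr k i j v with hg
  have hKN : IsCoprime (-(K : ℤ)) (N : ℤ) := by
    have h1 : IsCoprime (K : ℤ) M := (G.Mv_cop_Nv v v).symm
    have h3 : IsCoprime (K : ℤ) (M * Q) := h1.mul_right (hQN v)
    have h4 : IsCoprime (K : ℤ) (N : ℤ) := by
      refine IsCoprime.of_isCoprime_of_dvd_right h3 ?_
      rw [hN, Nat.cast_mul]
      exact mul_dvd_mul (Int.natAbs_dvd.2 dvd_rfl) dvd_rfl
    exact h4.neg_left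
  have hQ0N : Q₀ ∣ N := dvd_mul_of_dvd_right hQQ _
  have hfinZ : {z : ℤ | z ∈ S j ∧ 0 < τ * z ∧ ((τ * z : ℤ) : ℝ) ≤ X'}.Finite :=
    (side_fin hτ X').subset fun z hz => hz.2
  set Z : Finset ℤ := hfinZ.toFinset with hZ
  have hZmem : ∀ z, z ∈ Z ↔ z ∈ S j ∧ 0 < τ * z ∧ ((τ * z : ℤ) : ℝ) ≤ X' := by
    intro z; rw [hZ, Set.Finite.mem_toFinset]; rfl
  -- double counting
  have hdc : ∀ c : ℤ, ∑ w ∈ g, ((G.Zset S σ X Q c i w).ncard : ℝ) = ∑ z ∈ Z, cnt g (G.Ww i) N (M * c - K * z) := by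
    intro c
    have h1 : ∀ w ∈ g, ((G.Zset S σ X Q c i w).ncard : ℝ) =
        ∑ z ∈ Z, if (N : ℤ) ∣ G.Ww i w - (M * c - K * z) then (1 : ℝ) else 0 := by
      intro w hw
      obtain ⟨-, hen, hct⟩ := G.mem_gr.1 hw
      rw [Finset.sum_boole]
      have heq : ((Z.filter fun z => (N : ℤ) ∣ G.Ww i w - (M * c - K * z) : Finset ℤ) : Set ℤ) =
          G.Zset S σ X Q c i w := by
        ext z
        rw [mem_coe, mem_filter, hZmem]
        unfold Zset
        rw [hen, hct]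
        simp only [Set.mem_ofPred_eq]
        exact ⟨fun h => ⟨h.1.1, h.1.2.1, h.1.2.2, h.2⟩, fun h => ⟨⟨h.1, h.2.1, h.2.2.1⟩, h.2.2.2⟩⟩
      rw [← heq, Set.ncard_coe_finset]
    rw [sum_congr rfl h1, sum_comm]
    refine sum_congr rfl fun z _ => ?_
    rw [Finset.sum_boole]
    rfl
  rw [hdc c₁, hdc c₂]
  set dev : ℤ → ℝ := fun e => |cnt g (G.Ww i) N e - cnt g (G.Ww i) Q₀ e * Q₀ / N| with hdev
  have hperN : ∀ x : ℤ, dev (x + N) = dev x := by
    intro x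
    simp only [hdev]
    rw [cnt_congr g (G.Ww i) (D := N) (c := x + N) (c' := x) (by simp),
      cnt_congr g (G.Ww i) (D := Q₀) (c := x + N) (c' := x)
        (by simpa using (Int.natCast_dvd_natCast.2 hQ0N))]
  have part2 : ∀ c : ℤ, ∑ z ∈ Z, dev (M * c - K * z) ≤ (X / (K * Q) + 1) * tv g (G.Ww i) Q₀ N := by
    intro c
    have hs := s2_sum_classes Z hNpos (F := fun z => dev (M * c - K * z)) (K := X / (K * Q) + 1) ?_ ?_ ?_
    · refine hs.trans (le_of_eq ?_)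
      congr 1
      have := sum_affine hNpos hperN hKN (M * c)
      rw [tv]
      rw [show (∑ c ∈ range N, |cnt g (G.Ww i) N (c : ℤ) - cnt g (G.Ww i) Q₀ (c : ℤ) * Q₀ / N|)
        = ∑ c ∈ range N, dev (c : ℤ) from rfl, ← this]
      apply Finset.sum_congr rfl
      intro e _
      congr 1
      ring
    · intro x
      show dev (M * c - K * (x + N)) = _
      exact s2_per_congr hperN ⟨-K, by ring⟩
    · intro x; exact abs_nonneg _
    · intro e
      have hb := cn_le (S j) hτ hX'0 hNpos e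
      rw [hX'N] at hb
      refine le_trans (le_of_eq ?_) hb
      unfold cn
      have : ((Z.filter fun z => (N : ℤ) ∣ z - e : Finset ℤ) : Set ℤ) =
          {x : ℤ | x ∈ S j ∧ 0 < τ * x ∧ ((τ * x : ℤ) : ℝ) ≤ X' ∧ (N : ℤ) ∣ x - e} := by
        ext z
        rw [Finset.mem_coe, Finset.mem_filter, hZmem]
        simp only [Set.mem_ofPred_eq]
        tauto
      rw [← this, Set.ncard_coe_finset]
  have hmain : ∀ z : ℤ, cnt g (G.Ww i) Q₀ (M * c₁ - K * z) = cnt g (G.Ww i) Q₀ (M * c₂ - K * z) := by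
    intro z
    refine cnt_congr g _ ?_
    have h1 : (Q₀ : ℤ) ∣ M := by
      have := Int.natCast_dvd_natCast.2 hQM
      exact this.trans (Int.natAbs_dvd.2 dvd_rfl)
    have h2 : M * c₁ - K * z - (M * c₂ - K * z) = M * (c₁ - c₂) := by ring
    rw [h2]
    exact dvd_mul_of_dvd_left h1 _
  rw [← Finset.sum_sub_distrib]
  calc |∑ z ∈ Z, (cnt g (G.Ww i) N (M * c₁ - K * z) - cnt g (G.Ww i) N (M * c₂ - K * z))|
      ≤ ∑ z ∈ Z, |cnt g (G.Ww i) N (M * c₁ - K * z) - cnt g (G.Ww i) N (M * c₂ - K * z)| :=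
        Finset.abs_sum_le_sum_abs _ _
    _ ≤ ∑ z ∈ Z, (dev (M * c₁ - K * z) + dev (M * c₂ - K * z)) := by
        apply Finset.sum_le_sum
        intro z _
        simp only [hdev]
        rw [hmain z]
        set A := cnt g (G.Ww i) N (M * c₁ - K * z)
        set B := cnt g (G.Ww i) N (M * c₂ - K * z)
        set E := cnt g (G.Ww i) Q₀ (M * c₂ - K * z) * Q₀ / N
        calc |A - B| = |(A - E) - (B - E)| := by congr 1; ring
          _ ≤ |A - E| + |B - E| := abs_sub _ _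
    _ = ∑ z ∈ Z, dev (M * c₁ - K * z) + ∑ z ∈ Z, dev (M * c₂ - K * z) := Finset.sum_add_distrib
    _ ≤ (X / (K * Q) + 1) * tv g (G.Ww i) Q₀ N + (X / (K * Q) + 1) * tv g (G.Ww i) Q₀ N :=
        add_le_add (part2 c₁) (part2 c₂)
    _ = _ := by ring

/-- crude bounds for the paths -/
theorem crude : ∃ A E : ℝ, 1 ≤ A ∧ 2 ≤ E ∧ ∀ (k : ℕ) (i : ι), ((G.Pth k i).card : ℝ) ≤ E ^ k ∧
    ∀ w ∈ G.Pth k i, |(G.Mv (G.ct i w) : ℝ)| ≤ E ^ k ∧ |(G.Ww i w : ℝ)| ≤ A * k * E ^ k := by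
  classical
  set A : ℝ := 1 + ∑ i, ∑ a ∈ range (G.n i), |(G.c i a : ℝ)| with hA
  set Bm : ℝ := 1 + ∑ i, |(G.b i : ℝ)| with hBm
  set Nm : ℝ := 1 + ∑ i, (G.n i : ℝ) with hNm
  have hA1 : 1 ≤ A := by
    have : 0 ≤ ∑ i, ∑ a ∈ range (G.n i), |(G.c i a : ℝ)| := sum_nonneg fun i _ => sum_nonneg fun a _ => abs_nonneg _
    linarith
  have hB1 : 1 ≤ Bm := by
    have : 0 ≤ ∑ i, |(G.b i : ℝ)| := sum_nonneg fun i _ => abs_nonneg _
    linarith
  have hN1 : 1 ≤ Nm := by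
    have : 0 ≤ ∑ i, (G.n i : ℝ) := sum_nonneg fun i _ => Nat.cast_nonneg _
    linarith
  have hAc : ∀ i a, a < G.n i → |(G.c i a : ℝ)| ≤ A := by
    intro i a ha
    have h1 := single_le_sum (f := fun a => |(G.c i a : ℝ)|) (fun a _ => abs_nonneg _) (mem_range.2 ha)
    have h2 := single_le_sum (f := fun i => ∑ a ∈ range (G.n i), |(G.c i a : ℝ)|)
      (fun i _ => sum_nonneg fun a _ => abs_nonneg _) (mem_univ i)
    linarith
  have hBb : ∀ i, |(G.b i : ℝ)| ≤ Bm := by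
    intro i
    have h2 := single_le_sum (f := fun i => |(G.b i : ℝ)|) (fun i _ => abs_nonneg _) (mem_univ i)
    linarith
  have hNn : ∀ i, (G.n i : ℝ) ≤ Nm := by
    intro i
    have h2 := single_le_sum (f := fun i => (G.n i : ℝ)) (fun i _ => Nat.cast_nonneg _) (mem_univ i)
    linarith
  set E : ℝ := 2 * (Bm * Nm) with hE
  have hBN : 1 ≤ Bm * Nm := by nlinarith
  have hE2 : 2 ≤ E := by rw [hE]; linarith
  have hBE : Bm ≤ E := by rw [hE]; nlinarith
  have hNE : Nm ≤ E := by rw [hE]; nlinarith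
  have hE0 : 0 ≤ E := by linarith
  refine ⟨A, E, hA1, hE2, fun k => ?_⟩
  induction k with
  | zero =>
    intro i
    rw [Pth_zero]
    refine ⟨by simp, fun w hw => ?_⟩
    rw [mem_singleton] at hw
    subst hw
    simp [ct, Ww, Mv_zero]
  | succ k ih =>
    intro i
    constructor
    · have h1 : (G.Pth (k + 1) i).card ≤ ∑ a ∈ range (G.n i), (G.Pth k (G.nx i a)).card := by
        show ((range (G.n i)).biUnion fun a => (G.Pth k (G.nx i a)).image (List.cons a)).card ≤ _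
        refine card_biUnion_le.trans (sum_le_sum fun a _ => card_image_le)
      have h2 : ((G.Pth (k + 1) i).card : ℝ) ≤ ∑ a ∈ range (G.n i), ((G.Pth k (G.nx i a)).card : ℝ) := by
        exact_mod_cast h1
      refine h2.trans ((sum_le_sum fun a _ => (ih (G.nx i a)).1).trans ?_)
      rw [sum_const, card_range, nsmul_eq_mul, pow_succ, mul_comm]
      exact mul_le_mul_of_nonneg_left ((hNn i).trans hNE) (by positivity)
    · intro w hw
      simp only [Pth, mem_biUnion, mem_range, mem_image] at hw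
      obtain ⟨a, ha, w', hw', rfl⟩ := hw
      obtain ⟨h1, h2⟩ := (ih (G.nx i a)).2 w' hw'
      have hc := hAc i a ha
      simp only [ct, Ww, Mv_add, Mv_single]
      push_cast
      constructor
      · rw [abs_mul, pow_succ, mul_comm]
        exact mul_le_mul h1 ((hBb i).trans hBE) (abs_nonneg _) (by positivity)
      · have h3 : |(G.c i a : ℝ) * (G.Mv (G.ct (G.nx i a) w') : ℝ)| ≤ A * E ^ k := by
          rw [abs_mul]
          exact mul_le_mul hc h1 (abs_nonneg _) (by linarith)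
        have h4 : |(G.n i : ℝ) * (G.Ww (G.nx i a) w' : ℝ)| ≤ E * (A * k * E ^ k) := by
          rw [abs_mul, abs_of_nonneg (Nat.cast_nonneg _)]
          exact mul_le_mul ((hNn i).trans hNE) h2 (abs_nonneg _) hE0
        refine (abs_add_le _ _).trans ?_
        have h5 : A * E ^ k ≤ A * (E * E ^ k) := by
          apply mul_le_mul_of_nonneg_left _ (by linarith)
          have : 0 ≤ E ^ k := by positivity
          nlinarith
        have h6 : A * ((k : ℝ) + 1) * E ^ (k + 1) = E * (A * k * E ^ k) + A * (E * E ^ k) := by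
          rw [pow_succ]; ring
        rw [h6]
        linarith

end GS

end Pool.Agent.Zk39.GD
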