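import Mathlib
import Pool.Agent.Zk39.LD.Equi

/-!
# Equidistribution of almost invariant sets in residue classes: the estimate
-/

set_option autoImplicit false
set_option linter.unusedSectionVars false

namespace Pool.Agent.Zk39.GD

open Finset Pool.Agent.H319R3.GC

namespace GS

variable {ι : Type} [Fintype ι] [DecidableEq ι] (G : GS ι) {ρ : ι → ℝ}

/-- comparison of two classes, with explicit error terms -/
theorem compare {R : ℕ} {S : ι → Set ℤ} (hS : G.QI R S) {σ : ℤ} (hσ : σ = 1 ∨ σ = -1) {X : ℝ} (hX : 0 < X) {k Q : ℕ}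
    (hQ : 0 < Q) (hQN : ∀ v, IsCoprime (G.Nv v : ℤ) (Q : ℤ)) (hk : ∀ v ∈ Vs ι k, (G.Nv v : ℝ) * Q ≤ X) (c₁ c₂ : ℤ)
    (i : ι) (T : (ι → ℕ) → Prop) [DecidablePred T] (hT : ∀ v, T v → Q ∣ (G.Mv v).natAbs) {E₀ : ℝ}
    (hE₀ : ∀ w ∈ G.Pth k i, 2 * |(G.Ww i w : ℝ)| + 2 + k * (2 * R + 1) ≤ E₀) :
    |cn (S i) σ X Q c₁ - cn (S i) σ X Q c₂| ≤ 4 * X / Q * G.Ex k i (fun w => if T (G.ct i w) then 0 else 1) +
      2 * (G.Pth k i).card * E₀ +
      4 * X / Q * ∑ j, ∑ v ∈ (Vs ι k).filter T,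
          tv (G.gr k i j v) (G.Ww i) Q ((G.Mv v).natAbs * Q) / G.Nv v := by
  have hQR : (0 : ℝ) < Q := by exact_mod_cast hQ
  set A : ℤ → List ℕ → ℝ := fun c w => ((G.Aset S σ X Q c k i w).ncard : ℝ) with hA
  set Z : ℤ → List ℕ → ℝ := fun c w => ((G.Zset S σ X Q c i w).ncard : ℝ) with hZ
  have hA0 : ∀ c w, 0 ≤ A c w := fun c w => Nat.cast_nonneg _
  have hAle : ∀ c, ∀ w ∈ G.Pth k i, A c w ≤ 2 * X / Q * (1 / G.Nv (G.ct i w)) := by
    intro c w hw
    refine (G.Aset_le S hσ hX.le hQ hQN c k i w).trans ?_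
    have h1 := hk _ (G.ct_mem hw)
    have h2 := G.Nv_posR (G.ct i w)
    have h3 : (1 : ℝ) ≤ X / (G.Nv (G.ct i w) * Q) := by rw [one_le_div (by positivity)]; exact h1
    have h4 : 2 * X / Q * (1 / G.Nv (G.ct i w)) = X / (G.Nv (G.ct i w) * Q) + X / (G.Nv (G.ct i w) * Q) := by
      field_simp
      ring
    rw [h4]
    linarith
  have hAZ : ∀ c, ∀ w ∈ G.Pth k i, |A c w - Z c w| ≤ E₀ := fun c w hw =>
    (G.word_count hS hσ X c hw).trans (hE₀ w hw)
  -- the typical part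
  have htyp : ∀ j, ∀ v ∈ (Vs ι k).filter T, |∑ w ∈ G.gr k i j v, (A c₁ w - A c₂ w)| ≤
      (G.gr k i j v).card * (2 * E₀) + 4 * X / Q * (tv (G.gr k i j v) (G.Ww i) Q ((G.Mv v).natAbs * Q) / G.Nv v) := by
    intro j v hv
    rw [mem_filter] at hv
    have h1 := G.group_diff S hσ hX.le hQ dvd_rfl hQN c₁ c₂ i j v (k := k) (hT v hv.2)
    have hsubs : ∀ w ∈ G.gr k i j v, w ∈ G.Pth k i := fun w hw => G.mem_Pth.2 (G.mem_gr.1 hw).1
    have h2 : |∑ w ∈ G.gr k i j v, (A c₁ w - A c₂ w) - ∑ w ∈ G.gr k i j v, (Z c₁ w - Z c₂ w)| ≤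
        (G.gr k i j v).card * (2 * E₀) := by
      rw [← sum_sub_distrib, ← nsmul_eq_mul]
      refine (abs_sum_le_sum_abs _ _).trans (sum_le_card_nsmul _ _ _ fun w hw => ?_)
      have h3 := hAZ c₁ w (hsubs w hw)
      have h4 := hAZ c₂ w (hsubs w hw)
      have e : A c₁ w - A c₂ w - (Z c₁ w - Z c₂ w) = (A c₁ w - Z c₁ w) - (A c₂ w - Z c₂ w) := by ring
      rw [e]
      refine (abs_sub _ _).trans ?_
      linarith
    have h3 : |∑ w ∈ G.gr k i j v, (Z c₁ w - Z c₂ w)| ≤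
        4 * X / Q * (tv (G.gr k i j v) (G.Ww i) Q ((G.Mv v).natAbs * Q) / G.Nv v) := by
      rw [sum_sub_distrib]
      refine h1.trans ?_
      have h4 := hk _ hv.1
      have h5 := G.Nv_posR v
      have h6 : (1 : ℝ) ≤ X / (G.Nv v * Q) := by rw [one_le_div (by positivity)]; exact h4
      have h7 : 0 ≤ tv (G.gr k i j v) (G.Ww i) Q ((G.Mv v).natAbs * Q) := by
        unfold tv
        exact sum_nonneg fun _ _ => abs_nonneg _
      have e : 4 * X / Q * (tv (G.gr k i j v) (G.Ww i) Q ((G.Mv v).natAbs * Q) / G.Nv v) =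
          2 * (X / (G.Nv v * Q) + X / (G.Nv v * Q)) * tv (G.gr k i j v) (G.Ww i) Q ((G.Mv v).natAbs * Q) := by
        field_simp
        ring
      rw [e]
      apply mul_le_mul_of_nonneg_right _ h7
      linarith
    have h4 := abs_sub_abs_le_abs_sub (∑ w ∈ G.gr k i j v, (A c₁ w - A c₂ w)) (∑ w ∈ G.gr k i j v, (Z c₁ w - Z c₂ w))
    linarith
  -- decomposition
  have hdec : cn (S i) σ X Q c₁ - cn (S i) σ X Q c₂ = ∑ w ∈ (G.Pth k i).filter (fun w => ¬ T (G.ct i w)), (A c₁ w - A c₂ w) +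
      ∑ j, ∑ v ∈ (Vs ι k).filter T, ∑ w ∈ G.gr k i j v, (A c₁ w - A c₂ w) := by
    rw [G.cn_paths S hσ X Q c₁ k i, G.cn_paths S hσ X Q c₂ k i, ← sum_sub_distrib]
    rw [← sum_filter_add_sum_filter_not (G.Pth k i) (fun w => T (G.ct i w)), add_comm]
    congr 1
    have h1 : ∀ j, ∑ v ∈ (Vs ι k).filter T, ∑ w ∈ G.gr k i j v, (A c₁ w - A c₂ w) =
        ∑ v ∈ Vs ι k, ∑ w ∈ G.gr k i j v, (if T (G.ct i w) then A c₁ w - A c₂ w else 0) := by
      intro j
      rw [sum_filter]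
      refine sum_congr rfl fun v _ => ?_
      split_ifs with hv
      · refine sum_congr rfl fun w hw => ?_
        rw [if_pos]
        rw [(G.mem_gr.1 hw).2.2]
        exact hv
      · symm
        refine sum_eq_zero fun w hw => ?_
        rw [if_neg]
        rw [(G.mem_gr.1 hw).2.2]
        exact hv
    rw [sum_congr rfl fun j _ => h1 j, G.sum_gr k i, sum_filter]
  rw [hdec]
  refine (abs_add_le _ _).trans ?_
  have p1 : |∑ w ∈ (G.Pth k i).filter (fun w => ¬ T (G.ct i w)), (A c₁ w - A c₂ w)| ≤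
      4 * X / Q * G.Ex k i (fun w => if T (G.ct i w) then 0 else 1) := by
    refine (abs_sum_le_sum_abs _ _).trans ?_
    unfold Ex
    rw [mul_sum, sum_filter]
    refine sum_le_sum fun w hw => ?_
    show (if ¬ T (G.ct i w) then |A c₁ w - A c₂ w| else 0) ≤
      4 * X / Q * ((if T (G.ct i w) then (0 : ℝ) else 1) / G.Nv (G.ct i w))
    by_cases hTw : T (G.ct i w)
    · rw [if_neg (not_not.2 hTw), if_pos hTw]
      simp
    · rw [if_pos hTw, if_neg hTw]
      have h1 := hAle c₁ w hw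
      have h2 := hAle c₂ w hw
      have h3 := hA0 c₁ w
      have h4 := hA0 c₂ w
      have e : 4 * X / Q * (1 / G.Nv (G.ct i w)) = 2 * (2 * X / Q * (1 / G.Nv (G.ct i w))) := by ring
      rw [e, abs_le]
      constructor <;> linarith
  have p2 : |∑ j, ∑ v ∈ (Vs ι k).filter T, ∑ w ∈ G.gr k i j v, (A c₁ w - A c₂ w)| ≤
      2 * (G.Pth k i).card * E₀ + 4 * X / Q * ∑ j, ∑ v ∈ (Vs ι k).filter T,
          tv (G.gr k i j v) (G.Ww i) Q ((G.Mv v).natAbs * Q) / G.Nv v := by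
    have hE0 : 0 ≤ E₀ := by
      have h1 := hE₀ _ (G.wd_mem k i 0)
      have h2 := abs_nonneg ((G.Ww i (G.wd k (i, 0)) : ℤ) : ℝ)
      have h3 : (0 : ℝ) ≤ k * (2 * R + 1) := by positivity
      linarith
    refine (abs_sum_le_sum_abs _ _).trans ?_
    have h1 : ∀ j, |∑ v ∈ (Vs ι k).filter T, ∑ w ∈ G.gr k i j v, (A c₁ w - A c₂ w)| ≤
        ∑ v ∈ (Vs ι k).filter T, ((G.gr k i j v).card * (2 * E₀) +
          4 * X / Q * (tv (G.gr k i j v) (G.Ww i) Q ((G.Mv v).natAbs * Q) / G.Nv v)) := fun j =>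
      (abs_sum_le_sum_abs _ _).trans (sum_le_sum fun v hv => htyp j v hv)
    refine (sum_le_sum fun j _ => h1 j).trans ?_
    have h2 : ∑ j, ∑ v ∈ (Vs ι k).filter T, ((G.gr k i j v).card : ℝ) ≤ (G.Pth k i).card := by
      calc ∑ j, ∑ v ∈ (Vs ι k).filter T, ((G.gr k i j v).card : ℝ)
          ≤ ∑ j, ∑ v ∈ Vs ι k, ((G.gr k i j v).card : ℝ) :=
            sum_le_sum fun j _ => sum_le_sum_of_subset_of_nonneg (filter_subset _ _) fun v _ _ => Nat.cast_nonneg _
        _ = ∑ j, ∑ v ∈ Vs ι k, ∑ w ∈ G.gr k i j v, (1 : ℝ) := by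
            refine sum_congr rfl fun j _ => sum_congr rfl fun v _ => ?_
            rw [sum_const, nsmul_eq_mul, mul_one]
        _ = (G.Pth k i).card := by
            rw [G.sum_gr k i (fun _ => (1 : ℝ)), sum_const, nsmul_eq_mul, mul_one]
    have h3 : ∑ j, ∑ v ∈ (Vs ι k).filter T, ((G.gr k i j v).card * (2 * E₀) +
          4 * X / Q * (tv (G.gr k i j v) (G.Ww i) Q ((G.Mv v).natAbs * Q) / G.Nv v)) =
        (∑ j, ∑ v ∈ (Vs ι k).filter T, ((G.gr k i j v).card : ℝ)) * (2 * E₀) + 4 * X / Q * ∑ j, ∑ v ∈ (Vs ι k).filter T,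
          tv (G.gr k i j v) (G.Ww i) Q ((G.Mv v).natAbs * Q) / G.Nv v := by
      simp only [sum_add_distrib, sum_mul, mul_sum]
    rw [h3]
    have h4 := mul_le_mul_of_nonneg_right h2 (show 0 ≤ 2 * E₀ by positivity)
    linarith
  linarith

open scoped Classical in
/-- **Equidistribution** of almost invariant sets in the residue classes modulo a divisor of the product of the `b j`. -/
theorem equi (h : G.Irr ρ) (hd : G.mm ρ < G.hh ρ) (B R n : ℕ) : ∃ L₀ C : ℝ, 1 ≤ L₀ ∧ 0 < C ∧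
    ∀ S : ι → Set ℤ, G.QI R S → ∀ σ : ℤ, (σ = 1 ∨ σ = -1) → ∀ X : ℝ, 0 < X → L₀ ≤ Real.log X → ∀ q : ℕ, 0 < q →
      q ∣ G.PB ^ n → ∀ (i : ι) (c : ℤ), |cn (S i) σ X q c - cn (S i) σ X 1 0 / q| ≤ C * X / (q * Real.log X ^ B) := by
  have hmm := G.mm_nonneg h
  have hLg := G.Lg_nonneg
  obtain ⟨A, E, hA1, hE2, hcr⟩ := G.crude
  obtain ⟨δ, η, hδ0, hδ1, hη0, htv⟩ := G.tv_groups h hd B
  obtain ⟨r0, hr0, hr1, hr⟩ := G.exists_r0 h
  set lam : ℝ := Real.log (2 * E ^ 2) with hlam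
  have hlam0 : 0 < lam := Real.log_pos (by nlinarith)
  set κ : ℝ := 1 / (4 * (lam + G.Lg + G.mm ρ + 1)) with hκ
  have hκ0 : 0 < κ := by positivity
  have hκ4 : κ * (lam + G.Lg + G.mm ρ + 1) = 1 / 4 := by rw [hκ]; field_simp
  set η₁ : ℝ := min η (r0 / 8) with hη₁
  have hη₁0 : 0 < η₁ := lt_min hη0 (by positivity)
  obtain ⟨Ct, K0, hCt, hK0, htvC⟩ := htv (δ / 2) η₁ (by positivity) (min_le_left _ _)
  obtain ⟨CT, cT, hCT, hcT, htyp⟩ := G.typical h hη₁0
  obtain ⟨K1, hK1, hexp1⟩ := s3_exp (cT / √(2 / κ)) (by positivity) B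
  obtain ⟨K3, hK3, hexp3⟩ := s3_exp 1 one_pos B
  set C₁ : ℝ := 2 * (2 * A + 2 + (2 * R + 1)) with hC₁
  have hC₁0 : 0 < C₁ := by positivity
  set C : ℝ := 4 * (CT * K1) + C₁ * K3 + 4 * (Ct * (2 / κ) ^ B) with hC
  have hC0 : 0 < C := by positivity
  refine ⟨8 / κ + 2 * K0 / κ + 2 / (κ * δ * r0) * n + 64, C, ?_, hC0, ?_⟩
  · have p1 : 0 < 8 / κ := by positivity
    have p2 : 0 < 2 * K0 / κ := by positivity
    have p3 : 0 ≤ 2 / (κ * δ * r0) * n := by positivity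
    linarith
  intro S hS σ hσ X hX hLX
  set t : ℝ := Real.log X with ht
  have p1 : 0 < 8 / κ := by positivity
  have p2 : 0 < 2 * K0 / κ := by positivity
  have p3 : 0 ≤ 2 / (κ * δ * r0) * n := by positivity
  have ht64 : 64 ≤ t := by linarith
  have ht0 : 0 < t := by linarith
  have hXexp : X = Real.exp t := (Real.exp_log hX).symm
  have hκt : 8 ≤ κ * t := by
    have : 8 / κ ≤ t := by linarith
    rw [div_le_iff₀ hκ0] at this
    linarith
  set k : ℕ := ⌊κ * t⌋₊ with hk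
  have hkle : (k : ℝ) ≤ κ * t := Nat.floor_le (by positivity)
  have hkge : κ * t < (k : ℝ) + 1 := Nat.lt_floor_add_one _
  have hk78 : 7 / 8 * (κ * t) ≤ k := by linarith
  have hk2 : κ * t / 2 ≤ k := by linarith
  have hk1 : (1 : ℝ) ≤ k := by linarith
  have hk0 : (0 : ℝ) < k := by linarith
  have hkK0 : K0 ≤ k := by
    have h1 : 2 * K0 / κ ≤ t := by linarith
    rw [div_le_iff₀ hκ0] at h1
    linarith
  set x : ℝ := δ * (κ * t) / 2 with hx
  have hx0 : 0 < x := by positivity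
  set Q : ℕ := G.md (fl ρ x) with hQd
  have hQ0 : 0 < Q := G.md_pos _
  have hQR : (0 : ℝ) < Q := by exact_mod_cast hQ0
  have hQN : ∀ v, IsCoprime (G.Nv v : ℤ) (Q : ℤ) := by
    intro v
    have := G.cop_of_dvd (D := Q) (R := 1) (dvd_rfl) (one_dvd _) v
    rwa [mul_one] at this
  have hκt4 : κ * t * (lam + G.Lg + G.mm ρ + 1) = t / 4 := by
    calc κ * t * (lam + G.Lg + G.mm ρ + 1) = (κ * (lam + G.Lg + G.mm ρ + 1)) * t := by ring
      _ = t / 4 := by rw [hκ4]; ring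
  have hκt0 : 0 < κ * t := by positivity
  have hκe : κ * t * lam + κ * t * G.Lg + κ * t * G.mm ρ + κ * t = t / 4 := by rw [← hκt4]; ring
  have hn1 : 0 ≤ κ * t * lam := mul_nonneg hκt0.le hlam0.le
  have hn2 : 0 ≤ κ * t * G.Lg := mul_nonneg hκt0.le hLg
  have hn3 : 0 ≤ κ * t * G.mm ρ := mul_nonneg hκt0.le hmm
  have hb1 : κ * t * lam ≤ t / 4 := by linarith
  have hb2 : κ * t * G.Lg ≤ t / 4 := by linarith
  have hb3 : κ * t * G.mm ρ ≤ t / 4 := by linarith
  have hQle : (Q : ℝ) ≤ Real.exp (t / 4) := by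
    rw [← Real.log_le_iff_le_exp hQR]
    refine (G.log_md_fl_le h hx0.le).trans ?_
    have hxle : x ≤ κ * t := by
      have h1 : δ * (κ * t) ≤ 1 * (κ * t) := mul_le_mul_of_nonneg_right hδ1 hκt0.le
      rw [hx]
      linarith
    exact (mul_le_mul_of_nonneg_left hxle hmm).trans (by rw [mul_comm]; exact hb3)
  have hNle : ∀ v ∈ Vs ι k, (G.Nv v : ℝ) ≤ Real.exp (t / 4) := by
    intro v hv
    rw [← Real.log_le_iff_le_exp (G.Nv_posR v)]
    refine (G.log_Nv_le hv).trans ?_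
    exact (mul_le_mul_of_nonneg_right hkle hLg).trans hb2
  have hkN : ∀ v ∈ Vs ι k, (G.Nv v : ℝ) * Q ≤ X := by
    intro v hv
    rw [hXexp, show t = t / 4 + t / 4 + t / 2 by ring, Real.exp_add, Real.exp_add]
    have h1 := mul_le_mul (hNle v hv) hQle hQR.le (Real.exp_pos _).le
    have h2 : 1 ≤ Real.exp (t / 2) := Real.one_le_exp (by positivity)
    have h3 : 0 ≤ Real.exp (t / 4) * Real.exp (t / 4) := by positivity
    exact h1.trans (le_mul_of_one_le_right h3 h2)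
  set T : (ι → ℕ) → Prop := fun v => ∀ l, |(v l : ℝ) - ρ l * k| ≤ η₁ * k with hTd
  have hT : ∀ v, T v → Q ∣ (G.Mv v).natAbs := by
    intro v hv
    refine G.md_dvd fun l => ?_
    have h1 := (abs_le.1 (hv l)).1
    have h2 : (fl ρ x l : ℝ) ≤ ρ l * x := Nat.floor_le (mul_nonneg (h.pos l).le hx0.le)
    have h3 : x ≤ 4 / 7 * k := by
      have h1 : δ * (κ * t) ≤ 1 * (κ * t) := mul_le_mul_of_nonneg_right hδ1 hκt0.le
      rw [hx]
      linarith
    have h4 : η₁ ≤ r0 / 8 := min_le_right _ _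
    have h5 : η₁ * k ≤ ρ l / 8 * k := mul_le_mul_of_nonneg_right (h4.trans (by linarith [hr l])) hk0.le
    have h6 : ρ l * x ≤ ρ l * (4 / 7 * k) := mul_le_mul_of_nonneg_left h3 (h.pos l).le
    have h7 : 0 < ρ l * k := mul_pos (h.pos l) hk0
    have h9 : ρ l / 8 * k = ρ l * k / 8 := by ring
    have h10 : ρ l * (4 / 7 * k) = ρ l * k * (4 / 7) := by ring
    have h8 : (fl ρ x l : ℝ) ≤ (v l : ℝ) := by
      rw [h9] at h5
      rw [h10] at h6
      linarith
    exact_mod_cast h8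
  -- crude errors
  set E₀ : ℝ := 2 * (A * k * E ^ k) + 2 + k * (2 * R + 1) with hE₀
  have hE₀w : ∀ i, ∀ w ∈ G.Pth k i, 2 * |(G.Ww i w : ℝ)| + 2 + k * (2 * R + 1) ≤ E₀ := by
    intro i w hw
    have h1 := ((hcr k i).2 w hw).2
    rw [hE₀]
    linarith
  have hEk1 : 1 ≤ E ^ k := one_le_pow₀ (by linarith)
  have hk2k : (k : ℝ) ≤ 2 ^ k := by exact_mod_cast Nat.lt_two_pow_self.le
  have h2k1 : (1 : ℝ) ≤ 2 ^ k := one_le_pow₀ (by norm_num)
  have hcrude : ∀ i, 2 * (G.Pth k i).card * E₀ ≤ C₁ * Real.exp (t / 4) := by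
    intro i
    have h1 := (hcr k i).1
    have h2 : E₀ ≤ (2 * A + 2 + (2 * R + 1)) * (2 ^ k * E ^ k) := by
      have e1 : A * k * E ^ k ≤ A * (2 ^ k * E ^ k) := by
        have : (k : ℝ) * E ^ k ≤ 2 ^ k * E ^ k := mul_le_mul_of_nonneg_right hk2k (by positivity)
        calc A * k * E ^ k = A * (k * E ^ k) := by ring
          _ ≤ _ := mul_le_mul_of_nonneg_left this (by linarith)
      have e2 : (1 : ℝ) ≤ 2 ^ k * E ^ k := one_le_mul_of_one_le_of_one_le h2k1 hEk1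
      have e3 : (k : ℝ) ≤ 2 ^ k * E ^ k := hk2k.trans (le_mul_of_one_le_right (by positivity) hEk1)
      have e4 : (k : ℝ) * (2 * R + 1) ≤ 2 ^ k * E ^ k * (2 * R + 1) := mul_le_mul_of_nonneg_right e3 (by positivity)
      have e5 : (2 * A + 2 + (2 * R + 1)) * (2 ^ k * E ^ k) = 2 * (A * (2 ^ k * E ^ k)) + 2 * (2 ^ k * E ^ k) +
          2 ^ k * E ^ k * (2 * R + 1) := by ring
      rw [hE₀, e5]
      linarith
    have h3 : 2 * ((G.Pth k i).card : ℝ) * E₀ ≤ 2 * E ^ k * ((2 * A + 2 + (2 * R + 1)) * (2 ^ k * E ^ k)) := by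
      have hE00 : 0 ≤ E₀ := by rw [hE₀]; positivity
      exact mul_le_mul (by linarith) h2 hE00 (by positivity)
    refine h3.trans ?_
    have h4 : 2 * E ^ k * ((2 * A + 2 + (2 * R + 1)) * (2 ^ k * E ^ k)) = C₁ * (2 * E ^ 2) ^ k := by
      rw [hC₁, mul_pow, ← pow_mul, mul_comm 2 k, pow_mul]
      ring
    rw [h4]
    apply mul_le_mul_of_nonneg_left _ hC₁0.le
    have h5 : (2 * E ^ 2) ^ k = Real.exp (k * lam) := by
      rw [hlam, ← Real.rpow_natCast, Real.rpow_def_of_pos (by positivity), mul_comm]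
    rw [h5]
    apply Real.exp_le_exp.2
    exact (mul_le_mul_of_nonneg_right hkle hlam0.le).trans hb1
  -- small terms
  have hst : √t ≤ t / 8 := by
    rw [Real.sqrt_le_iff]
    exact ⟨by positivity, by nlinarith⟩
  have hs3 : Real.exp (-(1 * √t)) ≤ K3 / t ^ B := hexp3 t ht0
  have hs1 : Real.exp (-(cT * k)) ≤ K1 / t ^ B := by
    refine le_trans (Real.exp_le_exp.2 ?_) (hexp1 t ht0)
    have h1 : √(k : ℝ) ≤ k := by
      have h2 : √(k : ℝ) * √(k : ℝ) = k := Real.mul_self_sqrt hk0.le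
      have h3 : 1 ≤ √(k : ℝ) := Real.one_le_sqrt.2 hk1
      nlinarith
    have h2 : √t / √(2 / κ) ≤ √(k : ℝ) := by
      rw [← Real.sqrt_div ht0.le]
      apply Real.sqrt_le_sqrt
      rw [div_div_eq_mul_div]
      linarith
    have h4 : cT / √(2 / κ) * √t = cT * (√t / √(2 / κ)) := by ring
    rw [h4]
    have h5 := mul_le_mul_of_nonneg_left (h2.trans h1) hcT.le
    linarith
  have hs4 : 1 / (k : ℝ) ^ B ≤ (2 / κ) ^ B / t ^ B := by
    rw [div_le_div_iff₀ (by positivity) (by positivity), one_mul, ← mul_pow]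
    apply pow_le_pow_left₀ ht0.le
    rw [div_mul_eq_mul_div, le_div_iff₀ hκ0]
    linarith
  -- fine classes
  have hfine : ∀ (i : ι) (c₁ c₂ : ℤ), |cn (S i) σ X Q c₁ - cn (S i) σ X Q c₂| ≤ C * X / (Q * t ^ B) := by
    intro i c₁ c₂
    have h1 := G.compare hS hσ hX hQ0 hQN hkN c₁ c₂ i T hT (hE₀w i)
    have h2 : G.Ex k i (fun w => if T (G.ct i w) then 0 else 1) ≤ CT * (K1 / t ^ B) :=
      (htyp k i).trans (mul_le_mul_of_nonneg_left hs1 hCT.le)
    have h3 : ∑ j, ∑ v ∈ (Vs ι k).filter T, tv (G.gr k i j v) (G.Ww i) Q ((G.Mv v).natAbs * Q) / G.Nv v ≤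
        Ct * ((2 / κ) ^ B / t ^ B) := by
      have hx1 : δ / 2 * k ≤ x := by
        have := mul_le_mul_of_nonneg_left hkle (show 0 ≤ δ / 2 by positivity)
        rw [hx]
        linarith
      have hx2 : x ≤ δ * k := by
        have := mul_le_mul_of_nonneg_left hk2 hδ0.le
        rw [hx]
        linarith
      have h4 := htvC k x x hkK0 hx1 le_rfl hx2 i
      refine h4.trans ?_
      calc Ct / (k : ℝ) ^ B = Ct * (1 / (k : ℝ) ^ B) := by ring
        _ ≤ _ := mul_le_mul_of_nonneg_left hs4 hCt.le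
    have h5 : C₁ * Real.exp (t / 4) ≤ C₁ * (K3 / t ^ B) * (X / Q) := by
      rw [mul_assoc C₁ (K3 / t ^ B) (X / Q)]
      apply mul_le_mul_of_nonneg_left _ hC₁0.le
      have h6 : Real.exp (t / 4) ≤ Real.exp (-(1 * √t)) * (X / Q) := by
        have h7 : Real.exp (3 * t / 4) ≤ X / Q := by
          rw [le_div_iff₀ hQR, hXexp, show t = 3 * t / 4 + t / 4 by ring, Real.exp_add]
          have e : 3 * (3 * t / 4 + t / 4) / 4 = 3 * t / 4 := by ring
          rw [e]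
          exact mul_le_mul_of_nonneg_left hQle (Real.exp_pos _).le
        calc Real.exp (t / 4) ≤ Real.exp (-(1 * √t) + 3 * t / 4) := Real.exp_le_exp.2 (by linarith)
          _ = Real.exp (-(1 * √t)) * Real.exp (3 * t / 4) := Real.exp_add _ _
          _ ≤ _ := mul_le_mul_of_nonneg_left h7 (Real.exp_pos _).le
      exact h6.trans (mul_le_mul_of_nonneg_right hs3 (by positivity))
    have hXQ : 0 ≤ 4 * X / Q := by positivity
    have h6 := mul_le_mul_of_nonneg_left h2 hXQ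
    have h7 := mul_le_mul_of_nonneg_left h3 hXQ
    have h8 := hcrude i
    have e : C * X / (Q * t ^ B) = 4 * X / Q * (CT * (K1 / t ^ B)) + C₁ * (K3 / t ^ B) * (X / Q) +
        4 * X / Q * (Ct * ((2 / κ) ^ B / t ^ B)) := by
      rw [hC]
      field_simp
    rw [e]
    exact h1.trans (add_le_add (add_le_add h6 (h8.trans h5)) h7)
  intro q hq hqPB i c
  have hqR : (0 : ℝ) < q := by exact_mod_cast hq
  have hqQ : q ∣ Q := by
    refine hqPB.trans ?_
    rw [← G.md_const n]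
    refine G.md_dvd fun l => ?_
    have h2 : (n : ℝ) ≤ ρ l * x := by
      have h3 : 2 / (κ * δ * r0) * n ≤ t := by linarith
      rw [div_mul_eq_mul_div, div_le_iff₀ (by positivity)] at h3
      have h4 : r0 * x ≤ ρ l * x := mul_le_mul_of_nonneg_right (hr l) hx0.le
      have h5 : r0 * x = t * (κ * δ * r0) / 2 := by rw [hx]; ring
      linarith
    exact Nat.le_floor h2
  obtain ⟨q', hq'⟩ := hqQ
  have hq'0 : 0 < q' := by
    rcases Nat.eq_zero_or_pos q' with h0 | h0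
    · rw [h0, mul_zero] at hq'; omega
    · exact h0
  have hq'R : (0 : ℝ) < q' := by exact_mod_cast hq'0
  have hQq : (Q : ℝ) = q * q' := by rw [hq']; push_cast; ring
  have hcoarse : ∀ c₁ c₂ : ℤ, |cn (S i) σ X q c₁ - cn (S i) σ X q c₂| ≤ C * X / (q * t ^ B) := by
    intro c₁ c₂
    rw [cn_split (S i) hσ X hq hq'0 c₁, cn_split (S i) hσ X hq hq'0 c₂, ← sum_sub_distrib]
    refine (abs_sum_le_sum_abs _ _).trans ?_
    have h1 : ∀ e ∈ range q', |cn (S i) σ X (q * q') (c₁ + q * e) - cn (S i) σ X (q * q') (c₂ + q * e)| ≤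
        C * X / (Q * t ^ B) := by
      intro e _
      rw [← hq']
      exact hfine i _ _
    refine (sum_le_sum h1).trans ?_
    rw [sum_const, card_range, nsmul_eq_mul, hQq]
    apply le_of_eq
    field_simp
  have hsum : cn (S i) σ X 1 0 = ∑ e ∈ range q, cn (S i) σ X q e := by
    rw [cn_split (S i) hσ X one_pos hq 0]
    refine sum_congr rfl fun e _ => ?_
    rw [one_mul]
    congr 1
    push_cast
    ring
  have e1 : cn (S i) σ X q c - cn (S i) σ X 1 0 / q = (∑ e ∈ range q, (cn (S i) σ X q c - cn (S i) σ X q e)) / q := by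
    rw [hsum, sum_sub_distrib, sum_const, card_range, nsmul_eq_mul]
    field_simp
  rw [e1, abs_div, abs_of_pos hqR, div_le_iff₀ hqR]
  refine (abs_sum_le_sum_abs _ _).trans ((sum_le_sum fun (e : ℕ) _ => hcoarse c (e : ℤ)).trans ?_)
  rw [sum_const, card_range, nsmul_eq_mul, mul_comm]

end GS

end Pool.Agent.Zk39.GD
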