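import Mathlib
import Pool.Agent.Zk39.LD.Equi2

/-!
# The harmonic relation
-/

set_option autoImplicit false
set_option linter.unusedSectionVars false

namespace Pool.Agent.Zk39.GD

open Finset Pool.Agent.H319R3.GC

/-- the density of `S` up to `e ^ t` on the side `σ` -/
noncomputable def fd (S : Set ℤ) (σ : ℤ) (t : ℝ) : ℝ := cn S σ (Real.exp t) 1 0 / Real.exp t

theorem fd_nonneg (S : Set ℤ) (σ : ℤ) (t : ℝ) : 0 ≤ fd S σ t := div_nonneg (cn_nonneg _ _ _ _ _) (Real.exp_pos _).le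

theorem fd_le_one (S : Set ℤ) {σ : ℤ} (hσ : σ = 1 ∨ σ = -1) (t : ℝ) : fd S σ t ≤ 1 := by
  unfold fd
  rw [div_le_one (Real.exp_pos _)]
  exact cn_le' S hσ (Real.exp_pos _).le 1 0

theorem cn_mono (S : Set ℤ) {σ : ℤ} (hσ : σ = 1 ∨ σ = -1) (Q : ℕ) (c : ℤ) : Monotone fun X => cn S σ X Q c := by
  intro X Y hXY
  show cn S σ X Q c ≤ cn S σ Y Q c
  have hsub : {x : ℤ | x ∈ S ∧ 0 < σ * x ∧ ((σ * x : ℤ) : ℝ) ≤ X ∧ (Q : ℤ) ∣ x - c} ⊆
      {x : ℤ | x ∈ S ∧ 0 < σ * x ∧ ((σ * x : ℤ) : ℝ) ≤ Y ∧ (Q : ℤ) ∣ x - c} :=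
    fun x hx => ⟨hx.1, hx.2.1, hx.2.2.1.trans hXY, hx.2.2.2⟩
  unfold cn
  exact_mod_cast Set.ncard_le_ncard hsub (cn_set_fin S hσ Y Q c)

theorem fd_meas (S : Set ℤ) {σ : ℤ} (hσ : σ = 1 ∨ σ = -1) : Measurable (fd S σ) := by
  unfold fd
  have h1 : Monotone fun t : ℝ => cn S σ (Real.exp t) 1 0 := (cn_mono S hσ 1 0).comp Real.exp_monotone
  exact h1.measurable.div Real.measurable_exp

/-- few elements in a window -/
theorem cn_sub_le (S : Set ℤ) {σ : ℤ} (hσ : σ = 1 ∨ σ = -1) {X Y : ℝ} (hXY : X ≤ Y) :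
    cn S σ Y 1 0 - cn S σ X 1 0 ≤ Y - X + 1 := by
  obtain ⟨h1, h2⟩ := cw_fin hσ hXY (Q := 1) one_pos 0
  have e1 : ((1 : ℕ) : ℝ) = 1 := Nat.cast_one
  simp only [e1, div_one] at h2
  have hsub : {x : ℤ | x ∈ S ∧ 0 < σ * x ∧ ((σ * x : ℤ) : ℝ) ≤ Y ∧ ((1 : ℕ) : ℤ) ∣ x - 0} ⊆
      {x : ℤ | x ∈ S ∧ 0 < σ * x ∧ ((σ * x : ℤ) : ℝ) ≤ X ∧ ((1 : ℕ) : ℤ) ∣ x - 0} ∪
      {x : ℤ | X ≤ ((σ * x : ℤ) : ℝ) ∧ ((σ * x : ℤ) : ℝ) ≤ Y ∧ ((1 : ℕ) : ℤ) ∣ x - 0} := by
    rintro x ⟨h3, h4, h5, h6⟩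
    rcases le_total ((σ * x : ℤ) : ℝ) X with h7 | h7
    · exact Or.inl ⟨h3, h4, h7, h6⟩
    · exact Or.inr ⟨h7, h5, h6⟩
  have h3 := (Set.ncard_le_ncard hsub ((cn_set_fin S hσ X 1 0).union h1)).trans (Set.ncard_union_le _ _)
  have h4 : cn S σ Y 1 0 ≤ cn S σ X 1 0 +
      ({x : ℤ | X ≤ ((σ * x : ℤ) : ℝ) ∧ ((σ * x : ℤ) : ℝ) ≤ Y ∧ ((1 : ℕ) : ℤ) ∣ x - 0}.ncard : ℝ) := by
    unfold cn
    exact_mod_cast h3
  linarith

/-- slow variation -/
theorem fd_lip (S : Set ℤ) {σ : ℤ} (hσ : σ = 1 ∨ σ = -1) {t h : ℝ} (hh : 0 ≤ h) :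
    |fd S σ (t + h) - fd S σ t| ≤ 2 * h + Real.exp (-t) := by
  have hf0 := fd_nonneg S σ t
  have hf1 := fd_le_one S hσ t
  have hg0 := fd_nonneg S σ (t + h)
  have hg1 := fd_le_one S hσ (t + h)
  have het := Real.exp_pos (-t)
  rcases le_total 1 h with h1 | h1
  · rw [abs_le]
    constructor <;> linarith
  have hE := Real.exp_pos t
  have hH : 1 ≤ Real.exp h := Real.one_le_exp hh
  have hmono : cn S σ (Real.exp t) 1 0 ≤ cn S σ (Real.exp (t + h)) 1 0 :=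
    cn_mono S hσ 1 0 (Real.exp_le_exp.2 (by linarith))
  have hdiff := cn_sub_le S hσ (Real.exp_le_exp.2 (show t ≤ t + h by linarith))
  have hexp : Real.exp (t + h) = Real.exp t * Real.exp h := Real.exp_add _ _
  have hh2 : Real.exp h - 1 ≤ 2 * h := by
    have h2 := Real.abs_exp_sub_one_sub_id_le (x := h) (by rw [abs_of_nonneg hh]; exact h1)
    have h3 := (abs_le.1 h2).2
    have h4 : h ^ 2 ≤ h := by
      rw [sq]
      exact mul_le_of_le_one_left hh h1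
    linarith
  have hinv : Real.exp (-t) = 1 / Real.exp t := by rw [Real.exp_neg, one_div]
  rw [abs_le]
  constructor
  · -- lower bound
    have h4 : fd S σ t / Real.exp h ≤ fd S σ (t + h) := by
      unfold fd
      rw [hexp, div_div]
      exact div_le_div_of_nonneg_right (by rw [← hexp]; exact hmono) (by positivity)
    have h5 : 1 - h ≤ 1 / Real.exp h := by
      rw [one_div, ← Real.exp_neg]
      have := Real.add_one_le_exp (-h)
      linarith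
    have h6 : fd S σ t / Real.exp h = fd S σ t * (1 / Real.exp h) := by ring
    have h7 : fd S σ t * (1 - h) ≤ fd S σ t * (1 / Real.exp h) := mul_le_mul_of_nonneg_left h5 hf0
    have h8 : fd S σ t * h ≤ 1 * h := mul_le_mul_of_nonneg_right hf1 hh
    have h9 : fd S σ t * (1 - h) = fd S σ t - fd S σ t * h := by ring
    rw [h6] at h4
    rw [h9] at h7
    linarith
  · have h4 : fd S σ (t + h) ≤ cn S σ (Real.exp (t + h)) 1 0 / Real.exp t := by
      unfold fd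
      exact div_le_div_of_nonneg_left (cn_nonneg _ _ _ _ _) hE (Real.exp_le_exp.2 (by linarith))
    have h5 : cn S σ (Real.exp (t + h)) 1 0 / Real.exp t - fd S σ t ≤ (Real.exp h - 1) + 1 / Real.exp t := by
      unfold fd
      rw [← sub_div, div_le_iff₀ hE, add_mul, one_div_mul_cancel hE.ne']
      rw [hexp] at hdiff ⊢
      linarith
    rw [hinv]
    linarith

theorem hx1 {C X β n t : ℝ} (hβ : 0 < β) (hn : 0 < n) (ht : 0 < t) :
    C * (X * β / n) / (β * (t / 2) ^ 3) = 8 * C * X / (n * t ^ 3) := by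
  field_simp
  norm_num

theorem hx2 {C X n t : ℝ} (hn : 0 < n) : n * (8 * C * X / (n * t ^ 3)) = 8 * C * X / t ^ 3 := by
  field_simp

theorem hx3 {c X β n : ℝ} (hX : 0 < X) (hβ : 0 < β) (hn : 0 < n) : c / (X * β / n) / n = c / β / X := by
  field_simp

namespace GS

variable {ι : Type} [Fintype ι] [DecidableEq ι] (G : GS ι) {ρ : ι → ℝ}

/-- the step on the logarithmic scale -/
noncomputable def xi (i : ι) : ℝ := Real.log |(G.b i : ℝ)| - Real.log (G.n i)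

theorem exp_xi (i : ι) : Real.exp (G.xi i) = |(G.b i : ℝ)| / G.n i := by
  unfold xi
  have h1 : (0 : ℝ) < |(G.b i : ℝ)| := by linarith [G.b_abs_ge i]
  rw [Real.exp_sub, Real.exp_log h1, Real.exp_log (G.n_posR i)]

theorem b_dvd_PB (i : ι) : (G.b i).natAbs ∣ G.PB := dvd_prod_of_mem _ (mem_univ i)

/-- one letter -/
theorem Zset_one (S : ι → Set ℤ) {σ : ℤ} (X : ℝ) (i : ι) (a : ℕ) : ∃ e : ℤ,
    ((G.Zset S σ X 1 0 i [a]).ncard : ℝ) =
      cn (S (G.nx i a)) (σ * (G.b i).sign) (X * |(G.b i : ℝ)| / G.n i) (G.b i).natAbs e := by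
  obtain ⟨u, v, huv⟩ := G.cop i i
  have hen : G.en i [a] = G.nx i a := rfl
  have hct : G.ct i [a] = Pi.single i 1 := add_zero _
  have hW : G.Ww i [a] = G.c i a := by
    show G.c i a * G.Mv 0 + G.n i * 0 = G.c i a
    rw [Mv_zero, mul_one, mul_zero, add_zero]
  refine ⟨-(v * G.c i a), ?_⟩
  unfold Zset cn
  rw [hen, hct, hW, Mv_single, Nv_single]
  congr 2
  ext z
  simp only [Set.mem_ofPred_eq]
  have hiff : (((G.b i).natAbs * 1 : ℕ) : ℤ) ∣ G.c i a - (G.b i * 0 - G.n i * z) ↔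
      ((G.b i).natAbs : ℤ) ∣ z - -(v * G.c i a) := by
    rw [mul_one, Int.natAbs_dvd, Int.natAbs_dvd]
    constructor
    · rintro ⟨q, hq⟩
      refine ⟨v * q + u * z, ?_⟩
      linear_combination v * hq - z * huv
    · rintro ⟨q, hq⟩
      refine ⟨G.n i * q + u * G.c i a, ?_⟩
      linear_combination (G.n i : ℤ) * hq - G.c i a * huv
  rw [hiff]

/-- **The harmonic relation.** -/
theorem harm (h : G.Irr ρ) (hd : G.mm ρ < G.hh ρ) (R : ℕ) : ∃ K t₀ : ℝ, 0 ≤ K ∧ 1 ≤ t₀ ∧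
    ∀ S : ι → Set ℤ, G.QI R S → ∀ σ : ℤ, (σ = 1 ∨ σ = -1) → ∀ (i : ι) (t : ℝ), t₀ ≤ t →
      |fd (S i) σ t - (∑ a ∈ range (G.n i), fd (S (G.nx i a)) (σ * (G.b i).sign) (t + G.xi i)) / G.n i| ≤ K / t ^ 3 := by
  obtain ⟨L₀, C, hL₀, hC, heq⟩ := G.equi h hd 3 R 1
  set Ξ : ℝ := ∑ i, |G.xi i| with hΞ
  have hΞ0 : 0 ≤ Ξ := sum_nonneg fun i _ => abs_nonneg _
  have hξ : ∀ i, |G.xi i| ≤ Ξ := fun i => single_le_sum (f := fun i => |G.xi i|) (fun i _ => abs_nonneg _) (mem_univ i)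
  obtain ⟨D, hD⟩ : ∃ D : ℝ, D = ∑ i, ∑ a ∈ range (G.n i), (2 * |(G.c i a : ℝ)| + 2 + (2 * (R : ℝ) + 1)) := ⟨_, rfl⟩
  have hterm : ∀ (i : ι) (a : ℕ), 0 ≤ 2 * |(G.c i a : ℝ)| + 2 + (2 * (R : ℝ) + 1) := fun i a => by positivity
  have hD0 : 0 ≤ D := by
    rw [hD]
    exact sum_nonneg fun i _ => sum_nonneg fun a _ => hterm i a
  refine ⟨6 * D + 8 * C, 2 * (L₀ + Ξ) + 1, by positivity, by linarith, fun S hS σ hσ i t ht => ?_⟩
  have ht0 : 0 < t := by linarith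
  have hn := G.n_posR i
  have hb1 := G.b_abs_ge i
  set β : ℝ := |(G.b i : ℝ)| with hβ
  have hb0 : (0 : ℝ) < β := by linarith
  have hbn : 0 < (G.b i).natAbs := Int.natAbs_pos.2 (G.b_ne i)
  have hbc : (((G.b i).natAbs : ℕ) : ℝ) = β := by rw [Nat.cast_natAbs, Int.cast_abs]
  set X : ℝ := Real.exp t with hX
  have hX0 : 0 < X := Real.exp_pos t
  set X' : ℝ := X * β / G.n i with hX'
  have hX'0 : 0 < X' := by positivity
  have hX'e : X' = Real.exp (t + G.xi i) := by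
    rw [Real.exp_add, exp_xi, hX', hX, ← hβ]
    ring
  have hlog : Real.log X' = t + G.xi i := by rw [hX'e, Real.log_exp]
  have hξi := abs_le.1 (hξ i)
  have hlog1 : t / 2 ≤ Real.log X' := by rw [hlog]; linarith [hξi.1]
  have hlog2 : L₀ ≤ Real.log X' := by rw [hlog]; linarith [hξi.1]
  set s : ℤ := σ * (G.b i).sign with hs
  have hs1 : s = 1 ∨ s = -1 := by
    rw [hs]
    rcases lt_or_gt_of_ne (G.b_ne i) with h1 | h1
    · rw [Int.sign_eq_neg_one_of_neg h1]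
      rcases hσ with rfl | rfl <;> norm_num
    · rw [Int.sign_eq_one_of_pos h1]
      rcases hσ with rfl | rfl <;> norm_num
  -- one letter
  have hone : ∀ a ∈ range (G.n i), |((G.Aset S σ X 1 0 1 i [a]).ncard : ℝ) - cn (S (G.nx i a)) s X' 1 0 / β| ≤
      (2 * |(G.c i a : ℝ)| + 2 + (2 * R + 1)) + 8 * C * X / (G.n i * t ^ 3) := by
    intro a ha
    have hmem : [a] ∈ G.Pth 1 i := by
      rw [mem_Pth]
      exact ⟨rfl, mem_range.1 ha, trivial⟩
    have h1 := G.word_count hS hσ X 0 hmem (Q := 1)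
    have hW : G.Ww i [a] = G.c i a := by
      show G.c i a * G.Mv 0 + G.n i * 0 = G.c i a
      rw [Mv_zero, mul_one, mul_zero, add_zero]
    rw [hW, Nat.cast_one, one_mul] at h1
    obtain ⟨e, he⟩ := G.Zset_one S (σ := σ) X i a
    rw [he] at h1
    have h2 := heq S hS s hs1 X' hX'0 hlog2 (G.b i).natAbs hbn (by rw [pow_one]; exact G.b_dvd_PB i) (G.nx i a) e
    rw [hbc] at h2
    have h3 : C * X' / (β * Real.log X' ^ 3) ≤ 8 * C * X / (G.n i * t ^ 3) := by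
      have h4 : (t / 2) ^ 3 ≤ Real.log X' ^ 3 := pow_le_pow_left₀ (by positivity) hlog1 3
      have h5 : C * X' / (β * Real.log X' ^ 3) ≤ C * X' / (β * (t / 2) ^ 3) :=
        div_le_div_of_nonneg_left (by positivity) (by positivity) (mul_le_mul_of_nonneg_left h4 hb0.le)
      refine h5.trans (le_of_eq ?_)
      rw [hX']
      exact hx1 hb0 hn ht0
    have h4 := abs_sub_le ((G.Aset S σ X 1 0 1 i [a]).ncard : ℝ) (cn (S (G.nx i a)) s X' (G.b i).natAbs e)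
      (cn (S (G.nx i a)) s X' 1 0 / β)
    refine h4.trans (add_le_add h1 (h2.trans h3))
  have hdec : cn (S i) σ X 1 0 = ∑ a ∈ range (G.n i), ((G.Aset S σ X 1 0 1 i [a]).ncard : ℝ) := by
    rw [G.cn_paths S hσ X 1 0 1 i]
    rw [show (1 : ℕ) = 0 + 1 from rfl, G.sum_Pth_succ]
    refine sum_congr rfl fun a _ => ?_
    rw [Pth_zero, sum_singleton]
  have hmain : |cn (S i) σ X 1 0 - ∑ a ∈ range (G.n i), cn (S (G.nx i a)) s X' 1 0 / β| ≤
      D + 8 * C * X / t ^ 3 := by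
    rw [hdec, ← sum_sub_distrib]
    refine (abs_sum_le_sum_abs _ _).trans ((sum_le_sum hone).trans ?_)
    rw [sum_add_distrib, sum_const, card_range, nsmul_eq_mul]
    apply add_le_add
    · rw [hD]
      exact single_le_sum (f := fun i => ∑ a ∈ range (G.n i), (2 * |(G.c i a : ℝ)| + 2 + (2 * (R : ℝ) + 1)))
        (fun i _ => sum_nonneg fun a _ => hterm i a) (mem_univ i)
    · exact le_of_eq (hx2 hn)
  have hfin : fd (S i) σ t - (∑ a ∈ range (G.n i), fd (S (G.nx i a)) s (t + G.xi i)) / G.n i =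
      (cn (S i) σ X 1 0 - ∑ a ∈ range (G.n i), cn (S (G.nx i a)) s X' 1 0 / β) / X := by
    rw [sub_div]
    congr 1
    rw [sum_div, sum_div]
    refine sum_congr rfl fun a _ => ?_
    unfold fd
    rw [← hX'e, hX']
    exact hx3 hX0 hb0 hn
  rw [hfin, abs_div, abs_of_pos hX0, div_le_iff₀ hX0]
  refine hmain.trans ?_
  have h6 : t ^ 3 ≤ 6 * X := by
    have h7 := Real.pow_div_factorial_le_exp (x := t) ht0.le 3
    have h8 : ((Nat.factorial 3 : ℕ) : ℝ) = 6 := by norm_num [Nat.factorial]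
    rw [h8, div_le_iff₀ (by norm_num)] at h7
    linarith
  have h9 : D ≤ 6 * D / t ^ 3 * X := by
    rw [div_mul_eq_mul_div, le_div_iff₀ (by positivity)]
    have := mul_le_mul_of_nonneg_left h6 hD0
    linarith
  have e : (6 * D + 8 * C) / t ^ 3 * X = 6 * D / t ^ 3 * X + 8 * C * X / t ^ 3 := by ring
  rw [e]
  linarith

end GS

end Pool.Agent.Zk39.GD
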