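import Mathlib
import Pool.Agent.Zk39.LD.Harm

/-!
# Logarithmic sums and densities
-/

set_option autoImplicit false
set_option linter.unusedSectionVars false

namespace Pool.Agent.Zk39.GD

open Finset Filter Topology MeasureTheory

open Classical in
/-- the `n ≤ N` with `σ n ∈ E` -/
noncomputable def sd (E : Set ℤ) (σ : ℤ) (N : ℕ) : Finset ℕ := (Icc 1 N).filter fun n : ℕ => σ * (n : ℤ) ∈ E

open Classical in
theorem mem_sd {E : Set ℤ} {σ : ℤ} {N n : ℕ} : n ∈ sd E σ N ↔ (1 ≤ n ∧ n ≤ N) ∧ σ * (n : ℤ) ∈ E := by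
  unfold sd
  rw [mem_filter, mem_Icc]

theorem cn_eq_sd (E : Set ℤ) {σ : ℤ} (hσ : σ = 1 ∨ σ = -1) {u : ℝ} (hu : 0 ≤ u) :
    cn E σ u 1 0 = (sd E σ ⌊u⌋₊).card := by
  have hσσ : σ * σ = 1 := by rcases hσ with rfl | rfl <;> norm_num
  have h1 : {x : ℤ | x ∈ E ∧ 0 < σ * x ∧ ((σ * x : ℤ) : ℝ) ≤ u ∧ ((1 : ℕ) : ℤ) ∣ x - 0} =
      (((sd E σ ⌊u⌋₊).image fun n : ℕ => σ * (n : ℤ) : Finset ℤ) : Set ℤ) := by
    ext x
    rw [mem_coe, mem_image]
    simp only [Set.mem_ofPred_eq]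
    constructor
    · rintro ⟨h1, h2, h3, -⟩
      obtain ⟨n, hn⟩ := Int.eq_ofNat_of_zero_le h2.le
      have hx : x = σ * n := by
        rw [← hn, ← mul_assoc, hσσ, one_mul]
      refine ⟨n, mem_sd.2 ⟨⟨?_, Nat.le_floor ?_⟩, ?_⟩, hx.symm⟩
      · rw [hn] at h2
        exact_mod_cast h2
      · rw [hn] at h3
        exact_mod_cast h3
      · rw [← hx]; exact h1
    · rintro ⟨n, hn, rfl⟩
      obtain ⟨⟨h1, h2⟩, h3⟩ := mem_sd.1 hn
      have h4 : σ * (σ * n) = n := by rw [← mul_assoc, hσσ, one_mul]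
      refine ⟨h3, ?_, ?_, by simp⟩
      · rw [h4]; exact_mod_cast h1
      · rw [h4]
        exact_mod_cast (Nat.cast_le.2 h2).trans (Nat.floor_le hu)
  have hinj : Function.Injective fun n : ℕ => σ * (n : ℤ) := by
    intro n m hnm
    have h2 : σ * (σ * n) = σ * (σ * m) := congrArg (fun z => σ * z) hnm
    rw [← mul_assoc, ← mul_assoc, hσσ, one_mul, one_mul] at h2
    exact_mod_cast h2
  unfold cn
  rw [h1, Set.ncard_coe_finset, card_image_of_injective _ hinj]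

/-- the sum of `1 / n` over the `n ≤ X` with `σ n ∈ E` -/
noncomputable def ls (E : Set ℤ) (σ : ℤ) (X : ℝ) : ℝ := ∑ n ∈ sd E σ ⌊X⌋₊, 1 / (n : ℝ)

theorem int_one {n : ℕ} (hn : 1 ≤ n) {L : ℝ} (hnL : (n : ℝ) ≤ Real.exp L) :
    IntervalIntegrable (fun s : ℝ => if (n : ℝ) ≤ Real.exp s then Real.exp (-s) else 0) volume 0 L ∧
    ∫ s in (0 : ℝ)..L, (if (n : ℝ) ≤ Real.exp s then Real.exp (-s) else 0) = 1 / n - Real.exp (-L) := by
  have hn0 : (0 : ℝ) < n := by exact_mod_cast hn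
  have hn1 : (1 : ℝ) ≤ n := by exact_mod_cast hn
  set l : ℝ := Real.log n with hl
  have hl0 : 0 ≤ l := Real.log_nonneg hn1
  have hlL : l ≤ L := by rw [hl, Real.log_le_iff_le_exp hn0]; exact hnL
  have hiff : ∀ s : ℝ, (n : ℝ) ≤ Real.exp s ↔ l ≤ s := fun s => (Real.log_le_iff_le_exp hn0).symm
  have h1 : ∀ᵐ s, s ∈ Set.uIoc (0 : ℝ) l → (if (n : ℝ) ≤ Real.exp s then Real.exp (-s) else 0) = (0 : ℝ) := by
    have h2 : ∀ᵐ s : ℝ, s ≠ l := by
      rw [ae_iff]
      simp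
    filter_upwards [h2] with s hs hmem
    rw [Set.uIoc_of_le hl0] at hmem
    rw [if_neg]
    rw [hiff]
    exact not_le.2 (lt_of_le_of_ne hmem.2 hs)
  have h2 : ∀ s ∈ Set.uIcc l L, (if (n : ℝ) ≤ Real.exp s then Real.exp (-s) else 0) = Real.exp (-s) := by
    intro s hs
    rw [Set.uIcc_of_le hlL] at hs
    rw [if_pos]
    rw [hiff]
    exact hs.1
  have i1 : IntervalIntegrable (fun s : ℝ => if (n : ℝ) ≤ Real.exp s then Real.exp (-s) else 0) volume 0 l := by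
    refine (intervalIntegrable_const (c := (0 : ℝ))).congr_ae ?_
    rw [Filter.EventuallyEq, ae_restrict_iff' measurableSet_uIoc]
    filter_upwards [h1] with s hs hmem
    exact (hs hmem).symm
  have i2 : IntervalIntegrable (fun s : ℝ => if (n : ℝ) ≤ Real.exp s then Real.exp (-s) else 0) volume l L := by
    have hc : Continuous fun s : ℝ => Real.exp (-s) := Real.continuous_exp.comp continuous_neg
    refine (hc.intervalIntegrable l L).congr ?_
    intro s hs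
    exact (h2 s (Set.uIoc_subset_uIcc hs)).symm
  refine ⟨i1.trans i2, ?_⟩
  rw [← intervalIntegral.integral_add_adjacent_intervals i1 i2, intervalIntegral.integral_congr_ae h1,
    intervalIntegral.integral_congr h2]
  rw [intervalIntegral.integral_const, smul_zero, zero_add, intervalIntegral.integral_comp_neg (fun s => Real.exp s),
    integral_exp, Real.exp_neg l, hl, Real.exp_log hn0, one_div]

/-- the logarithmic sum in terms of the density function -/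
theorem ls_eq (E : Set ℤ) {σ : ℤ} (hσ : σ = 1 ∨ σ = -1) {L : ℝ} (hL : 0 ≤ L) :
    ls E σ (Real.exp L) = (∫ s in (0 : ℝ)..L, fd E σ s) + fd E σ L := by
  classical
  set F := sd E σ ⌊Real.exp L⌋₊ with hF
  have hFmem : ∀ n ∈ F, 1 ≤ n ∧ (n : ℝ) ≤ Real.exp L := by
    intro n hn
    obtain ⟨⟨h1, h2⟩, -⟩ := mem_sd.1 hn
    exact ⟨h1, (Nat.cast_le.2 h2).trans (Nat.floor_le (Real.exp_pos _).le)⟩
  have hfd : ∀ s ∈ Set.uIcc (0 : ℝ) L, fd E σ s = ∑ n ∈ F, if (n : ℝ) ≤ Real.exp s then Real.exp (-s) else 0 := by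
    intro s hs
    rw [Set.uIcc_of_le hL] at hs
    unfold fd
    rw [cn_eq_sd E hσ (Real.exp_pos _).le, ← sum_filter, sum_const, nsmul_eq_mul, Real.exp_neg, div_eq_mul_inv]
    congr 3
    ext n
    rw [mem_filter, hF, mem_sd, mem_sd]
    constructor
    · rintro ⟨⟨h1, h2⟩, h3⟩
      exact ⟨⟨⟨h1, h2.trans (Nat.floor_le_floor (Real.exp_le_exp.2 hs.2))⟩, h3⟩,
        (Nat.cast_le.2 h2).trans (Nat.floor_le (Real.exp_pos _).le)⟩
    · rintro ⟨⟨⟨h1, -⟩, h3⟩, h4⟩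
      exact ⟨⟨h1, Nat.le_floor h4⟩, h3⟩
  rw [intervalIntegral.integral_congr hfd, intervalIntegral.integral_finsetSum]
  · rw [sum_congr rfl fun n hn => (int_one (hFmem n hn).1 (hFmem n hn).2).2, sum_sub_distrib, sum_const, nsmul_eq_mul]
    unfold ls fd
    rw [cn_eq_sd E hσ (Real.exp_pos _).le, Real.exp_neg, div_eq_mul_inv, ← hF]
    ring
  · intro n hn
    exact (int_one (hFmem n hn).1 (hFmem n hn).2).1

end Pool.Agent.Zk39.GD
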