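import Mathlib

/-!
# Nearly harmonic functions of a finite Markov chain with a drift: averages

Finitely many states with transition probabilities `P` and stationary distribution `ρ`, and functions `φ_i` of the real line
with values in `[0, 1]` such that `φ_i(t) = ∑_j P_ij φ_j(t + ξ_i) + O(t ^ (-3))`. If the mean of the steps `ξ_i` is negative then
the integrals of the `φ_i` up to `L` are `α L + O(1)` with the same `α` for all `i`.
-/

set_option autoImplicit false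
set_option linter.unusedSectionVars false

namespace Pool.Agent.Zk39.LD

open Finset MeasureTheory intervalIntegral Filter Topology

/-- irreducible stochastic matrix with a positive stationary distribution -/
structure Ch {κ : Type} [Fintype κ] (P : κ → κ → ℝ) (ρ : κ → ℝ) : Prop where
  nonneg : ∀ i j, 0 ≤ P i j
  row : ∀ i, ∑ j, P i j = 1
  irr : ∀ i j, Relation.ReflTransGen (fun a b => 0 < P a b) i j
  pos : ∀ i, 0 < ρ i
  sum_one : ∑ i, ρ i = 1
  stat : ∀ j, ∑ i, ρ i * P i j = ρ j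

variable {κ : Type} [Fintype κ] {P : κ → κ → ℝ} {ρ : κ → ℝ}

theorem Ch.le_one (h : Ch P ρ) (i j : κ) : P i j ≤ 1 := by
  rw [← h.row i]
  exact single_le_sum (f := fun j => P i j) (fun j _ => h.nonneg i j) (mem_univ j)

/-- the maximum principle along one step -/
theorem Ch.one_step (h : Ch P ρ) {u : κ → ℝ} {M ε : ℝ} (hM : ∀ k, u k ≤ M) {i j : κ} (hu : u i ≤ ∑ j, P i j * u j + ε)
    (hij : 0 < P i j) : M - u j ≤ (M - u i + ε) / P i j := by
  rw [le_div_iff₀ hij]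
  have h1 : ∑ k, P i k * (M - u k) = M - ∑ k, P i k * u k := by
    simp only [mul_sub, sum_sub_distrib, ← sum_mul, h.row i, one_mul]
  have h2 : P i j * (M - u j) ≤ ∑ k, P i k * (M - u k) :=
    single_le_sum (f := fun k => P i k * (M - u k)) (fun k _ => mul_nonneg (h.nonneg i k) (by linarith [hM k])) (mem_univ j)
  linarith

theorem Ch.near_const (h : Ch P ρ) : ∃ K : ℝ, 0 ≤ K ∧ ∀ (u : κ → ℝ) (ε : ℝ), 0 ≤ ε →
    (∀ i, u i ≤ ∑ j, P i j * u j + ε) → ∀ i j, |u i - u j| ≤ K * ε := by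
  classical
  have key : ∀ i j, ∃ K : ℝ, 0 ≤ K ∧ ∀ (u : κ → ℝ) (M ε : ℝ), 0 ≤ ε → (∀ k, u k ≤ M) →
      (∀ i, u i ≤ ∑ j, P i j * u j + ε) → M - u j ≤ K * (M - u i + ε) := by
    intro i j
    induction h.irr i j with
    | refl => exact ⟨1, zero_le_one, fun u M ε hε hM hu => by linarith⟩
    | tail _ hs ih =>
      rename_i b c _
      obtain ⟨K, hK, hk⟩ := ih
      refine ⟨(K + 1) / P b c, by positivity, fun u M ε hε hM hu => ?_⟩
      have h1 := hk u M ε hε hM hu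
      have h2 := h.one_step hM (hu b) hs
      have h3 := hM i
      refine h2.trans ?_
      rw [div_mul_eq_mul_div]
      apply div_le_div_of_nonneg_right _ hs.le
      nlinarith
  choose K hK hk using key
  refine ⟨∑ i, ∑ j, K i j, sum_nonneg fun i _ => sum_nonneg fun j _ => hK i j, fun u ε hε hu i j => ?_⟩
  have hKle : ∀ a b, K a b ≤ ∑ i, ∑ j, K i j := fun a b =>
    (single_le_sum (f := fun b => K a b) (fun b _ => hK a b) (mem_univ b)).trans
      (single_le_sum (f := fun a => ∑ b, K a b) (fun a _ => sum_nonneg fun b _ => hK a b) (mem_univ a))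
  have hne : (univ : Finset κ).Nonempty := ⟨i, mem_univ i⟩
  obtain ⟨a, -, ha⟩ := exists_max_image univ u hne
  have h1 := hk a i u (u a) ε hε (fun k => ha k (mem_univ k)) hu
  have h2 := hk a j u (u a) ε hε (fun k => ha k (mem_univ k)) hu
  rw [sub_self, zero_add] at h1 h2
  have h3 := ha i (mem_univ i)
  have h4 := ha j (mem_univ j)
  have h5 := mul_le_mul_of_nonneg_right (hKle a i) hε
  have h6 := mul_le_mul_of_nonneg_right (hKle a j) hε
  rw [abs_le]
  constructor <;> linarith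

/-- the setting -/
structure Nh (P : κ → κ → ℝ) (ρ ξ : κ → ℝ) (φ : κ → ℝ → ℝ) (K t₀ : ℝ) : Prop where
  meas : ∀ i, Measurable (φ i)
  nonneg : ∀ i t, 0 ≤ φ i t
  le_one : ∀ i t, φ i t ≤ 1
  K_nonneg : 0 ≤ K
  one_le : 1 ≤ t₀
  rel : ∀ i t, t₀ ≤ t → |φ i t - ∑ j, P i j * φ j (t + ξ i)| ≤ K / t ^ 3
  drift : ∑ i, ρ i * ξ i < 0

variable {ξ : κ → ℝ} {φ : κ → ℝ → ℝ} {K t₀ : ℝ}

theorem Nh.ii (hn : Nh P ρ ξ φ K t₀) (i : κ) (a b : ℝ) : IntervalIntegrable (φ i) volume a b := by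
  refine (intervalIntegrable_const (c := (1 : ℝ))).mono_fun' (hn.meas i).aestronglyMeasurable ?_
  filter_upwards with t
  rw [Real.norm_eq_abs, abs_of_nonneg (hn.nonneg i t)]
  exact hn.le_one i t

theorem Nh.ii' (hn : Nh P ρ ξ φ K t₀) (i j : κ) (a b : ℝ) :
    IntervalIntegrable (fun t => φ j (t + ξ i)) volume a b := by
  refine (intervalIntegrable_const (c := (1 : ℝ))).mono_fun'
    ((hn.meas j).comp (measurable_id.add_const _)).aestronglyMeasurable ?_
  filter_upwards with t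
  rw [Real.norm_eq_abs, abs_of_nonneg (hn.nonneg j _)]
  exact hn.le_one j _

/-- the integral -/
noncomputable def Ph (φ : κ → ℝ → ℝ) (i : κ) (t : ℝ) : ℝ := ∫ s in (0 : ℝ)..t, φ i s

theorem Nh.Ph_sub (hn : Nh P ρ ξ φ K t₀) (i : κ) (a b : ℝ) : Ph φ i b - Ph φ i a = ∫ s in a..b, φ i s := by
  unfold Ph
  rw [integral_interval_sub_left (hn.ii i 0 b) (hn.ii i 0 a)]

theorem Nh.Ph_lip (hn : Nh P ρ ξ φ K t₀) (i : κ) (a b : ℝ) : |Ph φ i b - Ph φ i a| ≤ |b - a| := by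
  rw [hn.Ph_sub, ← Real.norm_eq_abs]
  refine (intervalIntegral.norm_integral_le_of_norm_le_const (C := 1) fun t _ => ?_).trans (by rw [one_mul])
  rw [Real.norm_eq_abs, abs_of_nonneg (hn.nonneg i t)]
  exact hn.le_one i t

theorem Nh.Ph_shift (hn : Nh P ρ ξ φ K t₀) (i j : κ) (a b : ℝ) :
    ∫ s in a..b, φ j (s + ξ i) = Ph φ j (b + ξ i) - Ph φ j (a + ξ i) := by
  rw [hn.Ph_sub, intervalIntegral.integral_comp_add_right]

/-- the integrated relation -/
theorem Nh.int_rel (hn : Nh P ρ ξ φ K t₀) (i : κ) {a b : ℝ} (ha : t₀ ≤ a) (hab : a ≤ b) :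
    |(Ph φ i b - Ph φ i a) - ∑ j, P i j * (Ph φ j (b + ξ i) - Ph φ j (a + ξ i))| ≤ K / a ^ 2 := by
  have ha0 : 0 < a := by linarith [hn.one_le]
  have h1 : (Ph φ i b - Ph φ i a) - ∑ j, P i j * (Ph φ j (b + ξ i) - Ph φ j (a + ξ i)) =
      ∫ s in a..b, (φ i s - ∑ j, P i j * φ j (s + ξ i)) := by
    rw [intervalIntegral.integral_sub (hn.ii i a b), hn.Ph_sub, intervalIntegral.integral_finsetSum]
    · congr 1
      refine sum_congr rfl fun j _ => ?_
      rw [intervalIntegral.integral_const_mul, hn.Ph_shift]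
    · intro j _
      exact (hn.ii' i j a b).const_mul _
    · have h3 := IntervalIntegrable.sum (univ : Finset κ) (f := fun j s => P i j * φ j (s + ξ i))
        fun j _ => (hn.ii' i j a b).const_mul (P i j)
      have e : (fun s => ∑ j, P i j * φ j (s + ξ i)) = ∑ j, fun s => P i j * φ j (s + ξ i) := by
        funext s
        rw [Finset.sum_apply]
      rw [e]
      exact h3
  rw [h1, ← Real.norm_eq_abs]
  have h2 : ∀ s ∈ Set.Icc a b, s ≠ 0 := fun s hs => by linarith [hs.1] |> fun (h : 0 < s) => h.ne'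
  have hint : IntervalIntegrable (fun s : ℝ => K * s ^ (-3 : ℤ)) volume a b := by
    apply ContinuousOn.intervalIntegrable
    intro s hs
    rw [Set.uIcc_of_le hab] at hs
    exact (continuousAt_const.mul (continuousAt_zpow₀ s _ (Or.inl (by linarith [hs.1] |> fun (h : 0 < s) => h.ne')))).continuousWithinAt
  refine (intervalIntegral.norm_integral_le_of_norm_le hab (g := fun s : ℝ => K * s ^ (-3 : ℤ)) ?_ hint).trans ?_
  · filter_upwards with s hs
    have hs0 : 0 < s := by linarith [hs.1]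
    rw [Real.norm_eq_abs]
    refine (hn.rel i s (by linarith [hs.1])).trans (le_of_eq ?_)
    rw [zpow_neg]
    rfl
  · rw [intervalIntegral.integral_const_mul, integral_zpow (Or.inr ⟨by norm_num, by
      rw [Set.uIcc_of_le hab]
      intro h
      linarith [h.1]⟩)]
    have hb0 : 0 < b := by linarith
    have e1 : a ^ (-3 + 1 : ℤ) = 1 / a ^ 2 := by
      rw [show (-3 + 1 : ℤ) = -2 by norm_num, zpow_neg]
      rw [one_div]
      rfl
    have e2 : b ^ (-3 + 1 : ℤ) = 1 / b ^ 2 := by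
      rw [show (-3 + 1 : ℤ) = -2 by norm_num, zpow_neg]
      rw [one_div]
      rfl
    rw [e1, e2]
    have e3 : (1 / b ^ 2 - 1 / a ^ 2) / (((-3 : ℤ) : ℝ) + 1) = (1 / a ^ 2 - 1 / b ^ 2) / 2 := by
      push_cast
      ring
    rw [e3]
    have h3 : 0 ≤ 1 / b ^ 2 := by positivity
    have h4 : 0 ≤ 1 / a ^ 2 := by positivity
    calc K * ((1 / a ^ 2 - 1 / b ^ 2) / 2) ≤ K * (1 / a ^ 2) :=
          mul_le_mul_of_nonneg_left (by linarith) hn.K_nonneg
      _ = K / a ^ 2 := by ring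

/-- the conserved quantity -/
noncomputable def Jq (P : κ → κ → ℝ) (ρ ξ : κ → ℝ) (φ : κ → ℝ → ℝ) (t : ℝ) : ℝ :=
  ∑ i, ρ i * ∑ j, P i j * (Ph φ j t - Ph φ j (t + ξ i))

theorem Jq_eq (h : Ch P ρ) (t : ℝ) : Jq P ρ ξ φ t = ∑ i, ρ i * (Ph φ i t - ∑ j, P i j * Ph φ j (t + ξ i)) := by
  unfold Jq
  simp only [mul_sub, sum_sub_distrib]
  congr 1
  simp only [mul_sum]
  rw [sum_comm]
  refine sum_congr rfl fun j _ => ?_
  rw [← h.stat j, sum_mul]
  refine sum_congr rfl fun i _ => ?_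
  ring

theorem Jq_cauchy (h : Ch P ρ) (hn : Nh P ρ ξ φ K t₀) {a b : ℝ} (ha : t₀ ≤ a) (hab : a ≤ b) :
    |Jq P ρ ξ φ b - Jq P ρ ξ φ a| ≤ K / a ^ 2 := by
  rw [Jq_eq h, Jq_eq h, ← sum_sub_distrib]
  have h1 : ∀ i, ρ i * (Ph φ i b - ∑ j, P i j * Ph φ j (b + ξ i)) - ρ i * (Ph φ i a - ∑ j, P i j * Ph φ j (a + ξ i)) =
      ρ i * ((Ph φ i b - Ph φ i a) - ∑ j, P i j * (Ph φ j (b + ξ i) - Ph φ j (a + ξ i))) := by
    intro i
    simp only [mul_sub, sum_sub_distrib]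
    ring
  simp only [h1]
  refine (abs_sum_le_sum_abs _ _).trans ?_
  have h2 : ∀ i ∈ (univ : Finset κ), |ρ i * ((Ph φ i b - Ph φ i a) - ∑ j, P i j * (Ph φ j (b + ξ i) - Ph φ j (a + ξ i)))| ≤
      ρ i * (K / a ^ 2) := by
    intro i _
    rw [abs_mul, abs_of_pos (h.pos i)]
    exact mul_le_mul_of_nonneg_left (hn.int_rel i ha hab) (h.pos i).le
  refine (sum_le_sum h2).trans ?_
  rw [← sum_mul, h.sum_one, one_mul]

theorem Jq_limit (h : Ch P ρ) (hn : Nh P ρ ξ φ K t₀) : ∃ I : ℝ, ∀ t, t₀ ≤ t → |Jq P ρ ξ φ t - I| ≤ K / t ^ 2 := by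
  have ht₀ := hn.one_le
  have hK := hn.K_nonneg
  set s : ℝ → ℝ := fun x => Jq P ρ ξ φ (max t₀ x) with hs
  have hc : CauchySeq s := by
    refine cauchySeq_of_le_tendsto_0' (fun x => K / (max t₀ x) ^ 2) (fun n m hnm => ?_) ?_
    · rw [dist_comm, Real.dist_eq]
      exact Jq_cauchy h hn (le_max_left _ _) (max_le_max le_rfl hnm)
    · have h1 : Tendsto (fun x : ℝ => max t₀ x) atTop atTop := tendsto_atTop_mono (fun x => le_max_right _ _) tendsto_id
      have h2 : Tendsto (fun x : ℝ => (max t₀ x) ^ 2) atTop atTop := (tendsto_pow_atTop (by norm_num)).comp h1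
      exact h2.const_div_atTop K
  obtain ⟨I, hI⟩ := cauchySeq_tendsto_of_complete hc
  refine ⟨I, fun t ht => ?_⟩
  have h1 : Tendsto (fun x => |s x - s t|) atTop (𝓝 |I - s t|) := (hI.sub_const _).abs
  have h2 : ∀ᶠ x in atTop, |s x - s t| ≤ K / t ^ 2 := by
    filter_upwards [eventually_ge_atTop t] with x hx
    simp only [hs]
    rw [max_eq_right ht, max_eq_right (ht.trans hx)]
    exact Jq_cauchy h hn ht hx
  have h3 := le_of_tendsto h1 h2
  have h4 : s t = Jq P ρ ξ φ t := by simp only [hs]; rw [max_eq_right ht]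
  rw [h4] at h3
  rwa [abs_sub_comm]

theorem Nh.Ph_cont (hn : Nh P ρ ξ φ K t₀) (i : κ) : Continuous (Ph φ i) := by
  have h1 : LipschitzWith 1 (Ph φ i) := LipschitzWith.of_dist_le_mul fun x y => by
    rw [Real.dist_eq, Real.dist_eq, NNReal.coe_one, one_mul]
    exact hn.Ph_lip i y x
  exact h1.continuous

theorem Nh.Ph_ii (hn : Nh P ρ ξ φ K t₀) (i : κ) (a b : ℝ) : IntervalIntegrable (Ph φ i) volume a b :=
  (hn.Ph_cont i).intervalIntegrable a b

theorem Ph_zero (i : κ) : Ph φ i 0 = 0 := by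
  unfold Ph
  rw [intervalIntegral.integral_same]

theorem Nh.Ph_abs (hn : Nh P ρ ξ φ K t₀) (i : κ) (t : ℝ) : |Ph φ i t| ≤ |t| := by
  have := hn.Ph_lip i 0 t
  rwa [Ph_zero, sub_zero, sub_zero] at this

/-- the double integral -/
theorem Nh.double (hn : Nh P ρ ξ φ K t₀) (j : κ) (a b x : ℝ) :
    |((∫ s in a..b, Ph φ j s) - ∫ s in a..b, Ph φ j (s + x)) - (-x * Ph φ j b)| ≤ 2 * x ^ 2 + |x| * |a| := by
  have h1 : ∫ s in a..b, Ph φ j (s + x) = ∫ s in (a + x)..(b + x), Ph φ j s :=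
    intervalIntegral.integral_comp_add_right _ _
  have h2 : (∫ s in a..b, Ph φ j s) - ∫ s in (a + x)..(b + x), Ph φ j s =
      (∫ s in a..(a + x), Ph φ j s) - ∫ s in b..(b + x), Ph φ j s :=
    intervalIntegral.integral_interval_sub_interval_comm (hn.Ph_ii _ _ _) (hn.Ph_ii _ _ _) (hn.Ph_ii _ _ _)
  have h3 : ∀ c : ℝ, |(∫ s in c..(c + x), Ph φ j s) - x * Ph φ j c| ≤ x ^ 2 := by
    intro c
    have h4 : (∫ s in c..(c + x), Ph φ j s) - x * Ph φ j c = ∫ s in c..(c + x), (Ph φ j s - Ph φ j c) := by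
      rw [intervalIntegral.integral_sub (hn.Ph_ii _ _ _) (intervalIntegrable_const), intervalIntegral.integral_const,
        smul_eq_mul]
      congr 1
      ring
    rw [h4, ← Real.norm_eq_abs]
    refine (intervalIntegral.norm_integral_le_of_norm_le_const (C := |x|) fun t ht => ?_).trans ?_
    · rw [Real.norm_eq_abs]
      refine (hn.Ph_lip j c t).trans ?_
      have h5 : t ∈ Set.uIcc c (c + x) := Set.uIoc_subset_uIcc ht
      have h6 := Set.abs_sub_left_of_mem_uIcc h5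
      simpa using h6
    · have e : c + x - c = x := by ring
      rw [e, ← sq_abs x]
      nlinarith
  rw [h1, h2]
  have h5 := h3 a
  have h6 := h3 b
  have h7 := hn.Ph_abs j a
  have h8 : |x * Ph φ j a| ≤ |x| * |a| := by
    rw [abs_mul]
    exact mul_le_mul_of_nonneg_left h7 (abs_nonneg _)
  have e : ((∫ s in a..(a + x), Ph φ j s) - ∫ s in b..(b + x), Ph φ j s) - (-x * Ph φ j b) =
      ((∫ s in a..(a + x), Ph φ j s) - x * Ph φ j a) - ((∫ s in b..(b + x), Ph φ j s) - x * Ph φ j b) + x * Ph φ j a := by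
    ring
  rw [e]
  refine (abs_add_le _ _).trans ?_
  have h9 := abs_sub ((∫ s in a..(a + x), Ph φ j s) - x * Ph φ j a) ((∫ s in b..(b + x), Ph φ j s) - x * Ph φ j b)
  linarith

theorem Jq_cont (hn : Nh P ρ ξ φ K t₀) : Continuous (Jq P ρ ξ φ) := by
  unfold Jq
  refine continuous_finsetSum _ fun i _ => continuous_const.mul (continuous_finsetSum _ fun j _ => continuous_const.mul ?_)
  exact (hn.Ph_cont j).sub ((hn.Ph_cont j).comp (continuous_id.add continuous_const))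

theorem Jq_int (hn : Nh P ρ ξ φ K t₀) (a b : ℝ) : ∫ t in a..b, Jq P ρ ξ φ t =
    ∑ i, ρ i * ∑ j, P i j * ((∫ s in a..b, Ph φ j s) - ∫ s in a..b, Ph φ j (s + ξ i)) := by
  unfold Jq
  have hi : ∀ i j, IntervalIntegrable (fun t => Ph φ j t - Ph φ j (t + ξ i)) volume a b := fun i j =>
    ((hn.Ph_cont j).sub ((hn.Ph_cont j).comp (continuous_id.add continuous_const))).intervalIntegrable _ _
  have hc : ∀ i, Continuous fun t => ∑ j, P i j * (Ph φ j t - Ph φ j (t + ξ i)) := fun i =>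
    continuous_finsetSum _ fun j _ => continuous_const.mul
      ((hn.Ph_cont j).sub ((hn.Ph_cont j).comp (continuous_id.add continuous_const)))
  rw [intervalIntegral.integral_finsetSum fun i _ => ((hc i).const_mul (ρ i) |>.intervalIntegrable a b)]
  refine sum_congr rfl fun i _ => ?_
  rw [intervalIntegral.integral_const_mul]
  congr 1
  rw [intervalIntegral.integral_finsetSum fun j _ => (hi i j).const_mul _]
  refine sum_congr rfl fun j _ => ?_
  rw [intervalIntegral.integral_const_mul]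
  congr 1
  exact intervalIntegral.integral_sub (hn.Ph_ii _ _ _)
    (((hn.Ph_cont j).comp (continuous_id.add continuous_const)).intervalIntegrable _ _)

theorem averages₀ (h : Ch P ρ) (hn : Nh P ρ ξ φ K t₀) {N : ℝ} (hN : 0 ≤ N) (hnc : ∀ (u : κ → ℝ) (ε : ℝ), 0 ≤ ε →
    (∀ i, u i ≤ ∑ j, P i j * u j + ε) → ∀ i j, |u i - u j| ≤ N * ε) : ∃ α : ℝ,
    (∀ t, t₀ ≤ t → |Jq P ρ ξ φ t - α * (-∑ i, ρ i * ξ i)| ≤ K / t ^ 2) ∧
    ∀ i, ∀ L : ℝ, 0 ≤ L → |Ph φ i L - α * L| ≤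
      (K + (2 * (∑ i, |ξ i|) ^ 2 + (∑ i, |ξ i|) * t₀) + (∑ i, |ξ i|) * (N * (K + 2 * t₀ + 2 * ∑ i, |ξ i|)) +
        t₀ * |α * (-∑ i, ρ i * ξ i)|) / (-∑ i, ρ i * ξ i) + t₀ + |α| * t₀ := by
  classical
  obtain ⟨I, hI⟩ := Jq_limit h hn
  set μ : ℝ := -∑ i, ρ i * ξ i with hμ
  have hμ0 : 0 < μ := by have := hn.drift; linarith
  have ht₀ := hn.one_le
  have hK := hn.K_nonneg
  set Ξ : ℝ := ∑ i, |ξ i| with hΞ
  have hΞ0 : 0 ≤ Ξ := sum_nonneg fun i _ => abs_nonneg _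
  have hξ : ∀ i, |ξ i| ≤ Ξ := fun i => single_le_sum (f := fun i => |ξ i|) (fun i _ => abs_nonneg _) (mem_univ i)
  have hρP : ∑ i, ρ i * ∑ j, P i j = 1 := by
    simp only [h.row, mul_one]
    exact h.sum_one
  set α : ℝ := I / μ with hα
  have hαμ : α * μ = I := by rw [hα]; field_simp
  set ε : ℝ := K + 2 * t₀ + 2 * Ξ with hε
  have hε0 : 0 ≤ ε := by positivity
  set C : ℝ := K + (2 * Ξ ^ 2 + Ξ * t₀) + Ξ * (N * ε) + t₀ * |I| with hC
  have hC0 : 0 ≤ C := by positivity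
  refine ⟨α, fun t ht => by rw [hαμ]; exact hI t ht, fun i₀ L hL => ?_⟩
  rw [hαμ, ← hC]
  have hpos1 : 0 ≤ C / μ := by positivity
  have hpos2 : 0 ≤ |α| * t₀ := by positivity
  rcases lt_or_ge L t₀ with hLt | hLt
  · have h1 := hn.Ph_abs i₀ L
    rw [abs_of_nonneg hL] at h1
    have h2 : |α * L| ≤ |α| * t₀ := by
      rw [abs_mul, abs_of_nonneg hL]
      exact mul_le_mul_of_nonneg_left hLt.le (abs_nonneg _)
    have h3 := abs_sub (Ph φ i₀ L) (α * L)
    linarith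
  -- near constancy
  have hu : ∀ i, Ph φ i L ≤ ∑ j, P i j * Ph φ j L + ε := by
    intro i
    have h1 := (abs_le.1 (hn.int_rel i le_rfl hLt)).2
    have h2 : K / t₀ ^ 2 ≤ K := div_le_self hK (one_le_pow₀ ht₀)
    have h3 : ∑ j, P i j * (Ph φ j (L + ξ i) - Ph φ j (t₀ + ξ i)) ≤ ∑ j, P i j * (Ph φ j L + (2 * Ξ + t₀)) := by
      refine sum_le_sum fun j _ => mul_le_mul_of_nonneg_left ?_ (h.nonneg i j)
      have h4 := (abs_le.1 (hn.Ph_lip j L (L + ξ i))).2
      have h5 := (abs_le.1 (hn.Ph_abs j (t₀ + ξ i))).1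
      have h6 : |L + ξ i - L| = |ξ i| := by congr 1; ring
      have h7 := abs_add_le t₀ (ξ i)
      rw [abs_of_pos (show 0 < t₀ by linarith)] at h7
      have h8 := hξ i
      rw [h6] at h4
      linarith
    have h4 : ∑ j, P i j * (Ph φ j L + (2 * Ξ + t₀)) = ∑ j, P i j * Ph φ j L + (2 * Ξ + t₀) := by
      simp only [mul_add, sum_add_distrib, ← sum_mul, h.row i]
      ring
    have h5 := (abs_le.1 (hn.Ph_abs i t₀)).2
    rw [abs_of_pos (show 0 < t₀ by linarith)] at h5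
    linarith
  have hconst : ∀ j, |Ph φ j L - Ph φ i₀ L| ≤ N * ε := fun j => hnc (fun i => Ph φ i L) ε hε0 hu j i₀
  -- the integral of the conserved quantity
  have hint1 : |(∫ t in t₀..L, Jq P ρ ξ φ t) - (L - t₀) * I| ≤ K := by
    have h1 : (∫ t in t₀..L, Jq P ρ ξ φ t) - (L - t₀) * I = ∫ t in t₀..L, (Jq P ρ ξ φ t - I) := by
      rw [intervalIntegral.integral_sub ((Jq_cont hn).intervalIntegrable _ _) intervalIntegrable_const,
        intervalIntegral.integral_const, smul_eq_mul]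
    rw [h1, ← Real.norm_eq_abs]
    have hcont : IntervalIntegrable (fun s : ℝ => K * s ^ (-2 : ℤ)) volume t₀ L := by
      apply ContinuousOn.intervalIntegrable
      intro s hs
      rw [Set.uIcc_of_le hLt] at hs
      have hs0 : s ≠ 0 := by
        have := hs.1
        intro h0
        linarith
      exact (continuousAt_const.mul (continuousAt_zpow₀ s _ (Or.inl hs0))).continuousWithinAt
    refine (intervalIntegral.norm_integral_le_of_norm_le hLt (g := fun s : ℝ => K * s ^ (-2 : ℤ)) ?_ hcont).trans ?_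
    · filter_upwards with s hs
      rw [Real.norm_eq_abs]
      refine (hI s hs.1.le).trans (le_of_eq ?_)
      rw [zpow_neg]
      rfl
    · rw [intervalIntegral.integral_const_mul, integral_zpow (Or.inr ⟨by norm_num, by
        rw [Set.uIcc_of_le hLt]
        intro h
        linarith [h.1]⟩)]
      have hL0 : 0 < L := by linarith
      have e1 : t₀ ^ (-2 + 1 : ℤ) = 1 / t₀ := by
        rw [show (-2 + 1 : ℤ) = -1 by norm_num, zpow_neg_one, one_div]
      have e2 : L ^ (-2 + 1 : ℤ) = 1 / L := by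
        rw [show (-2 + 1 : ℤ) = -1 by norm_num, zpow_neg_one, one_div]
      rw [e1, e2]
      have e3 : (1 / L - 1 / t₀) / (((-2 : ℤ) : ℝ) + 1) = 1 / t₀ - 1 / L := by
        push_cast
        ring
      rw [e3]
      have h3 : 0 ≤ 1 / L := by positivity
      have h4 : 1 / t₀ ≤ 1 := by rw [div_le_one (by linarith)]; exact ht₀
      calc K * (1 / t₀ - 1 / L) ≤ K * 1 := mul_le_mul_of_nonneg_left (by linarith) hK
        _ = K := mul_one K
  have hint2 : |(∫ t in t₀..L, Jq P ρ ξ φ t) - ∑ i, ρ i * ∑ j, P i j * (-ξ i * Ph φ j L)| ≤ 2 * Ξ ^ 2 + Ξ * t₀ := by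
    rw [Jq_int hn, ← sum_sub_distrib]
    have h1 : ∀ i ∈ (univ : Finset κ), |ρ i * ∑ j, P i j * ((∫ s in t₀..L, Ph φ j s) - ∫ s in t₀..L, Ph φ j (s + ξ i)) -
        ρ i * ∑ j, P i j * (-ξ i * Ph φ j L)| ≤ ρ i * (2 * Ξ ^ 2 + Ξ * t₀) := by
      intro i _
      rw [← mul_sub, abs_mul, abs_of_pos (h.pos i), ← sum_sub_distrib]
      apply mul_le_mul_of_nonneg_left _ (h.pos i).le
      refine (abs_sum_le_sum_abs _ _).trans ?_
      have h2 : ∀ j ∈ (univ : Finset κ), |P i j * ((∫ s in t₀..L, Ph φ j s) - ∫ s in t₀..L, Ph φ j (s + ξ i)) -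
          P i j * (-ξ i * Ph φ j L)| ≤ P i j * (2 * Ξ ^ 2 + Ξ * t₀) := by
        intro j _
        rw [← mul_sub, abs_mul, abs_of_nonneg (h.nonneg i j)]
        apply mul_le_mul_of_nonneg_left _ (h.nonneg i j)
        refine (hn.double j t₀ L (ξ i)).trans ?_
        rw [abs_of_pos (show 0 < t₀ by linarith), ← sq_abs (ξ i)]
        have h3 := hξ i
        have h4 := abs_nonneg (ξ i)
        nlinarith
      refine (sum_le_sum h2).trans ?_
      rw [← sum_mul, h.row i, one_mul]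
    refine (abs_sum_le_sum_abs _ _).trans ((sum_le_sum h1).trans ?_)
    rw [← sum_mul, h.sum_one, one_mul]
  have hint3 : |(∑ i, ρ i * ∑ j, P i j * (-ξ i * Ph φ j L)) - μ * Ph φ i₀ L| ≤ Ξ * (N * ε) := by
    have h0 : μ * Ph φ i₀ L = ∑ i, ρ i * ∑ j, P i j * (-ξ i * Ph φ i₀ L) := by
      rw [hμ, ← sum_neg_distrib, sum_mul]
      refine sum_congr rfl fun i _ => ?_
      rw [← sum_mul, h.row i]
      ring
    rw [h0, ← sum_sub_distrib]
    have h1 : ∀ i ∈ (univ : Finset κ), |ρ i * ∑ j, P i j * (-ξ i * Ph φ j L) - ρ i * ∑ j, P i j * (-ξ i * Ph φ i₀ L)| ≤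
        ρ i * (Ξ * (N * ε)) := by
      intro i _
      rw [← mul_sub, abs_mul, abs_of_pos (h.pos i), ← sum_sub_distrib]
      apply mul_le_mul_of_nonneg_left _ (h.pos i).le
      refine (abs_sum_le_sum_abs _ _).trans ?_
      have h2 : ∀ j ∈ (univ : Finset κ), |P i j * (-ξ i * Ph φ j L) - P i j * (-ξ i * Ph φ i₀ L)| ≤
          P i j * (Ξ * (N * ε)) := by
        intro j _
        rw [← mul_sub, ← mul_sub, abs_mul, abs_mul, abs_of_nonneg (h.nonneg i j), abs_neg]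
        apply mul_le_mul_of_nonneg_left _ (h.nonneg i j)
        exact mul_le_mul (hξ i) (hconst j) (abs_nonneg _) hΞ0
      refine (sum_le_sum h2).trans ?_
      rw [← sum_mul, h.row i, one_mul]
    refine (abs_sum_le_sum_abs _ _).trans ((sum_le_sum h1).trans ?_)
    rw [← sum_mul, h.sum_one, one_mul]
  have hfin : |μ * Ph φ i₀ L - I * L| ≤ C := by
    have e : μ * Ph φ i₀ L - I * L = -((∑ i, ρ i * ∑ j, P i j * (-ξ i * Ph φ j L)) - μ * Ph φ i₀ L) -
        ((∫ t in t₀..L, Jq P ρ ξ φ t) - ∑ i, ρ i * ∑ j, P i j * (-ξ i * Ph φ j L)) +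
        ((∫ t in t₀..L, Jq P ρ ξ φ t) - (L - t₀) * I) - t₀ * I := by ring
    rw [e]
    have h1 := abs_le.1 hint1
    have h2 := abs_le.1 hint2
    have h3 := abs_le.1 hint3
    have h4 : |t₀ * I| = t₀ * |I| := by rw [abs_mul, abs_of_pos (show 0 < t₀ by linarith)]
    have h5 := abs_le.1 h4.le
    rw [abs_le]
    constructor <;> linarith [h1.1, h1.2, h2.1, h2.2, h3.1, h3.2, h5.1, h5.2]
  have hgoal : |Ph φ i₀ L - α * L| ≤ C / μ := by
    rw [le_div_iff₀ hμ0]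
    calc |Ph φ i₀ L - α * L| * μ = |(Ph φ i₀ L - α * L) * μ| := by rw [abs_mul, abs_of_pos hμ0]
      _ = |μ * Ph φ i₀ L - I * L| := by
        congr 1
        rw [← hαμ]
        ring
      _ ≤ C := hfin
  linarith

/-- **Averages**, with uniform constants. -/
theorem averages (h : Ch P ρ) (ξ : κ → ℝ) (K t₀ : ℝ) : ∃ Kα : ℝ, ∀ φ : κ → ℝ → ℝ, Nh P ρ ξ φ K t₀ → ∃ α : ℝ,
    0 ≤ α ∧ α ≤ 1 ∧ (∀ t, t₀ ≤ t → |Jq P ρ ξ φ t - α * (-∑ i, ρ i * ξ i)| ≤ K / t ^ 2) ∧
    ∀ i, ∀ L : ℝ, 0 ≤ L → |Ph φ i L - α * L| ≤ Kα := by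
  classical
  obtain ⟨N, hN, hnc⟩ := h.near_const
  refine ⟨(K + (2 * (∑ i, |ξ i|) ^ 2 + (∑ i, |ξ i|) * t₀) + (∑ i, |ξ i|) * (N * (K + 2 * t₀ + 2 * ∑ i, |ξ i|)) +
        t₀ * (-∑ i, ρ i * ξ i)) / (-∑ i, ρ i * ξ i) + t₀ + t₀, fun φ hn => ?_⟩
  obtain ⟨α, hα1, hα2⟩ := averages₀ h hn hN hnc
  have hμ0 : 0 < -∑ i, ρ i * ξ i := by have := hn.drift; linarith
  have ht₀ := hn.one_le
  have hne : Nonempty κ := by
    by_contra hcon
    rw [not_nonempty_iff] at hcon
    have := h.sum_one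
    rw [univ_eq_empty, sum_empty] at this
    exact zero_ne_one this
  obtain ⟨i₀⟩ := hne
  set Kφ := (K + (2 * (∑ i, |ξ i|) ^ 2 + (∑ i, |ξ i|) * t₀) + (∑ i, |ξ i|) * (N * (K + 2 * t₀ + 2 * ∑ i, |ξ i|)) +
        t₀ * |α * (-∑ i, ρ i * ξ i)|) / (-∑ i, ρ i * ξ i) + t₀ + |α| * t₀ with hKφ
  have hPh : ∀ L : ℝ, 0 ≤ L → 0 ≤ Ph φ i₀ L ∧ Ph φ i₀ L ≤ L := by
    intro L hL
    constructor
    · exact intervalIntegral.integral_nonneg hL fun s _ => hn.nonneg i₀ s
    · have := (abs_le.1 (hn.Ph_abs i₀ L)).2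
      rwa [abs_of_nonneg hL] at this
  have h0 : 0 ≤ α := by
    by_contra hcon
    push Not at hcon
    obtain ⟨n, hn'⟩ := exists_nat_gt (Kφ / (-α))
    have h1 : Kφ < n * (-α) := by rwa [div_lt_iff₀ (by linarith)] at hn'
    have h2 := (abs_le.1 (hα2 i₀ n (Nat.cast_nonneg n))).2
    have h3 := (hPh n (Nat.cast_nonneg n)).1
    linarith
  have h1 : α ≤ 1 := by
    by_contra hcon
    push Not at hcon
    obtain ⟨n, hn'⟩ := exists_nat_gt (Kφ / (α - 1))
    have h1 : Kφ < n * (α - 1) := by rwa [div_lt_iff₀ (by linarith)] at hn'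
    have h2 := (abs_le.1 (hα2 i₀ n (Nat.cast_nonneg n))).1
    have h3 := (hPh n (Nat.cast_nonneg n)).2
    linarith
  refine ⟨α, h0, h1, hα1, fun i L hL => (hα2 i L hL).trans ?_⟩
  have h2 : |α * (-∑ i, ρ i * ξ i)| ≤ -∑ i, ρ i * ξ i := by
    rw [abs_mul, abs_of_nonneg h0, abs_of_pos hμ0]
    exact mul_le_of_le_one_left hμ0.le h1
  have h3 : |α| * t₀ ≤ t₀ := by
    rw [abs_of_nonneg h0]
    exact mul_le_of_le_one_left (by linarith) h1
  have h4 : t₀ * |α * (-∑ i, ρ i * ξ i)| ≤ t₀ * (-∑ i, ρ i * ξ i) := mul_le_mul_of_nonneg_left h2 (by linarith)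
  rw [hKφ]
  apply add_le_add _ h3
  apply add_le_add _ le_rfl
  apply div_le_div_of_nonneg_right _ hμ0.le
  linarith

end Pool.Agent.Zk39.LD
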