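import Mathlib
import Pool.Agent.Zk39.LD.Chain

/-!
# Nearly harmonic functions of a finite Markov chain with a drift: convergence in the nonlattice case
-/

set_option autoImplicit false
set_option linter.unusedSectionVars false

namespace Pool.Agent.Zk39.LD

open Finset MeasureTheory intervalIntegral Filter Topology

variable {κ : Type} [Fintype κ] {P : κ → κ → ℝ} {ρ : κ → ℝ}

/-- walks with given sum of the steps -/
inductive Wk (P : κ → κ → ℝ) (ξ : κ → ℝ) : κ → κ → ℝ → Prop
  | nil (i : κ) : Wk P ξ i i 0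
  | cons {i j k : κ} {s : ℝ} : 0 < P i j → Wk P ξ j k s → Wk P ξ i k (ξ i + s)

variable {ξ : κ → ℝ}

theorem Wk.of_reach {i j : κ} (h : Relation.ReflTransGen (fun a b => 0 < P a b) i j) : ∃ s, Wk P ξ i j s := by
  induction h using Relation.ReflTransGen.head_induction_on with
  | refl => exact ⟨0, Wk.nil _⟩
  | head h1 _ ih =>
    obtain ⟨s, hs⟩ := ih
    exact ⟨_, Wk.cons h1 hs⟩

theorem Wk.trans {i j k : κ} {s s' : ℝ} (h : Wk P ξ i j s) (h' : Wk P ξ j k s') : Wk P ξ i k (s + s') := by
  induction h with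
  | nil => rw [zero_add]; exact h'
  | cons h1 _ ih => rw [add_assoc]; exact Wk.cons h1 (ih h')

/-- bounded harmonic functions on the states times the line -/
structure Hf (P : κ → κ → ℝ) (ξ : κ → ℝ) (f : κ → ℝ → ℝ) : Prop where
  nonneg : ∀ i s, 0 ≤ f i s
  le_one : ∀ i s, f i s ≤ 1
  harm : ∀ i s, f i s = ∑ j, P i j * f j (s + ξ i)

theorem Hf.compl (h : Ch P ρ) {f : κ → ℝ → ℝ} (hf : Hf P ξ f) : Hf P ξ (fun i s => 1 - f i s) where
  nonneg i s := by linarith [hf.le_one i s]
  le_one i s := by linarith [hf.nonneg i s]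
  harm i s := by
    simp only [mul_sub, sum_sub_distrib, mul_one, h.row i]
    rw [← hf.harm i s]

/-- near maximal values propagate along walks -/
theorem propagate (h : Ch P ρ) {i j : κ} {s : ℝ} (hw : Wk P ξ i j s) : ∃ K : ℝ, 0 < K ∧
    ∀ (g : κ → ℝ → ℝ) (M : ℝ), (∀ i t, g i t ≤ M) → (∀ i t, g i t = ∑ j, P i j * g j (t + ξ i)) →
      ∀ t, M - g j (t + s) ≤ K * (M - g i t) := by
  induction hw with
  | nil i => exact ⟨1, one_pos, fun g M hM hg t => by rw [add_zero, one_mul]⟩
  | cons h1 _ ih =>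
    rename_i i j k s _
    obtain ⟨K, hK, hk⟩ := ih
    refine ⟨K / P i j, by positivity, fun g M hM hg t => ?_⟩
    have h2 := hk g M hM hg (t + ξ i)
    have h3 : M - g j (t + ξ i) ≤ (M - g i t) / P i j := by
      rw [le_div_iff₀ h1]
      have h4 : ∑ k, P i k * (M - g k (t + ξ i)) = M - g i t := by
        rw [hg i t]
        simp only [mul_sub, sum_sub_distrib, ← sum_mul, h.row i, one_mul]
      have h5 : P i j * (M - g j (t + ξ i)) ≤ ∑ k, P i k * (M - g k (t + ξ i)) :=
        single_le_sum (f := fun k => P i k * (M - g k (t + ξ i)))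
          (fun k _ => mul_nonneg (h.nonneg i k) (by linarith [hM k (t + ξ i)])) (mem_univ j)
      linarith
    rw [← add_assoc]
    calc M - g k (t + ξ i + s) ≤ K * (M - g j (t + ξ i)) := h2
      _ ≤ K * ((M - g i t) / P i j) := mul_le_mul_of_nonneg_left h3 hK.le
      _ = K / P i j * (M - g i t) := by ring

/-- one half of the periodicity -/
theorem Hf.period_le (h : Ch P ρ) {f : κ → ℝ → ℝ} (hf : Hf P ξ f) {i₀ : κ} {a : ℝ} (ha : Wk P ξ i₀ i₀ a) (i : κ) (s : ℝ) :
    f i (s + a) ≤ f i s := by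
  classical
  set g : κ → ℝ → ℝ := fun i s => f i (s + a) - f i s with hg
  have hgh : ∀ i t, g i t = ∑ j, P i j * g j (t + ξ i) := by
    intro i t
    simp only [hg, mul_sub, sum_sub_distrib]
    rw [← hf.harm i t, hf.harm i (t + a)]
    congr 1
    refine sum_congr rfl fun j _ => ?_
    rw [show t + a + ξ i = t + ξ i + a by ring]
  have hg1 : ∀ i t, g i t ≤ 1 := fun i t => by
    have h1 := hf.le_one i (t + a)
    have h2 := hf.nonneg i t
    simp only [hg]
    linarith
  set M : ℝ := sSup {x | ∃ i t, g i t = x} with hM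
  have hbdd : BddAbove {x | ∃ i t, g i t = x} := ⟨1, by rintro x ⟨i, t, rfl⟩; exact hg1 i t⟩
  have hgM : ∀ i t, g i t ≤ M := fun i t => le_csSup hbdd ⟨i, t, rfl⟩
  by_contra hcon
  have hMpos : 0 < M := by
    have h1 := hgM i s
    simp only [hg] at h1
    linarith
  -- the number of rounds
  obtain ⟨n, hn⟩ := exists_nat_gt (2 / M)
  have hnM : 2 < n * M := by rwa [div_lt_iff₀ hMpos] at hn
  -- constants
  obtain ⟨K, hK, hKp⟩ : ∃ K : ℝ, 0 < K ∧ ∀ (j : κ) (t : ℝ), ∃ u, ∀ l < n, M - g i₀ (t + u + l * a) ≤ K * (M - g j t) := by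
    have h1 : ∀ j : κ, ∃ (u K : ℝ), 0 < K ∧ ∀ l < n, ∀ t, M - g i₀ (t + u + l * a) ≤ K * (M - g j t) := by
      intro j
      obtain ⟨u, hu⟩ := Wk.of_reach (ξ := ξ) (h.irr j i₀)
      have h2 : ∀ l : ℕ, Wk P ξ j i₀ (u + l * a) := by
        intro l
        induction l with
        | zero => simpa using hu
        | succ l ih =>
          have := ih.trans ha
          have e : u + l * a + a = u + ((l + 1 : ℕ) : ℝ) * a := by push_cast; ring
          rwa [e] at this
      choose Kl hKl hKl' using fun l => propagate h (h2 l)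
      refine ⟨u, ∑ l ∈ range (n + 1), Kl l, sum_pos (fun l _ => hKl l) ⟨0, by simp⟩, fun l hl t => ?_⟩
      have h3 := hKl' l g M hgM hgh t
      rw [← add_assoc] at h3
      refine h3.trans (mul_le_mul_of_nonneg_right ?_ (by linarith [hgM j t]))
      exact single_le_sum (f := fun l => Kl l) (fun l _ => (hKl l).le) (mem_range.2 (by omega))
    choose u K hK hKp using h1
    refine ⟨1 + ∑ j, K j, by
      have : 0 ≤ ∑ j, K j := sum_nonneg fun j _ => (hK j).le
      linarith, fun j t => ⟨u j, fun l hl => ?_⟩⟩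
    refine (hKp j l hl t).trans (mul_le_mul_of_nonneg_right ?_ (by linarith [hgM j t]))
    have := single_le_sum (f := fun j => K j) (fun j _ => (hK j).le) (mem_univ j)
    linarith
  obtain ⟨x, ⟨j, t, rfl⟩, hx⟩ := exists_lt_of_lt_csSup (s := {x | ∃ i t, g i t = x}) ⟨g i s, i, s, rfl⟩ (show M - M / (2 * K) < M by
    have : 0 < M / (2 * K) := by positivity
    linarith)
  obtain ⟨u, hu⟩ := hKp j t
  have h1 : ∀ l < n, M / 2 ≤ g i₀ (t + u + l * a) := by
    intro l hl
    have h2 := hu l hl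
    have h3 : K * (M - g j t) ≤ K * (M / (2 * K)) := mul_le_mul_of_nonneg_left (by linarith) hK.le
    have h4 : K * (M / (2 * K)) = M / 2 := by field_simp
    linarith
  have h2 : ∀ l : ℕ, l ≤ n → l * (M / 2) ≤ f i₀ (t + u + l * a) - f i₀ (t + u) := by
    intro l
    induction l with
    | zero => intro _; simp
    | succ l ih =>
      intro hl
      have h3 := ih (by omega)
      have h4 := h1 l (by omega)
      simp only [hg] at h4
      have e : t + u + ((l + 1 : ℕ) : ℝ) * a = t + u + l * a + a := by push_cast; ring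
      rw [e]
      push_cast
      linarith
  have h3 := h2 n le_rfl
  have h4 := hf.le_one i₀ (t + u + n * a)
  have h5 := hf.nonneg i₀ (t + u)
  linarith

theorem Hf.period (h : Ch P ρ) {f : κ → ℝ → ℝ} (hf : Hf P ξ f) {i₀ : κ} {a : ℝ} (ha : Wk P ξ i₀ i₀ a) (i : κ) (s : ℝ) :
    f i (s + a) = f i s := by
  apply le_antisymm (hf.period_le h ha i s)
  have := (hf.compl h).period_le h ha i s
  linarith

/-- the walks do not all have sums in a lattice -/
def Nonlattice (P : κ → κ → ℝ) (ξ : κ → ℝ) : Prop :=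
  ∀ lam : ℝ, ∃ (i : κ) (s : ℝ), Wk P ξ i i s ∧ ∀ n : ℤ, s ≠ n * lam

/-- Choquet–Deny -/
theorem Hf.const (h : Ch P ρ) (hnl : Nonlattice P ξ) {f : κ → ℝ → ℝ} (hf : Hf P ξ f)
    (hlip : ∀ i s u, 0 ≤ u → |f i (s + u) - f i s| ≤ 2 * u) : ∃ c : ℝ, ∀ i s, f i s = c := by
  classical
  obtain ⟨i₁, -, -⟩ := hnl 0
  -- the group of periods
  set H : AddSubgroup ℝ := AddSubgroup.closure {a | ∃ i, Wk P ξ i i a} with hH
  have hper : ∀ a ∈ H, ∀ i s, f i (s + a) = f i s := by
    intro a ha
    induction ha using AddSubgroup.closure_induction with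
    | mem x hx =>
      obtain ⟨j, hj⟩ := hx
      exact fun i s => hf.period h hj i s
    | zero => intro i s; rw [add_zero]
    | add x y _ _ hx hy => intro i s; rw [← add_assoc, hy, hx]
    | neg x _ hx =>
      intro i s
      have := hx i (s + -x)
      rw [neg_add_cancel_right] at this
      exact this.symm
  have hdense : Dense (H : Set ℝ) := by
    rcases AddSubgroup.dense_or_cyclic H with h1 | ⟨a, ha⟩
    · exact h1
    · exfalso
      obtain ⟨i, s, hs, hns⟩ := hnl a
      have h2 : s ∈ H := AddSubgroup.subset_closure ⟨i, hs⟩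
      rw [ha, AddSubgroup.mem_closure_singleton] at h2
      obtain ⟨n, hn⟩ := h2
      apply hns n
      rw [← hn]
      simp
  have hcst : ∀ i s, f i s = f i 0 := by
    intro i s
    apply eq_of_forall_dist_le
    intro ε hε
    obtain ⟨z, hz, hz1, hz2⟩ := hdense.exists_between (show s - ε / 2 < s by linarith)
    have h1 := hper z hz i 0
    rw [zero_add] at h1
    have h2 := hlip i z (s - z) (by linarith)
    rw [show z + (s - z) = s by ring, h1] at h2
    rw [Real.dist_eq]
    linarith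
  obtain ⟨K, hK, hnc⟩ := h.near_const
  refine ⟨f i₁ 0, fun i s => ?_⟩
  rw [hcst i s]
  have h1 : ∀ i, f i 0 ≤ ∑ j, P i j * f j 0 + 0 := by
    intro i
    rw [add_zero, hf.harm i 0]
    exact le_of_eq (sum_congr rfl fun j _ => by rw [hcst j (0 + ξ i)])
  have h2 := hnc (fun i => f i 0) 0 le_rfl h1 i i₁
  rw [mul_zero] at h2
  have h3 := abs_nonpos_iff.1 h2
  linarith

variable {φ : κ → ℝ → ℝ} {K t₀ : ℝ}

/-- **Convergence** in the nonlattice case. -/
theorem converge (h : Ch P ρ) (hn : Nh P ρ ξ φ K t₀) (hnl : Nonlattice P ξ)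
    (hlip : ∀ i t u, 0 ≤ u → |φ i (t + u) - φ i t| ≤ 2 * u + Real.exp (-t)) {α : ℝ}
    (hα : ∀ t, t₀ ≤ t → |Jq P ρ ξ φ t - α * (-∑ i, ρ i * ξ i)| ≤ K / t ^ 2) (i : κ) :
    Tendsto (φ i) atTop (𝓝 α) := by
  classical
  rw [tendsto_iff_ultrafilter]
  intro g hg
  have hgt : Tendsto (fun t : ℝ => t) (g : Filter ℝ) atTop := hg
  have hgs : ∀ s : ℝ, Tendsto (fun t : ℝ => t + s) (g : Filter ℝ) atTop := fun s =>
    tendsto_atTop_add_const_right _ _ hgt
  have hex : ∀ (j : κ) (s : ℝ), ∃ y ∈ Set.Icc (0 : ℝ) 1, Tendsto (fun t => φ j (t + s)) g (𝓝 y) := by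
    intro j s
    have h1 : ((g.map fun t => φ j (t + s) : Ultrafilter ℝ) : Filter ℝ) ≤ 𝓟 (Set.Icc (0 : ℝ) 1) := by
      rw [le_principal_iff]
      exact Filter.mem_map.2 (Filter.univ_mem' fun t => ⟨hn.nonneg j (t + s), hn.le_one j (t + s)⟩)
    obtain ⟨y, hy, hy'⟩ := isCompact_Icc.ultrafilter_le_nhds _ h1
    exact ⟨y, hy, hy'⟩
  choose f hf01 hf using hex
  have hHf : Hf P ξ f := by
    refine ⟨fun j s => (hf01 j s).1, fun j s => (hf01 j s).2, fun j s => ?_⟩
    have h1 : Tendsto (fun t => φ j (t + s) - ∑ k, P j k * φ k (t + (s + ξ j))) g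
        (𝓝 (f j s - ∑ k, P j k * f k (s + ξ j))) :=
      (hf j s).sub (tendsto_finsetSum _ fun k _ => (hf k (s + ξ j)).const_mul _)
    have h2 : Tendsto (fun t => φ j (t + s) - ∑ k, P j k * φ k (t + (s + ξ j))) g (𝓝 0) := by
      rw [tendsto_zero_iff_abs_tendsto_zero]
      have h3 : Tendsto (fun t : ℝ => K / (t + s) ^ 3) g (𝓝 0) :=
        ((tendsto_pow_atTop (by norm_num : (3 : ℕ) ≠ 0)).comp (hgs s)).const_div_atTop K
      refine squeeze_zero' (Eventually.of_forall fun t => abs_nonneg _) ?_ h3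
      filter_upwards [(hgs s).eventually (eventually_ge_atTop t₀)] with t ht
      have := hn.rel j (t + s) ht
      simp only [add_assoc] at this ⊢
      exact this
    have h3 := tendsto_nhds_unique h1 h2
    linarith
  have hflip : ∀ j s u, 0 ≤ u → |f j (s + u) - f j s| ≤ 2 * u := by
    intro j s u hu
    have h1 : Tendsto (fun t => |φ j (t + (s + u)) - φ j (t + s)|) g (𝓝 |f j (s + u) - f j s|) :=
      ((hf j (s + u)).sub (hf j s)).abs
    have h2 : Tendsto (fun t : ℝ => 2 * u + Real.exp (-(t + s))) g (𝓝 (2 * u + 0)) :=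
      tendsto_const_nhds.add (Real.tendsto_exp_neg_atTop_nhds_zero.comp (hgs s))
    rw [add_zero] at h2
    refine le_of_tendsto_of_tendsto' h1 h2 fun t => ?_
    have := hlip j (t + s) u hu
    rwa [add_assoc] at this
  obtain ⟨c, hc⟩ := hHf.const h hnl hflip
  have hlim : ∀ j s, Tendsto (fun t => φ j (t + s)) g (𝓝 c) := fun j s => by rw [← hc j s]; exact hf j s
  -- identification of the constant
  set μ : ℝ := -∑ i, ρ i * ξ i with hμ
  have hμ0 : 0 < μ := by have := hn.drift; linarith
  set Ξ : ℝ := ∑ i, |ξ i| with hΞ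
  have hΞ0 : 0 ≤ Ξ := sum_nonneg fun i _ => abs_nonneg _
  have hξ : ∀ i, |ξ i| ≤ Ξ := fun i => single_le_sum (f := fun i => |ξ i|) (fun i _ => abs_nonneg _) (mem_univ i)
  have hkey : ∀ δ : ℝ, 0 < δ → |c - α| * μ ≤ (4 * Ξ + 1) * δ := by
    intro δ hδ
    obtain ⟨N, hN⟩ := exists_nat_gt (Ξ / δ + 1)
    have hNδ : Ξ + δ < N * δ := by
      have := mul_lt_mul_of_pos_right hN hδ
      rwa [add_mul, div_mul_cancel₀ _ hδ.ne', one_mul] at this
    have e1 : ∀ᶠ t in (g : Filter ℝ), ∀ k ∈ Icc (-(N : ℤ)) N, ∀ j ∈ (univ : Finset κ), |φ j (t + k * δ) - c| < δ := by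
      rw [eventually_all_finset]
      intro k _
      rw [eventually_all_finset]
      intro j _
      have h1 := (hlim j (k * δ)).sub_const c |>.abs
      rw [sub_self, abs_zero] at h1
      exact h1.eventually (gt_mem_nhds hδ)
    have e2 : ∀ᶠ t in (g : Filter ℝ), Real.exp (-(t + -(N * δ))) < δ :=
      (Real.tendsto_exp_neg_atTop_nhds_zero.comp (hgs _)).eventually (gt_mem_nhds hδ)
    have e3 : ∀ᶠ t in (g : Filter ℝ), K / t ^ 2 < δ :=
      (((tendsto_pow_atTop (by norm_num : (2 : ℕ) ≠ 0)).comp hgt).const_div_atTop K).eventually (gt_mem_nhds hδ)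
    have e4 : ∀ᶠ t in (g : Filter ℝ), t₀ ≤ t := hgt.eventually (eventually_ge_atTop t₀)
    obtain ⟨t, ht1, ht2, ht3, ht4⟩ := (e1.and (e2.and (e3.and e4))).exists
    have hclose : ∀ (j : κ) (x : ℝ), |x| ≤ Ξ → |φ j (t + x) - c| ≤ 4 * δ := by
      intro j x hx
      have hx' := abs_le.1 hx
      set k : ℤ := ⌊x / δ⌋ with hk
      have hk1 : k * δ ≤ x := by
        have := Int.floor_le (x / δ)
        rwa [← hk, le_div_iff₀ hδ] at this
      have hk2 : x < k * δ + δ := by
        have := Int.lt_floor_add_one (x / δ)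
        rw [← hk, div_lt_iff₀ hδ] at this
        linarith
      have hkm : k ∈ Icc (-(N : ℤ)) N := by
        rw [mem_Icc]
        constructor
        · have : -(N : ℝ) * δ < k * δ := by linarith
          have h1 := lt_of_mul_lt_mul_right this hδ.le
          have h2 : ((-(N : ℤ) : ℤ) : ℝ) < k := by push_cast; exact h1
          exact_mod_cast h2.le
        · have : (k : ℝ) * δ < N * δ := by linarith
          have h1 := lt_of_mul_lt_mul_right this hδ.le
          exact_mod_cast h1.le
      have h1 := ht1 k hkm j (mem_univ j)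
      have h2 := hlip j (t + k * δ) (x - k * δ) (by linarith)
      rw [show t + k * δ + (x - k * δ) = t + x by ring] at h2
      have h3 : Real.exp (-(t + k * δ)) ≤ Real.exp (-(t + -(N * δ))) := by
        apply Real.exp_le_exp.2
        linarith
      have h4 := abs_sub_le (φ j (t + x)) (φ j (t + k * δ)) c
      linarith
    have hJ : |Jq P ρ ξ φ t - c * μ| ≤ 4 * Ξ * δ := by
      have h0 : c * μ = ∑ i, ρ i * ∑ j, P i j * (-ξ i * c) := by
        rw [hμ, ← sum_neg_distrib, mul_sum]
        refine sum_congr rfl fun i _ => ?_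
        rw [← sum_mul, h.row i]
        ring
      unfold Jq
      rw [h0, ← sum_sub_distrib]
      have h1 : ∀ i ∈ (univ : Finset κ), |ρ i * ∑ j, P i j * (Ph φ j t - Ph φ j (t + ξ i)) -
          ρ i * ∑ j, P i j * (-ξ i * c)| ≤ ρ i * (4 * Ξ * δ) := by
        intro i _
        rw [← mul_sub, abs_mul, abs_of_pos (h.pos i), ← sum_sub_distrib]
        apply mul_le_mul_of_nonneg_left _ (h.pos i).le
        refine (abs_sum_le_sum_abs _ _).trans ?_
        have h2 : ∀ j ∈ (univ : Finset κ), |P i j * (Ph φ j t - Ph φ j (t + ξ i)) - P i j * (-ξ i * c)| ≤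
            P i j * (4 * Ξ * δ) := by
          intro j _
          rw [← mul_sub, abs_mul, abs_of_nonneg (h.nonneg i j)]
          apply mul_le_mul_of_nonneg_left _ (h.nonneg i j)
          have h3 : Ph φ j t - Ph φ j (t + ξ i) - -ξ i * c = ∫ s in (t + ξ i)..t, (φ j s - c) := by
            rw [intervalIntegral.integral_sub (hn.ii j _ _) intervalIntegrable_const, intervalIntegral.integral_const,
              smul_eq_mul, hn.Ph_sub]
            ring
          rw [h3, ← Real.norm_eq_abs]
          refine (intervalIntegral.norm_integral_le_of_norm_le_const (C := 4 * δ) fun s hs => ?_).trans ?_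
          · rw [Real.norm_eq_abs]
            have h4 : s ∈ Set.uIcc t (t + ξ i) := by
              rw [Set.uIcc_comm]
              exact Set.uIoc_subset_uIcc hs
            have h5 := Set.abs_sub_left_of_mem_uIcc h4
            rw [add_sub_cancel_left] at h5
            have h6 := hclose j (s - t) (h5.trans (hξ i))
            rwa [add_sub_cancel] at h6
          · have e : |t - (t + ξ i)| = |ξ i| := by
              rw [show t - (t + ξ i) = -ξ i by ring, abs_neg]
            rw [e]
            have := mul_le_mul_of_nonneg_left (hξ i) (show 0 ≤ 4 * δ by positivity)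
            linarith
        refine (sum_le_sum h2).trans ?_
        rw [← sum_mul, h.row i, one_mul]
      refine (abs_sum_le_sum_abs _ _).trans ((sum_le_sum h1).trans ?_)
      rw [← sum_mul, h.sum_one, one_mul]
    have h1 := hα t ht4
    have h2 : |c - α| * μ = |(Jq P ρ ξ φ t - α * μ) - (Jq P ρ ξ φ t - c * μ)| := by
      rw [show (Jq P ρ ξ φ t - α * μ) - (Jq P ρ ξ φ t - c * μ) = (c - α) * μ by ring, abs_mul, abs_of_pos hμ0]
    rw [h2]
    refine (abs_sub _ _).trans ?_
    linarith
  have hcα : c = α := by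
    by_contra hne
    have hpos : 0 < |c - α| * μ := mul_pos (abs_pos.2 (sub_ne_zero.2 hne)) hμ0
    have h1 := hkey (|c - α| * μ / (2 * (4 * Ξ + 1))) (by positivity)
    have h2 : (4 * Ξ + 1) * (|c - α| * μ / (2 * (4 * Ξ + 1))) = |c - α| * μ / 2 := by
      field_simp
    linarith
  rw [← hcα]
  have h1 := hlim i 0
  simpa using h1

end Pool.Agent.Zk39.LD
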