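import Mathlib
import Pool.Agent.Zk39.LD.Nonlat

/-!
# The double cover of a Markov chain by the signs
-/

set_option autoImplicit false
set_option linter.unusedSectionVars false

namespace Pool.Agent.Zk39.LD

open Finset MeasureTheory intervalIntegral Filter Topology

variable {κ : Type} [Fintype κ] [DecidableEq κ] {P : κ → κ → ℝ} {ρ : κ → ℝ}

/-- walks with parity -/
inductive Pw (P : κ → κ → ℝ) (ν : κ → Bool) : κ → κ → Bool → Prop
  | nil (i : κ) : Pw P ν i i false
  | cons {i j k : κ} {p : Bool} : 0 < P i j → Pw P ν j k p → Pw P ν i k (xor (ν i) p)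

variable {ν : κ → Bool}

theorem Pw.trans {i j k : κ} {p q : Bool} (h : Pw P ν i j p) (h' : Pw P ν j k q) : Pw P ν i k (xor p q) := by
  induction h with
  | nil => simpa using h'
  | cons h1 _ ih => rw [Bool.xor_assoc]; exact Pw.cons h1 (ih h')

theorem Pw.of_reach {i j : κ} (h : Relation.ReflTransGen (fun a b => 0 < P a b) i j) : ∃ p, Pw P ν i j p := by
  induction h using Relation.ReflTransGen.head_induction_on with
  | refl => exact ⟨false, Pw.nil _⟩
  | head h1 _ ih =>
    obtain ⟨p, hp⟩ := ih
    exact ⟨_, Pw.cons h1 hp⟩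

/-- the transition probabilities of the cover -/
noncomputable def cP (P : κ → κ → ℝ) (ν : κ → Bool) (a b : κ × Bool) : ℝ := if b.2 = xor a.2 (ν a.1) then P a.1 b.1 else 0

theorem cP_pos {a : κ × Bool} {j : κ} (h : 0 < P a.1 j) : 0 < cP P ν a (j, xor a.2 (ν a.1)) := by
  unfold cP
  rw [if_pos rfl]
  exact h

theorem Pw.lift {i j : κ} {p : Bool} (h : Pw P ν i j p) (β : Bool) :
    Relation.ReflTransGen (fun a b => 0 < cP P ν a b) (i, β) (j, xor β p) := by
  induction h generalizing β with
  | nil => rw [Bool.xor_false]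
  | cons h1 _ ih =>
    rename_i i j k p _
    have h2 := ih (xor β (ν i))
    rw [Bool.xor_assoc] at h2
    exact Relation.ReflTransGen.head (cP_pos (a := (i, β)) h1) h2

theorem sum_bool (f : Bool → ℝ) (x : Bool) : ∑ γ : Bool, (if γ = x then f γ else 0) = f x := by
  rw [Finset.sum_ite_eq' univ x f, if_pos (mem_univ _)]

theorem sum_cP (a : κ × Bool) (g : κ × Bool → ℝ) : ∑ b, cP P ν a b * g b = ∑ j, P a.1 j * g (j, xor a.2 (ν a.1)) := by
  rw [Fintype.sum_prod_type]
  refine sum_congr rfl fun j _ => ?_
  have h1 : ∀ γ : Bool, cP P ν a (j, γ) * g (j, γ) = if γ = xor a.2 (ν a.1) then P a.1 j * g (j, γ) else 0 := by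
    intro γ
    unfold cP
    split_ifs
    · rfl
    · rw [zero_mul]
  rw [sum_congr rfl fun γ _ => h1 γ]
  exact sum_bool (fun γ => P a.1 j * g (j, γ)) _

/-- the cover is irreducible or splits -/
theorem cover (h : Ch P ρ) (ν : κ → Bool) :
    (∃ ε : κ → Bool, ∀ i j, 0 < P i j → ε j = xor (ε i) (ν i)) ∨ Ch (cP P ν) (fun a => ρ a.1 / 2) := by
  classical
  by_cases hc : ∃ i, Pw P ν i i true
  · right
    obtain ⟨i₁, hi₁⟩ := hc
    have hall : ∀ i j p, Pw P ν i j p := by
      intro i j p
      obtain ⟨p1, h1⟩ := Pw.of_reach (ν := ν) (h.irr i i₁)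
      obtain ⟨p2, h2⟩ := Pw.of_reach (ν := ν) (h.irr i₁ j)
      have h3 := h1.trans h2
      have h4 := h1.trans (hi₁.trans h2)
      rcases Bool.eq_false_or_eq_true (xor p (xor p1 p2)) with h5 | h5
      · have e : p = xor p1 (xor true p2) := by
          revert h5; cases p <;> cases p1 <;> cases p2 <;> decide
        rw [e]; exact h4
      · have e : p = xor p1 p2 := by
          revert h5; cases p <;> cases p1 <;> cases p2 <;> decide
        rw [e]; exact h3
    refine ⟨?_, ?_, ?_, ?_, ?_, ?_⟩
    · intro a b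
      unfold cP
      split_ifs
      · exact h.nonneg _ _
      · exact le_rfl
    · intro a
      have := sum_cP (P := P) (ν := ν) a (fun _ => 1)
      simp only [mul_one] at this
      rw [this, h.row]
    · rintro ⟨i, β⟩ ⟨j, γ⟩
      have h1 := (hall i j (xor β γ)).lift β
      rwa [← Bool.xor_assoc, Bool.xor_self, Bool.false_xor] at h1
    · intro a
      exact half_pos (h.pos _)
    · rw [Fintype.sum_prod_type]
      simp only [sum_const, card_univ, Fintype.card_bool, nsmul_eq_mul]
      rw [← h.sum_one]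
      refine sum_congr rfl fun i _ => ?_
      push_cast
      ring
    · rintro ⟨j, γ⟩
      rw [Fintype.sum_prod_type]
      have h1 : ∀ i, ∑ β : Bool, ρ i / 2 * cP P ν (i, β) (j, γ) = ρ i / 2 * P i j := by
        intro i
        have h2 : ∀ β : Bool, ρ i / 2 * cP P ν (i, β) (j, γ) = if β = xor γ (ν i) then ρ i / 2 * P i j else 0 := by
          intro β
          unfold cP
          have h3 : γ = xor β (ν i) ↔ β = xor γ (ν i) := by
            cases γ <;> cases β <;> cases ν i <;> decide
          simp only [h3]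
          split_ifs
          · rfl
          · rw [mul_zero]
        rw [sum_congr rfl fun β _ => h2 β]
        exact sum_bool (fun _ => ρ i / 2 * P i j) _
      rw [sum_congr rfl fun i _ => h1 i]
      show ∑ i, ρ i / 2 * P i j = ρ j / 2
      rw [← h.stat j, sum_div]
      refine sum_congr rfl fun i _ => ?_
      ring
  · left
    have hne : Nonempty κ := by
      by_contra hcon
      rw [not_nonempty_iff] at hcon
      have := h.sum_one
      rw [univ_eq_empty, sum_empty] at this
      exact zero_ne_one this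
    obtain ⟨i₀⟩ := hne
    choose ε hε using fun i => Pw.of_reach (ν := ν) (h.irr i₀ i)
    refine ⟨ε, fun i j hij => ?_⟩
    obtain ⟨q, hq⟩ := Pw.of_reach (ν := ν) (h.irr j i₀)
    have h1 := ((hε i).trans (Pw.cons hij (Pw.nil j))).trans hq
    have h2 := (hε j).trans hq
    rw [Bool.xor_false] at h1
    have h3 : xor (xor (ε i) (ν i)) q = false := by
      rw [← Bool.not_eq_true]
      intro h4
      rw [h4] at h1
      exact hc ⟨_, h1⟩
    have h4 : xor (ε j) q = false := by
      rw [← Bool.not_eq_true]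
      intro h4
      rw [h4] at h2
      exact hc ⟨_, h2⟩
    revert h3 h4
    cases ε i <;> cases ε j <;> cases ν i <;> cases q <;> decide

/-- walks lift -/
theorem Wk.lift {ξ : κ → ℝ} {i j : κ} {s : ℝ} (h : Wk P ξ i j s) : ∃ p : Bool, ∀ β,
    Wk (cP P ν) (fun a => ξ a.1) (i, β) (j, xor β p) s := by
  induction h with
  | nil i => exact ⟨false, fun β => by rw [Bool.xor_false]; exact Wk.nil _⟩
  | cons h1 _ ih =>
    rename_i i j k s _
    obtain ⟨p, hp⟩ := ih
    refine ⟨xor (ν i) p, fun β => ?_⟩
    have h2 := hp (xor β (ν i))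
    rw [Bool.xor_assoc] at h2
    exact Wk.cons (cP_pos (a := (i, β)) h1) h2

theorem Nonlattice.cover {ξ : κ → ℝ} (h : Nonlattice P ξ) (ν : κ → Bool) : Nonlattice (cP P ν) (fun a => ξ a.1) := by
  intro lam
  obtain ⟨i, s, hs, hn⟩ := h (lam / 2)
  obtain ⟨p, hp⟩ := hs.lift (ν := ν)
  refine ⟨(i, false), s + s, ?_, fun n hcon => hn n (by linarith)⟩
  have h1 := (hp false).trans (hp (xor false p))
  have e : xor (xor false p) p = false := by cases p <;> decide
  rwa [e] at h1

end Pool.Agent.Zk39.LD
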