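import Mathlib
import Pool.Agent.Zk39.LD.Harm
import Pool.Agent.Zk39.LD.Sign

/-!
# Densities of almost invariant sets of graph directed systems
-/

set_option autoImplicit false
set_option linter.unusedSectionVars false

namespace Pool.Agent.Zk39.GD

open Finset Pool.Agent.H319R3.GC Pool.Agent.Zk39.LD Filter Topology MeasureTheory

/-- the sign of a parity -/
def sg (β : Bool) : ℤ := if β then -1 else 1

theorem sg_cases (β : Bool) : sg β = 1 ∨ sg β = -1 := by cases β <;> simp [sg]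

theorem sg_surj {σ : ℤ} (hσ : σ = 1 ∨ σ = -1) : ∃ β, sg β = σ := by
  rcases hσ with rfl | rfl
  · exact ⟨false, rfl⟩
  · exact ⟨true, rfl⟩

theorem sg_sign (β : Bool) {b : ℤ} (hb : b ≠ 0) : sg β * b.sign = sg (xor β (decide (b < 0))) := by
  rcases lt_or_gt_of_ne hb with h | h
  · rw [Int.sign_eq_neg_one_of_neg h]
    cases β <;> simp [sg, h]
  · rw [Int.sign_eq_one_of_pos h]
    have : ¬ b < 0 := not_lt.2 h.le
    cases β <;> simp [sg, this]

namespace GS

variable {ι : Type} [Fintype ι] [DecidableEq ι] (G : GS ι) {ρ : ι → ℝ}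

theorem ch (h : G.Irr ρ) : Ch G.pr ρ := ⟨G.pr_nonneg, G.sum_pr, h.irr, h.pos, h.sum_one, h.stat⟩

/-- the parities -/
def nu (i : ι) : Bool := decide (G.b i < 0)

theorem drift_xi (hd : G.mm ρ < G.hh ρ) : ∑ i, ρ i * G.xi i < 0 := by
  have h1 : ∑ i, ρ i * G.xi i = G.mm ρ - G.hh ρ := by
    unfold mm hh xi
    rw [← sum_sub_distrib]
    exact sum_congr rfl fun i _ => by ring
  linarith

theorem pw_split {P : ι → ι → ℝ} {ν : ι → Bool} {ε : ι → Bool} (hε : ∀ i j, 0 < P i j → ε j = xor (ε i) (ν i))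
    {i j : ι} {p : Bool} (h : Pw P ν i j p) : ε j = xor (ε i) p := by
  induction h with
  | nil => rw [Bool.xor_false]
  | cons h1 _ ih => rw [ih, hε _ _ h1, Bool.xor_assoc]

theorem pw_false {P : ι → ι → ℝ} {ν : ι → Bool} (hν : ∀ i, ν i = false) {i j : ι} {p : Bool} (h : Pw P ν i j p) :
    p = false := by
  induction h with
  | nil => rfl
  | cons h1 _ ih => rw [ih, hν, Bool.xor_false]

/-- **Densities.** -/
theorem sides' (h : G.Irr ρ) (hd : G.mm ρ < G.hh ρ) (R : ℕ) : ∃ Kα : ℝ, ∀ S : ι → Set ℤ, G.QI R S →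
    ∃ α : ℤ → ι → ℝ, (∀ σ : ℤ, (σ = 1 ∨ σ = -1) → ∀ i, 0 ≤ α σ i ∧ α σ i ≤ 1 ∧
      (∀ L : ℝ, 0 ≤ L → |(∫ s in (0 : ℝ)..L, fd (S i) σ s) - α σ i * L| ≤ Kα) ∧
      (Nonlattice G.pr G.xi → Tendsto (fd (S i) σ) atTop (𝓝 (α σ i)))) ∧
      (∀ i j, α 1 i + α (-1) i = α 1 j + α (-1) j) ∧
      ((∃ i, Pw G.pr G.nu i i true) → ∀ σ : ℤ, (σ = 1 ∨ σ = -1) → ∀ τ : ℤ, (τ = 1 ∨ τ = -1) → ∀ i j, α σ i = α τ j) ∧
      ((∀ i, 0 < G.b i) → ∀ σ : ℤ, (σ = 1 ∨ σ = -1) → ∀ i j, α σ i = α σ j) := by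
  have hch := G.ch h
  obtain ⟨K, t₀, hK, ht₀, hharm⟩ := G.harm h hd R
  have hdr := G.drift_xi hd
  -- the relation with parities
  have hrel : ∀ S : ι → Set ℤ, G.QI R S → ∀ (β : Bool) (i : ι) (t : ℝ), t₀ ≤ t →
      |fd (S i) (sg β) t - ∑ j, G.pr i j * fd (S j) (sg (xor β (G.nu i))) (t + G.xi i)| ≤ K / t ^ 3 := by
    intro S hS β i t ht
    have h1 := hharm S hS (sg β) (sg_cases β) i t ht
    rw [sg_sign β (G.b_ne i)] at h1
    rw [G.sum_pr_mul i (fun j => fd (S j) (sg (xor β (G.nu i))) (t + G.xi i))]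
    exact h1
  rcases cover hch G.nu with ⟨ε, hε⟩ | hcov
  · -- the cover splits
    obtain ⟨Kα, hKα⟩ := averages hch G.xi K t₀
    refine ⟨Kα, fun S hS => ?_⟩
    set φ : Bool → ι → ℝ → ℝ := fun τ i t => fd (S i) (sg (xor τ (ε i))) t with hφ
    have hN : ∀ τ, Nh G.pr ρ G.xi (φ τ) K t₀ := by
      intro τ
      refine ⟨fun i => fd_meas _ (sg_cases _), fun i t => fd_nonneg _ _ _, fun i t => fd_le_one _ (sg_cases _) _, hK, ht₀,
        fun i t ht => ?_, hdr⟩
      have h1 := hrel S hS (xor τ (ε i)) i t ht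
      have h2 : ∑ j, G.pr i j * fd (S j) (sg (xor (xor τ (ε i)) (G.nu i))) (t + G.xi i) =
          ∑ j, G.pr i j * φ τ j (t + G.xi i) := by
        refine sum_congr rfl fun j _ => ?_
        rcases (G.pr_nonneg i j).eq_or_lt with h3 | h3
        · rw [← h3, zero_mul, zero_mul]
        · simp only [hφ]
          rw [hε i j h3, Bool.xor_assoc]
      rw [h2] at h1
      exact h1
    choose a ha0 ha1 haJ ha using fun τ => hKα (φ τ) (hN τ)
    set α : ℤ → ι → ℝ := fun σ i => a (xor (decide (σ = -1)) (ε i)) with hα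
    have hsg : ∀ β i, α (sg β) i = a (xor β (ε i)) := by
      intro β i
      simp only [hα]
      cases β <;> simp [sg]
    refine ⟨α, fun σ hσ i => ?_, fun i j => ?_, fun ⟨i, hi⟩ => ?_, fun hb σ hσ i j => ?_⟩
    · obtain ⟨β, rfl⟩ := sg_surj hσ
      rw [hsg]
      have hφβ : φ (xor β (ε i)) i = fd (S i) (sg β) := by
        funext t
        simp only [hφ]
        rw [Bool.xor_assoc, Bool.xor_self, Bool.xor_false]
      refine ⟨ha0 _, ha1 _, fun L hL => ?_, fun hnl => ?_⟩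
      · have := ha (xor β (ε i)) i L hL
        unfold Ph at this
        rwa [hφβ] at this
      · have := converge hch (hN (xor β (ε i))) hnl (fun j t u hu => fd_lip _ (sg_cases _) hu) (haJ _) i
        rwa [hφβ] at this
    · have h1 : ∀ i, α 1 i + α (-1) i = a false + a true := by
        intro i
        have e1 := hsg false i
        have e2 := hsg true i
        simp only [sg] at e1 e2
        have e1' : α 1 i = a (xor false (ε i)) := e1
        have e2' : α (-1) i = a (xor true (ε i)) := e2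
        rw [e1', e2']
        cases ε i
        · rfl
        · exact add_comm _ _
      rw [h1 i, h1 j]
    · exfalso
      have h1 := pw_split hε hi
      revert h1
      cases ε i <;> decide
    · obtain ⟨β, rfl⟩ := sg_surj hσ
      rw [hsg, hsg]
      have hν : ∀ i, G.nu i = false := fun i => by
        unfold nu
        rw [decide_eq_false_iff_not, not_lt]
        exact (hb i).le
      obtain ⟨p, hp⟩ := Pw.of_reach (ν := G.nu) (hch.irr i j)
      have h1 := pw_false hν hp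
      have h2 := pw_split hε hp
      rw [h1, Bool.xor_false] at h2
      rw [h2]
  · -- the cover is irreducible
    obtain ⟨Kα, hKα⟩ := averages hcov (fun b => G.xi b.1) K t₀
    refine ⟨Kα, fun S hS => ?_⟩
    set φ : ι × Bool → ℝ → ℝ := fun b t => fd (S b.1) (sg b.2) t with hφ
    have hN : Nh (cP G.pr G.nu) (fun b => ρ b.1 / 2) (fun b => G.xi b.1) φ K t₀ := by
      refine ⟨fun i => fd_meas _ (sg_cases _), fun i t => fd_nonneg _ _ _, fun i t => fd_le_one _ (sg_cases _) _, hK, ht₀,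
        fun b t ht => ?_, ?_⟩
      · rw [sum_cP b (fun c => φ c (t + G.xi b.1))]
        exact hrel S hS b.2 b.1 t ht
      · rw [Fintype.sum_prod_type]
        simp only [sum_const, card_univ, Fintype.card_bool, nsmul_eq_mul]
        refine lt_of_eq_of_lt (sum_congr rfl fun i _ => ?_) hdr
        push_cast
        ring
    obtain ⟨a, ha0, ha1, haJ, ha⟩ := hKα φ hN
    refine ⟨fun _ _ => a, fun σ hσ i => ?_, fun i j => rfl, fun _ _ _ _ _ _ _ => rfl, fun _ _ _ _ _ => rfl⟩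
    obtain ⟨β, rfl⟩ := sg_surj hσ
    refine ⟨ha0, ha1, fun L hL => ha (i, β) L hL, fun hnl => ?_⟩
    exact converge hcov hN (hnl.cover G.nu) (fun j t u hu => fd_lip _ (sg_cases _) hu) haJ (i, β)

theorem sides (h : G.Irr ρ) (hd : G.mm ρ < G.hh ρ) (R : ℕ) : ∃ Kα : ℝ, ∀ S : ι → Set ℤ, G.QI R S →
    ∃ α : ℤ → ι → ℝ, (∀ σ : ℤ, (σ = 1 ∨ σ = -1) → ∀ i, 0 ≤ α σ i ∧ α σ i ≤ 1 ∧
      (∀ L : ℝ, 0 ≤ L → |(∫ s in (0 : ℝ)..L, fd (S i) σ s) - α σ i * L| ≤ Kα) ∧
      (Nonlattice G.pr G.xi → Tendsto (fd (S i) σ) atTop (𝓝 (α σ i)))) ∧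
      ∀ i j, α 1 i + α (-1) i = α 1 j + α (-1) j := by
  obtain ⟨Kα, hKα⟩ := G.sides' h hd R
  refine ⟨Kα, fun S hS => ?_⟩
  obtain ⟨α, h1, h2, -, -⟩ := hKα S hS
  exact ⟨α, h1, h2⟩

end GS

end Pool.Agent.Zk39.GD
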