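import Mathlib
import Pool.Agent.Zk39.LD.Sides
import Pool.Agent.Zk39.LD.LogSum
import Pool.Agent.Zk39.GD.Final2

/-!
# Densities of almost invariant sets in the classes of Leigh's chain
-/

set_option autoImplicit false
set_option linter.unusedSectionVars false

namespace Pool.Agent.Zk39.GD

open Finset Pool.Agent.H319R2.Leigh Pool.Agent.W44.LM Filter Topology MeasureTheory

variable {d : ℕ} {m r b : ℤ → ℤ} {e : ℤ → ℕ} {C : Finset (ℤ × ℕ)} {ρ : ℤ × ℕ → ℝ}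

/-- the class `B(j, d k)` of a state `(j, k)` -/
def cls (d : ℕ) (B : ℤ × ℕ) : Set ℤ := {x | x ≡ B.1 [ZMOD (d * B.2 : ℕ)]}

/-- invariance outside of `[-R, R]` -/
def InvOut (d : ℕ) (m r : ℤ → ℤ) (C : Finset (ℤ × ℕ)) (R : ℕ) (A : Set ℤ) : Prop :=
  ∀ x ∈ S d C, (R : ℤ) < |x| → (x ∈ A ↔ T d m r x ∈ A)

/-- the set in the coordinates of the states -/
def SA (d : ℕ) (C : Finset (ℤ × ℕ)) (A : Set ℤ) (B : {B // B ∈ C}) : Set ℤ := {y | val d C (B, y) ∈ A}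

theorem val_mem_cls (B : {B // B ∈ C}) (y : ℤ) : val d C (B, y) ∈ cls d B.1 := by
  show val d C (B, y) ≡ B.1.1 [ZMOD (d * B.1.2 : ℕ)]
  rw [Int.modEq_iff_dvd]
  refine ⟨-y, ?_⟩
  unfold val
  push_cast
  ring

theorem val_mem_S (B : {B // B ∈ C}) (y : ℤ) : val d C (B, y) ∈ S d C := ⟨B.1, B.2, val_mem_cls B y⟩

theorem exists_val {B : {B // B ∈ C}} {x : ℤ} (hx : x ∈ cls d B.1) : ∃ y, val d C (B, y) = x := by
  obtain ⟨u, hu⟩ := Int.modEq_iff_dvd.1 (show x ≡ B.1.1 [ZMOD (d * B.1.2 : ℕ)] from hx).symm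
  refine ⟨u, ?_⟩
  unfold val
  push_cast at hu ⊢
  linarith

/-- bounds for a state -/
theorem state_bd (hC : Class d m r e C ρ) (B : {B // B ∈ C}) :
    0 ≤ B.1.1 ∧ B.1.1 < d * B.1.2 ∧ (1 : ℤ) ≤ (d : ℤ) * B.1.2 := by
  obtain ⟨h0, h1, -⟩ := hC.state _ B.2
  exact ⟨h0, h1, by linarith [Int.lt_iff_add_one_le.1 (h0.trans_lt h1)]⟩

theorem QI_SA (D : Data d m r b e) (hC : Class d m r e C ρ) {R : ℕ} {A : Set ℤ} (hA : InvOut d m r C R A) :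
    (LG D hC).QI (R + 1) (SA d C A) := by
  intro B y hy
  obtain ⟨h0, h1, h2⟩ := state_bd hC B
  have hx : (R : ℤ) < |val d C (B, y)| := by
    unfold val
    push_cast at hy
    have h3 : |(d : ℤ) * B.1.2 * y| ≤ |B.1.1 + d * B.1.2 * y| + |B.1.1| := by
      have := abs_sub (B.1.1 + d * B.1.2 * y) B.1.1
      rwa [add_sub_cancel_left] at this
    rw [abs_mul, abs_of_nonneg (show (0 : ℤ) ≤ (d : ℤ) * B.1.2 by linarith), abs_of_nonneg h0] at h3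
    nlinarith
  have h3 := hA _ (val_mem_S B y) hx
  rw [← val_step D hC] at h3
  exact h3

/-- counting in the class and in the coordinates -/
theorem cn_cls (hC : Class d m r e C ρ) (A : Set ℤ) (B : {B // B ∈ C}) {σ : ℤ}
    (hσ : σ = 1 ∨ σ = -1) (X : ℝ) :
    |cn (A ∩ cls d B.1) σ X 1 0 - cn (SA d C A B) σ (X / ((d : ℝ) * B.1.2)) 1 0| ≤ 4 := by
  obtain ⟨h0, h1, h2⟩ := state_bd hC B
  set q : ℝ := (d : ℝ) * B.1.2 with hq
  have hq1 : 1 ≤ q := by rw [hq]; exact_mod_cast h2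
  have hq0 : 0 < q := by linarith
  have hj0 : (0 : ℝ) ≤ (B.1.1 : ℝ) := by exact_mod_cast h0
  have hj1 : (B.1.1 : ℝ) < q := by rw [hq]; exact_mod_cast h1
  have hval : ∀ y : ℤ, ((σ * val d C (B, y) : ℤ) : ℝ) = (σ : ℝ) * B.1.1 + q * ((σ * y : ℤ) : ℝ) := by
    intro y
    unfold val
    rw [hq]
    push_cast
    ring
  have hσj : |(σ : ℝ) * B.1.1| ≤ q := by
    rw [abs_mul, abs_of_nonneg hj0]
    have : |(σ : ℝ)| = 1 := by rcases hσ with rfl | rfl <;> norm_num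
    rw [this, one_mul]
    exact hj1.le
  have hσj' := abs_le.1 hσj
  have hinj : Function.Injective fun y : ℤ => val d C (B, y) := by
    intro y y' h
    unfold val at h
    have h3 : (d : ℤ) * B.1.2 * y = d * B.1.2 * y' := by
      have h3 : B.1.1 + (d : ℤ) * B.1.2 * y = B.1.1 + d * B.1.2 * y' := h
      linarith
    have h4 : (d : ℤ) * B.1.2 ≠ 0 := by
      intro h4
      rw [h4] at h2
      norm_num at h2
    exact mul_left_cancel₀ h4 h3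
  set Y1 : Set ℤ := {y | y ∈ SA d C A B ∧ 0 < σ * val d C (B, y) ∧ ((σ * val d C (B, y) : ℤ) : ℝ) ≤ X} with hY1
  have himg : (fun y : ℤ => val d C (B, y)) '' Y1 =
      {x : ℤ | x ∈ A ∩ cls d B.1 ∧ 0 < σ * x ∧ ((σ * x : ℤ) : ℝ) ≤ X ∧ ((1 : ℕ) : ℤ) ∣ x - 0} := by
    ext x
    constructor
    · rintro ⟨y, ⟨h3, h4, h5⟩, rfl⟩
      exact ⟨⟨h3, val_mem_cls B y⟩, h4, h5, by simp⟩
    · rintro ⟨⟨h3, h4⟩, h5, h6, -⟩
      obtain ⟨y, rfl⟩ := exists_val h4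
      exact ⟨y, ⟨h3, h5, h6⟩, rfl⟩
  have hcn1 : cn (A ∩ cls d B.1) σ X 1 0 = (Y1.ncard : ℝ) := by
    unfold cn
    rw [← himg, Set.ncard_image_of_injective _ hinj]
  set Y2 : Set ℤ := {y | y ∈ SA d C A B ∧ 0 < σ * y ∧ ((σ * y : ℤ) : ℝ) ≤ X / q ∧ ((1 : ℕ) : ℤ) ∣ y - 0} with hY2
  have hcn2 : cn (SA d C A B) σ (X / q) 1 0 = (Y2.ncard : ℝ) := rfl
  set E1 : Set ℤ := {y | (-1 : ℝ) ≤ ((σ * y : ℤ) : ℝ) ∧ ((σ * y : ℤ) : ℝ) ≤ 0 ∧ ((1 : ℕ) : ℤ) ∣ y - 0} with hE1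
  set E2 : Set ℤ := {y | X / q ≤ ((σ * y : ℤ) : ℝ) ∧ ((σ * y : ℤ) : ℝ) ≤ X / q + 1 ∧ ((1 : ℕ) : ℤ) ∣ y - 0} with hE2
  set E3 : Set ℤ := {y | (0 : ℝ) ≤ ((σ * y : ℤ) : ℝ) ∧ ((σ * y : ℤ) : ℝ) ≤ 1 ∧ ((1 : ℕ) : ℤ) ∣ y - 0} with hE3
  set E4 : Set ℤ := {y | X / q - 1 ≤ ((σ * y : ℤ) : ℝ) ∧ ((σ * y : ℤ) : ℝ) ≤ X / q ∧ ((1 : ℕ) : ℤ) ∣ y - 0} with hE4
  obtain ⟨f1, c1⟩ := cw_fin hσ (show (-1 : ℝ) ≤ 0 by norm_num) (Q := 1) one_pos 0
  obtain ⟨f2, c2⟩ := cw_fin hσ (show X / q ≤ X / q + 1 by linarith) (Q := 1) one_pos 0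
  obtain ⟨f3, c3⟩ := cw_fin hσ (show (0 : ℝ) ≤ 1 by norm_num) (Q := 1) one_pos 0
  obtain ⟨f4, c4⟩ := cw_fin hσ (show X / q - 1 ≤ X / q by linarith) (Q := 1) one_pos 0
  have e1 : ((1 : ℕ) : ℝ) = 1 := Nat.cast_one
  simp only [e1, div_one] at c1 c2 c3 c4
  change (E1.ncard : ℝ) ≤ _ at c1
  change (E2.ncard : ℝ) ≤ _ at c2
  change (E3.ncard : ℝ) ≤ _ at c3
  change (E4.ncard : ℝ) ≤ _ at c4
  have hXq : X / q * q = X := div_mul_cancel₀ _ hq0.ne'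
  have hone : ∀ y : ℤ, ((1 : ℕ) : ℤ) ∣ y - 0 := fun y => by simp
  have s1 : Y1 ⊆ (Y2 ∪ E1) ∪ E2 := by
    rintro y ⟨h3, h4, h5⟩
    have h4' : (0 : ℝ) < ((σ * val d C (B, y) : ℤ) : ℝ) := by exact_mod_cast h4
    rw [hval] at h4' h5
    by_cases h6 : 0 < σ * y
    · by_cases h7 : ((σ * y : ℤ) : ℝ) ≤ X / q
      · exact Or.inl (Or.inl ⟨h3, h6, h7, hone y⟩)
      · refine Or.inr ⟨(not_le.1 h7).le, ?_, hone y⟩
        have h8 : q * ((σ * y : ℤ) : ℝ) ≤ q * (X / q + 1) := by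
          rw [mul_add, mul_one, mul_comm q (X / q), hXq]
          linarith [hσj'.1]
        exact le_of_mul_le_mul_left h8 hq0
    · refine Or.inl (Or.inr ⟨?_, by exact_mod_cast not_lt.1 h6, hone y⟩)
      have h8 : q * (-1) ≤ q * ((σ * y : ℤ) : ℝ) := by linarith [hσj'.2]
      exact le_of_mul_le_mul_left h8 hq0
  have s2 : Y2 ⊆ (Y1 ∪ E3) ∪ E4 := by
    rintro y ⟨h3, h4, h5, -⟩
    have h4' : (0 : ℝ) < ((σ * y : ℤ) : ℝ) := by exact_mod_cast h4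
    by_cases h6 : 0 < σ * val d C (B, y)
    · by_cases h7 : ((σ * val d C (B, y) : ℤ) : ℝ) ≤ X
      · exact Or.inl (Or.inl ⟨h3, h6, h7⟩)
      · refine Or.inr ⟨?_, h5, hone y⟩
        rw [not_le, hval] at h7
        have h8 : q * (X / q - 1) ≤ q * ((σ * y : ℤ) : ℝ) := by
          rw [mul_sub, mul_one, mul_comm q (X / q), hXq]
          linarith [hσj'.2]
        exact le_of_mul_le_mul_left h8 hq0
    · refine Or.inl (Or.inr ⟨h4'.le, ?_, hone y⟩)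
      have h7 : ((σ * val d C (B, y) : ℤ) : ℝ) ≤ 0 := by exact_mod_cast not_lt.1 h6
      rw [hval] at h7
      have h8 : q * ((σ * y : ℤ) : ℝ) ≤ q * 1 := by linarith [hσj'.1]
      exact le_of_mul_le_mul_left h8 hq0
  have fY2 : Y2.Finite := cn_set_fin _ hσ _ _ _
  have fY1 : Y1.Finite := by
    apply Set.Finite.of_finite_image _ hinj.injOn
    rw [himg]
    exact cn_set_fin _ hσ _ _ _
  have n1 : (Y1.ncard : ℝ) ≤ Y2.ncard + E1.ncard + E2.ncard := by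
    have h3 := Set.ncard_le_ncard s1 ((fY2.union f1).union f2)
    have h4 := Set.ncard_union_le (Y2 ∪ E1) E2
    have h5 := Set.ncard_union_le Y2 E1
    have h6 : Y1.ncard ≤ Y2.ncard + E1.ncard + E2.ncard := by omega
    exact_mod_cast h6
  have n2 : (Y2.ncard : ℝ) ≤ Y1.ncard + E3.ncard + E4.ncard := by
    have h3 := Set.ncard_le_ncard s2 ((fY1.union f3).union f4)
    have h4 := Set.ncard_union_le (Y1 ∪ E3) E4
    have h5 := Set.ncard_union_le Y1 E3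
    have h6 : Y2.ncard ≤ Y1.ncard + E3.ncard + E4.ncard := by omega
    exact_mod_cast h6
  rw [hcn1, hcn2, abs_le]
  constructor <;> linarith

/-- the density functions -/
theorem fd_cls (hC : Class d m r e C ρ) (A : Set ℤ) (B : {B // B ∈ C}) {σ : ℤ}
    (hσ : σ = 1 ∨ σ = -1) (t : ℝ) :
    |fd (A ∩ cls d B.1) σ t - fd (SA d C A B) σ (t - Real.log ((d : ℝ) * B.1.2)) / ((d : ℝ) * B.1.2)| ≤
      4 * Real.exp (-t) := by
  obtain ⟨h0, h1, h2⟩ := state_bd hC B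
  have h3 := cn_cls hC A B hσ (Real.exp t)
  set q : ℝ := (d : ℝ) * B.1.2 with hq
  have hq1 : 1 ≤ q := by rw [hq]; exact_mod_cast h2
  have hq0 : 0 < q := by linarith
  have hE := Real.exp_pos t
  have h4 : Real.exp (t - Real.log q) = Real.exp t / q := by rw [Real.exp_sub, Real.exp_log hq0]
  unfold fd
  rw [h4]
  have h5 : cn (SA d C A B) σ (Real.exp t / q) 1 0 / (Real.exp t / q) / q =
      cn (SA d C A B) σ (Real.exp t / q) 1 0 / Real.exp t := by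
    field_simp
  rw [h5, ← sub_div, abs_div, abs_of_pos hE, Real.exp_neg, ← div_eq_mul_inv]
  exact div_le_div_of_nonneg_right h3 hE.le

end Pool.Agent.Zk39.GD
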