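import Mathlib
import Pool.Agent.Zk39.LD.Leigh

/-!
# Densities of almost invariant sets in the classes of Leigh's chain: the theorems
-/

set_option autoImplicit false
set_option linter.unusedSectionVars false

namespace Pool.Agent.Zk39.GD

open Finset Pool.Agent.H319R2.Leigh Pool.Agent.W44.LM Filter Topology MeasureTheory

variable {d : ℕ} {m r b : ℤ → ℤ} {e : ℤ → ℕ} {C : Finset (ℤ × ℕ)} {ρ : ℤ × ℕ → ℝ}

theorem fd_ii (E : Set ℤ) {σ : ℤ} (hσ : σ = 1 ∨ σ = -1) (a b : ℝ) : IntervalIntegrable (fd E σ) volume a b := by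
  refine (intervalIntegrable_const (c := (1 : ℝ))).mono_fun' (fd_meas E hσ).aestronglyMeasurable ?_
  filter_upwards with t
  rw [Real.norm_eq_abs, abs_of_nonneg (fd_nonneg E σ t)]
  exact fd_le_one E hσ t

theorem fd_int_le (E : Set ℤ) {σ : ℤ} (hσ : σ = 1 ∨ σ = -1) (a b : ℝ) : |∫ s in a..b, fd E σ s| ≤ |b - a| := by
  rw [← Real.norm_eq_abs]
  refine (intervalIntegral.norm_integral_le_of_norm_le_const (C := 1) fun t _ => ?_).trans (by rw [one_mul])
  rw [Real.norm_eq_abs, abs_of_nonneg (fd_nonneg E σ t)]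
  exact fd_le_one E hσ t

/-- logarithmic density with bounded error -/
def LogDens (E : Set ℤ) (σ : ℤ) (δ K : ℝ) : Prop := ∀ X : ℝ, 1 ≤ X → |ls E σ X - δ * Real.log X| ≤ K

theorem logDens_iff_le {E : Set ℤ} {σ : ℤ} (hσ : σ = 1 ∨ σ = -1) {δ K : ℝ}
    (h : ∀ L : ℝ, 0 ≤ L → |(∫ s in (0 : ℝ)..L, fd E σ s) - δ * L| ≤ K) : LogDens E σ δ (K + 1) := by
  intro X hX
  have hX0 : 0 < X := by linarith
  have hL := Real.log_nonneg hX
  have h1 := ls_eq E hσ hL
  rw [Real.exp_log hX0] at h1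
  have h2 := h _ hL
  have h3 := fd_nonneg E σ (Real.log X)
  have h4 := fd_le_one E hσ (Real.log X)
  have h5 := abs_le.1 h2
  rw [h1, abs_le]
  constructor <;> linarith [h5.1, h5.2]

theorem logDens_int {E : Set ℤ} {σ : ℤ} (hσ : σ = 1 ∨ σ = -1) {δ K : ℝ} (h : LogDens E σ δ K) {L : ℝ} (hL : 0 ≤ L) :
    |(∫ s in (0 : ℝ)..L, fd E σ s) - δ * L| ≤ K + 1 := by
  have h1 := ls_eq E hσ hL
  have h2 := h (Real.exp L) (Real.one_le_exp hL)
  rw [Real.log_exp, h1] at h2
  have h3 := fd_nonneg E σ L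
  have h4 := fd_le_one E hσ L
  have h5 := abs_le.1 h2
  rw [abs_le]
  constructor <;> linarith [h5.1, h5.2]

/-- a bound for the density -/
theorem logDens_le {E : Set ℤ} {σ : ℤ} (hσ : σ = 1 ∨ σ = -1) {δ K ε : ℝ} (h : LogDens E σ δ K)
    (hε : ∀ t : ℝ, 0 ≤ t → fd E σ t ≤ ε) : δ ≤ ε := by
  by_contra hcon
  push Not at hcon
  obtain ⟨n, hn⟩ := exists_nat_gt ((K + 1) / (δ - ε))
  have h1 : K + 1 < n * (δ - ε) := by rwa [div_lt_iff₀ (by linarith)] at hn
  have h2 := (abs_le.1 (logDens_int hσ h (Nat.cast_nonneg n))).1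
  have h3 : ∫ s in (0 : ℝ)..n, fd E σ s ≤ ∫ s in (0 : ℝ)..n, ε := by
    apply intervalIntegral.integral_mono_on (Nat.cast_nonneg n) (fd_ii E hσ _ _) intervalIntegrable_const
    intro s hs
    exact hε s hs.1
  rw [intervalIntegral.integral_const, smul_eq_mul, sub_zero] at h3
  linarith

theorem logDens_nonneg {E : Set ℤ} {σ : ℤ} (hσ : σ = 1 ∨ σ = -1) {δ K : ℝ} (h : LogDens E σ δ K) : 0 ≤ δ := by
  by_contra hcon
  push Not at hcon
  obtain ⟨n, hn⟩ := exists_nat_gt ((K + 1) / (-δ))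
  have h1 : K + 1 < n * (-δ) := by rwa [div_lt_iff₀ (by linarith)] at hn
  have h2 := (abs_le.1 (logDens_int hσ h (Nat.cast_nonneg n))).2
  have h3 : 0 ≤ ∫ s in (0 : ℝ)..n, fd E σ s :=
    intervalIntegral.integral_nonneg (Nat.cast_nonneg n) fun s _ => fd_nonneg E σ s
  linarith

theorem logDens_unique {E : Set ℤ} {σ : ℤ} {δ K δ' K' : ℝ} (h : LogDens E σ δ K) (h' : LogDens E σ δ' K') : δ = δ' := by
  by_contra hne
  have h0 : 0 < |δ - δ'| := abs_pos.2 (sub_ne_zero.2 hne)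
  obtain ⟨n, hn⟩ := exists_nat_gt ((K + K') / |δ - δ'|)
  have h1 : K + K' < n * |δ - δ'| := by rwa [div_lt_iff₀ h0] at hn
  have h2 := h (Real.exp n) (Real.one_le_exp (Nat.cast_nonneg n))
  have h3 := h' (Real.exp n) (Real.one_le_exp (Nat.cast_nonneg n))
  rw [Real.log_exp] at h2 h3
  have h4 : (n : ℝ) * |δ - δ'| = |(ls E σ (Real.exp n) - δ' * n) - (ls E σ (Real.exp n) - δ * n)| := by
    rw [show (ls E σ (Real.exp n) - δ' * n) - (ls E σ (Real.exp n) - δ * n) = n * (δ - δ') by ring, abs_mul,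
      abs_of_nonneg (show (0 : ℝ) ≤ (n : ℝ) from Nat.cast_nonneg n)]
  have h5 := abs_sub (ls E σ (Real.exp n) - δ' * n) (ls E σ (Real.exp n) - δ * n)
  linarith

/-- the closed paths in `C` have multipliers which are not all powers of one number -/
def Nonlat (d : ℕ) (m r : ℤ → ℤ) (e : ℤ → ℕ) (C : Finset (ℤ × ℕ)) : Prop :=
  ∀ θ : ℝ, 0 < θ → ∃ (n : ℕ) (p : ℕ → ℤ × ℕ), (∀ t ≤ n, p t ∈ C) ∧ (∀ t < n, 0 < P d m r e (p t) (p (t + 1))) ∧
    p n = p 0 ∧ ∀ k : ℤ, ∏ t ∈ range n, |(m ((p t).1 % d) : ℝ)| / d ≠ θ ^ k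

/-- the multiplier up to a coboundary -/
theorem xi_eq (D : Data d m r b e) (hC : Class d m r e C ρ) {B B' : {B // B ∈ C}} (h : 0 < P d m r e B.1 B'.1) :
    (LG D hC).xi B = Real.log (|(m (B.1.1 % d) : ℝ)| / d) + Real.log B.1.2 - Real.log B'.1.2 := by
  obtain ⟨h1, -⟩ := (P_pos_iff D B.1 B'.1).1 h
  have hk' : B'.1.2 = K' d e B.1 := h1
  have hdk := d_K' D B.1
  rw [← hk'] at hdk
  have hd0 : (0 : ℝ) < d := by exact_mod_cast Pool.Agent.W44.LM.d_pos D
  have hk0 : (0 : ℝ) < B.1.2 := by exact_mod_cast state_pos D hC B.2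
  have hk'0 : (0 : ℝ) < B'.1.2 := by exact_mod_cast state_pos D hC B'.2
  have hn0 : (0 : ℝ) < succ d e B.1 := by exact_mod_cast succ_pos D B.1
  have he0 : (0 : ℝ) < e (B.1.1 % d) := by exact_mod_cast Pool.Agent.Zk39.PM.e_pos D B.1.1
  have hb : b (B.1.1 % d) ≠ 0 := b_ne D B.1.1
  have hb0 : (0 : ℝ) < |(b (B.1.1 % d) : ℝ)| := abs_pos.2 (by exact_mod_cast hb)
  have hfac : m (B.1.1 % d) = b (B.1.1 % d) * e (B.1.1 % d) := D.fac _ (res0 D B.1.1) (res1 D B.1.1)
  have hdk' : (d : ℝ) * B'.1.2 = succ d e B.1 * (B.1.2 * e (B.1.1 % d)) := by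
    unfold KK at hdk
    exact_mod_cast hdk
  show Real.log |((b (B.1.1 % d) : ℤ) : ℝ)| - Real.log (succ d e B.1) = _
  rw [hfac]
  push_cast
  rw [abs_mul, abs_of_pos he0, Real.log_div (by positivity) hd0.ne', Real.log_mul hb0.ne' he0.ne']
  have h2 := congrArg Real.log hdk'
  rw [Real.log_mul hd0.ne' hk'0.ne', Real.log_mul hn0.ne' (by positivity), Real.log_mul hk0.ne' he0.ne'] at h2
  linarith

theorem nonlat (D : Data d m r b e) (hC : Class d m r e C ρ) (h : Nonlat d m r e C) :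
    Pool.Agent.Zk39.LD.Nonlattice (LG D hC).pr (LG D hC).xi := by
  intro lam
  obtain ⟨n, p, hp, hstep, hclosed, hne⟩ := h (Real.exp lam) (Real.exp_pos _)
  have hw : ∀ (l : ℕ) (hl : l ≤ n), Pool.Agent.Zk39.LD.Wk (LG D hC).pr (LG D hC).xi ⟨p 0, hp 0 (Nat.zero_le _)⟩ ⟨p l, hp l hl⟩
      (∑ t ∈ range l, Real.log (|(m ((p t).1 % d) : ℝ)| / d) + Real.log (p 0).2 - Real.log (p l).2) := by
    intro l
    induction l with
    | zero =>
      intro hl
      rw [range_zero, sum_empty, zero_add, sub_self]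
      exact Pool.Agent.Zk39.LD.Wk.nil _
    | succ l ih =>
      intro hl
      have h1 := ih (by omega)
      have h2 := hstep l (by omega)
      have h3 : 0 < (LG D hC).pr ⟨p l, hp l (by omega)⟩ ⟨p (l + 1), hp (l + 1) hl⟩ := by
        rw [pr_eq D hC]
        exact h2
      have h4 := h1.trans (Pool.Agent.Zk39.LD.Wk.cons h3 (Pool.Agent.Zk39.LD.Wk.nil _))
      rw [xi_eq D hC (B := ⟨p l, hp l (by omega)⟩) (B' := ⟨p (l + 1), hp (l + 1) hl⟩) h2] at h4
      rw [sum_range_succ]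
      convert h4 using 1
      ring
  have h1 := hw n le_rfl
  have e0 : (⟨p n, hp n le_rfl⟩ : {B // B ∈ C}) = ⟨p 0, hp 0 (Nat.zero_le _)⟩ := Subtype.ext hclosed
  rw [e0, hclosed, add_sub_cancel_right] at h1
  refine ⟨_, _, h1, fun k hk => hne k ?_⟩
  have hpos : ∀ t ∈ range n, 0 < |(m ((p t).1 % d) : ℝ)| / d := by
    intro t _
    have hd0 : (0 : ℝ) < d := by exact_mod_cast Pool.Agent.W44.LM.d_pos D
    have hfac : m ((p t).1 % d) = b ((p t).1 % d) * e ((p t).1 % d) := D.fac _ (res0 D _) (res1 D _)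
    have he0 : (0 : ℝ) < e ((p t).1 % d) := by exact_mod_cast Pool.Agent.Zk39.PM.e_pos D _
    have hb : b ((p t).1 % d) ≠ 0 := b_ne D _
    have hm : (m ((p t).1 % d) : ℝ) ≠ 0 := by
      rw [hfac]
      push_cast
      exact mul_ne_zero (by exact_mod_cast hb) he0.ne'
    exact div_pos (abs_pos.2 hm) hd0
  rw [← Real.log_prod fun t ht => (hpos t ht).ne'] at hk
  rw [← Real.exp_log (prod_pos hpos), hk, mul_comm, Real.exp_mul, Real.rpow_intCast]

/-- **The densities of almost invariant sets.** -/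
theorem leigh_dens (D : Data d m r b e) (hC : Class d m r e C ρ) (hL : Lam d m C ρ < 1) (R : ℕ) : ∃ K : ℝ,
    ∀ A : Set ℤ, InvOut d m r C R A → ∃ (δ : ℤ → ℤ × ℕ → ℝ) (a : ℝ), 0 ≤ a ∧ a ≤ 1 ∧
      (∀ B ∈ C, δ 1 B + δ (-1) B = 2 * a / (d * B.2)) ∧
      ∀ σ : ℤ, (σ = 1 ∨ σ = -1) → ∀ B ∈ C, LogDens (A ∩ cls d B) σ (δ σ B) K ∧
        (Nonlat d m r e C → Tendsto (fd (A ∩ cls d B) σ) atTop (𝓝 (δ σ B))) := by
  classical
  obtain ⟨Kα, hKα⟩ := (LG D hC).sides (irr D hC) (drift D hC hL) (R + 1)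
  set q : {B // B ∈ C} → ℝ := fun B => (d : ℝ) * B.1.2 with hq
  have hq1 : ∀ B, 1 ≤ q B := by
    intro B
    obtain ⟨-, -, h2⟩ := state_bd hC B
    simp only [hq]
    exact_mod_cast h2
  set Λ : ℝ := ∑ B, Real.log (q B) with hΛ
  have hlam0 : ∀ B, 0 ≤ Real.log (q B) := fun B => Real.log_nonneg (hq1 B)
  have hlamle : ∀ B, Real.log (q B) ≤ Λ := fun B =>
    single_le_sum (f := fun B => Real.log (q B)) (fun B _ => hlam0 B) (mem_univ B)
  refine ⟨4 + |Kα| + 2 * Λ + 1, fun A hA => ?_⟩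
  obtain ⟨α, hα, hsum⟩ := hKα (SA d C A) (QI_SA D hC hA)
  obtain ⟨B₀, hB₀⟩ : C.Nonempty := by
    rw [Finset.nonempty_iff_ne_empty]
    intro h0
    have := hC.sum_one
    rw [h0, sum_empty] at this
    exact zero_ne_one this
  refine ⟨fun σ B => if h : B ∈ C then α σ ⟨B, h⟩ / (d * B.2) else 0, (α 1 ⟨B₀, hB₀⟩ + α (-1) ⟨B₀, hB₀⟩) / 2, ?_, ?_, ?_, ?_⟩
  · have h1 := (hα 1 (Or.inl rfl) ⟨B₀, hB₀⟩).1
    have h2 := (hα (-1) (Or.inr rfl) ⟨B₀, hB₀⟩).1
    linarith
  · have h1 := (hα 1 (Or.inl rfl) ⟨B₀, hB₀⟩).2.1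
    have h2 := (hα (-1) (Or.inr rfl) ⟨B₀, hB₀⟩).2.1
    linarith
  · intro B hB
    simp only [dif_pos hB]
    rw [← add_div, hsum ⟨B, hB⟩ ⟨B₀, hB₀⟩]
    ring
  · intro σ hσ B hB
    simp only [dif_pos hB]
    obtain ⟨ha0, ha1, hint, hnat⟩ := hα σ hσ ⟨B, hB⟩
    set Bs : {B // B ∈ C} := ⟨B, hB⟩ with hBs
    have hqB : ((d : ℝ) * B.2) = q Bs := rfl
    have hq1B := hq1 Bs
    have hq0 : 0 < q Bs := by linarith
    have hfd : ∀ t, |fd (A ∩ cls d B) σ t - fd (SA d C A Bs) σ (t - Real.log (q Bs)) / q Bs| ≤ 4 * Real.exp (-t) :=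
      fun t => fd_cls hC A Bs hσ t
    rw [hqB]
    constructor
    · apply logDens_iff_le hσ
      intro L hL0
      have hii : IntervalIntegrable (fun s => fd (SA d C A Bs) σ (s - Real.log (q Bs))) volume 0 L := by
        refine (intervalIntegrable_const (c := (1 : ℝ))).mono_fun'
          ((fd_meas _ hσ).comp (measurable_id.sub_const _)).aestronglyMeasurable ?_
        filter_upwards with t
        rw [Real.norm_eq_abs, abs_of_nonneg (fd_nonneg _ σ _)]
        exact fd_le_one _ hσ _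
      have h1 : |(∫ s in (0 : ℝ)..L, fd (A ∩ cls d B) σ s) - (∫ s in (0 : ℝ)..L, fd (SA d C A Bs) σ (s - Real.log (q Bs))) / q Bs| ≤ 4 := by
        rw [← intervalIntegral.integral_div, ← intervalIntegral.integral_sub (fd_ii _ hσ _ _) (hii.div_const _),
          ← Real.norm_eq_abs]
        have hc : Continuous fun s : ℝ => 4 * Real.exp (-s) := continuous_const.mul (Real.continuous_exp.comp continuous_neg)
        refine (intervalIntegral.norm_integral_le_of_norm_le hL0 (g := fun s : ℝ => 4 * Real.exp (-s)) ?_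
          (hc.intervalIntegrable _ _)).trans ?_
        · filter_upwards with s _
          rw [Real.norm_eq_abs]
          exact hfd s
        · rw [intervalIntegral.integral_const_mul, intervalIntegral.integral_comp_neg (fun s => Real.exp s), integral_exp,
            neg_zero, Real.exp_zero]
          have := Real.exp_pos (-L)
          linarith
      have h2 : ∫ s in (0 : ℝ)..L, fd (SA d C A Bs) σ (s - Real.log (q Bs)) =
          (∫ s in (0 : ℝ)..L, fd (SA d C A Bs) σ s) + (∫ s in (0 - Real.log (q Bs))..0, fd (SA d C A Bs) σ s) -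
            ∫ s in (L - Real.log (q Bs))..L, fd (SA d C A Bs) σ s := by
        rw [intervalIntegral.integral_comp_sub_right (fun s => fd (SA d C A Bs) σ s)]
        have i1 := intervalIntegral.integral_add_adjacent_intervals
          (fd_ii (SA d C A Bs) hσ (0 - Real.log (q Bs)) 0) (fd_ii (SA d C A Bs) hσ 0 L)
        have i2 := intervalIntegral.integral_add_adjacent_intervals
          (fd_ii (SA d C A Bs) hσ (0 - Real.log (q Bs)) (L - Real.log (q Bs)))
          (fd_ii (SA d C A Bs) hσ (L - Real.log (q Bs)) L)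
        linarith
      have h3 := fd_int_le (SA d C A Bs) hσ (0 - Real.log (q Bs)) 0
      have h4 := fd_int_le (SA d C A Bs) hσ (L - Real.log (q Bs)) L
      have e3 : |0 - (0 - Real.log (q Bs))| = Real.log (q Bs) := by
        rw [show 0 - (0 - Real.log (q Bs)) = Real.log (q Bs) by ring, abs_of_nonneg (hlam0 Bs)]
      have e4 : |L - (L - Real.log (q Bs))| = Real.log (q Bs) := by
        rw [show L - (L - Real.log (q Bs)) = Real.log (q Bs) by ring, abs_of_nonneg (hlam0 Bs)]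
      rw [e3] at h3
      rw [e4] at h4
      have h5 := hint L hL0
      have h6 : |(∫ s in (0 : ℝ)..L, fd (SA d C A Bs) σ (s - Real.log (q Bs))) - α σ Bs * L| ≤ |Kα| + 2 * Λ := by
        rw [h2]
        have a3 := abs_le.1 h3
        have a4 := abs_le.1 h4
        have a5 := abs_le.1 h5
        have a6 := le_abs_self Kα
        have a7 := hlamle Bs
        rw [abs_le]
        constructor <;> linarith [a3.1, a3.2, a4.1, a4.2, a5.1, a5.2]
      have h7 : |(∫ s in (0 : ℝ)..L, fd (SA d C A Bs) σ (s - Real.log (q Bs))) / q Bs - α σ Bs / q Bs * L| ≤ |Kα| + 2 * Λ := by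
        have e5 : (∫ s in (0 : ℝ)..L, fd (SA d C A Bs) σ (s - Real.log (q Bs))) / q Bs - α σ Bs / q Bs * L =
            ((∫ s in (0 : ℝ)..L, fd (SA d C A Bs) σ (s - Real.log (q Bs))) - α σ Bs * L) / q Bs := by ring
        rw [e5, abs_div, abs_of_pos hq0]
        exact (div_le_self (abs_nonneg _) hq1B).trans h6
      have h8 := abs_sub_le (∫ s in (0 : ℝ)..L, fd (A ∩ cls d B) σ s)
        ((∫ s in (0 : ℝ)..L, fd (SA d C A Bs) σ (s - Real.log (q Bs))) / q Bs) (α σ Bs / q Bs * L)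
      linarith
    · intro hnl
      have h1 := hnat (nonlat D hC hnl)
      have h2 : Tendsto (fun t : ℝ => t - Real.log (q Bs)) atTop atTop := tendsto_atTop_add_const_right _ _ tendsto_id
      have h3 := (h1.comp h2).div_const (q Bs)
      have h4 : Tendsto (fun t => fd (A ∩ cls d B) σ t - fd (SA d C A Bs) σ (t - Real.log (q Bs)) / q Bs) atTop (𝓝 0) := by
        rw [tendsto_zero_iff_abs_tendsto_zero]
        have h5 : Tendsto (fun t : ℝ => 4 * Real.exp (-t)) atTop (𝓝 (4 * 0)) :=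
          Real.tendsto_exp_neg_atTop_nhds_zero.const_mul 4
        rw [mul_zero] at h5
        exact squeeze_zero (fun t => abs_nonneg _) hfd h5
      have h6 := h4.add h3
      rw [zero_add] at h6
      refine h6.congr fun t => ?_
      simp only [Function.comp]
      ring

end Pool.Agent.Zk39.GD
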