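import Mathlib

/-!
# Two kinds of limits
-/

set_option autoImplicit false
set_option linter.unusedSectionVars false

namespace Pool.Agent.Zk39.LD

open Finset MeasureTheory intervalIntegral Filter Topology

/-- bounded measurable functions -/
def Bm (f : ℝ → ℝ) : Prop := Measurable f ∧ ∃ M : ℝ, ∀ t, |f t| ≤ M

theorem Bm.ii {f : ℝ → ℝ} (hf : Bm f) (a b : ℝ) : IntervalIntegrable f volume a b := by
  obtain ⟨h1, M, hM⟩ := hf
  refine (intervalIntegrable_const (c := M)).mono_fun' h1.aestronglyMeasurable ?_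
  filter_upwards with t
  rw [Real.norm_eq_abs]
  exact hM t

theorem Bm.add {f g : ℝ → ℝ} (hf : Bm f) (hg : Bm g) : Bm fun t => f t + g t := by
  obtain ⟨h1, M, hM⟩ := hf
  obtain ⟨h2, N, hN⟩ := hg
  exact ⟨h1.add h2, M + N, fun t => (abs_add_le _ _).trans (add_le_add (hM t) (hN t))⟩

theorem Bm.smul {f : ℝ → ℝ} (hf : Bm f) (c : ℝ) : Bm fun t => c * f t := by
  obtain ⟨h1, M, hM⟩ := hf
  exact ⟨h1.const_mul c, |c| * M, fun t => by
    rw [abs_mul]
    exact mul_le_mul_of_nonneg_left (hM t) (abs_nonneg _)⟩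

theorem Bm.shift {f : ℝ → ℝ} (hf : Bm f) (s : ℝ) : Bm fun t => f (t + s) := by
  obtain ⟨h1, M, hM⟩ := hf
  exact ⟨h1.comp (measurable_id.add_const s), M, fun t => hM _⟩

theorem Bm.zero : Bm fun _ => 0 := ⟨measurable_const, 0, fun t => by simp⟩

/-- averaging operators -/
structure Mode (U : (ℝ → ℝ) → ℝ → ℝ) : Prop where
  add : ∀ f g, Bm f → Bm g → ∀ t, U (fun t => f t + g t) t = U f t + U g t
  smul : ∀ f, Bm f → ∀ c t, U (fun t => c * f t) t = c * U f t
  close : ∀ f g, Bm f → Bm g → ∀ ε, 0 < ε → (∀ᶠ t in atTop, |f t - g t| ≤ ε) → ∀ᶠ t in atTop, |U f t - U g t| ≤ 2 * ε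
  shift : ∀ f, Bm f → ∀ s δ, Tendsto (U f) atTop (𝓝 δ) → Tendsto (U fun t => f (t + s)) atTop (𝓝 δ)

theorem mode_id : Mode fun f => f where
  add _ _ _ _ _ := rfl
  smul _ _ _ _ := rfl
  close f g _ _ ε hε h := h.mono fun t ht => by linarith
  shift f _ s δ h := h.comp (tendsto_atTop_add_const_right _ _ tendsto_id)

/-- averages -/
noncomputable def ces (f : ℝ → ℝ) (L : ℝ) : ℝ := (∫ s in (0 : ℝ)..L, f s) / L

theorem mode_ces : Mode ces where
  add f g hf hg t := by
    unfold ces
    rw [intervalIntegral.integral_add (hf.ii _ _) (hg.ii _ _), add_div]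
  smul f hf c t := by
    unfold ces
    rw [intervalIntegral.integral_const_mul, mul_div_assoc]
  close f g hf hg ε hε h := by
    obtain ⟨t₁, ht₁⟩ := (eventually_atTop.1 h)
    obtain ⟨-, M, hM⟩ := id hf
    obtain ⟨-, N, hN⟩ := id hg
    have hM0 : 0 ≤ M := (abs_nonneg _).trans (hM 0)
    have hN0 : 0 ≤ N := (abs_nonneg _).trans (hN 0)
    set t₂ : ℝ := max t₁ 1 with ht₂
    have h21 : t₁ ≤ t₂ := le_max_left _ _
    have h22 : 1 ≤ t₂ := le_max_right _ _
    filter_upwards [eventually_ge_atTop t₂, eventually_ge_atTop ((M + N) * t₂ / ε)] with L hL1 hL2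
    have hL0 : 0 < L := by linarith
    unfold ces
    rw [← sub_div, abs_div, abs_of_pos hL0, div_le_iff₀ hL0, ← intervalIntegral.integral_sub (hf.ii _ _) (hg.ii _ _)]
    have hii : ∀ a b, IntervalIntegrable (fun s => f s - g s) volume a b := fun a b => (hf.ii a b).sub (hg.ii a b)
    rw [← intervalIntegral.integral_add_adjacent_intervals (hii 0 t₂) (hii t₂ L)]
    refine (abs_add_le _ _).trans ?_
    have h1 : |∫ s in (0 : ℝ)..t₂, (f s - g s)| ≤ (M + N) * t₂ := by
      rw [← Real.norm_eq_abs]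
      refine (intervalIntegral.norm_integral_le_of_norm_le_const (C := M + N) fun t _ => ?_).trans ?_
      · rw [Real.norm_eq_abs]
        exact (abs_sub _ _).trans (add_le_add (hM t) (hN t))
      · rw [sub_zero, abs_of_pos (by linarith)]
    have h2 : |∫ s in t₂..L, (f s - g s)| ≤ ε * L := by
      rw [← Real.norm_eq_abs]
      refine (intervalIntegral.norm_integral_le_of_norm_le_const (C := ε) fun t ht => ?_).trans ?_
      · rw [Real.norm_eq_abs]
        rw [Set.uIoc_of_le hL1] at ht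
        exact ht₁ t (by linarith [ht.1])
      · rw [abs_of_nonneg (by linarith)]
        exact mul_le_mul_of_nonneg_left (by linarith) hε.le
    have h3 : (M + N) * t₂ ≤ ε * L := by
      rw [div_le_iff₀ hε] at hL2
      linarith
    linarith
  shift f hf s δ h := by
    obtain ⟨-, M, hM⟩ := id hf
    have h1 : Tendsto (fun L => ces (fun t => f (t + s)) L - ces f L) atTop (𝓝 0) := by
      rw [tendsto_zero_iff_abs_tendsto_zero]
      have h2 : Tendsto (fun L : ℝ => (2 * M * |s|) / L) atTop (𝓝 0) := tendsto_id.const_div_atTop _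
      refine squeeze_zero' (Eventually.of_forall fun t => abs_nonneg _) ?_ h2
      filter_upwards [eventually_gt_atTop 0] with L hL
      simp only [Function.comp]
      unfold ces
      rw [← sub_div, abs_div, abs_of_pos hL]
      apply div_le_div_of_nonneg_right _ hL.le
      have h3 : ∫ t in (0 : ℝ)..L, f (t + s) = ∫ t in (0 + s)..(L + s), f t := by
        rw [intervalIntegral.integral_comp_add_right]
      rw [h3, intervalIntegral.integral_interval_sub_interval_comm (hf.ii _ _) (hf.ii _ _) (hf.ii _ _)]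
      have h4 : |∫ t in (0 + s)..0, f t| ≤ M * |s| := by
        rw [← Real.norm_eq_abs]
        refine (intervalIntegral.norm_integral_le_of_norm_le_const (C := M) fun t _ => ?_).trans ?_
        · rw [Real.norm_eq_abs]; exact hM t
        · rw [show (0 : ℝ) - (0 + s) = -s by ring, abs_neg]
      have h5 : |∫ t in (L + s)..L, f t| ≤ M * |s| := by
        rw [← Real.norm_eq_abs]
        refine (intervalIntegral.norm_integral_le_of_norm_le_const (C := M) fun t _ => ?_).trans ?_
        · rw [Real.norm_eq_abs]; exact hM t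
        · rw [show L - (L + s) = -s by ring, abs_neg]
      refine (abs_sub _ _).trans ?_
      linarith
    have h6 := h1.add h
    rw [zero_add] at h6
    refine h6.congr fun L => ?_
    ring

variable {U : (ℝ → ℝ) → ℝ → ℝ}

theorem Mode.of_sub (hU : Mode U) {f g : ℝ → ℝ} (hf : Bm f) (hg : Bm g) (h : Tendsto (fun t => f t - g t) atTop (𝓝 0))
    {δ : ℝ} (hgl : Tendsto (U g) atTop (𝓝 δ)) : Tendsto (U f) atTop (𝓝 δ) := by
  have h1 : Tendsto (fun t => U f t - U g t) atTop (𝓝 0) := by
    rw [Metric.tendsto_nhds]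
    intro ε hε
    have h2 : ∀ᶠ t in atTop, |f t - g t| ≤ ε / 4 := by
      have h3 := h.abs
      rw [abs_zero] at h3
      exact (h3.eventually (gt_mem_nhds (show 0 < ε / 4 by positivity))).mono fun t ht => ht.le
    filter_upwards [hU.close f g hf hg (ε / 4) (by positivity) h2] with t ht
    rw [Real.dist_eq, sub_zero]
    linarith
  have h2 := h1.add hgl
  rw [zero_add] at h2
  refine h2.congr fun t => ?_
  ring

theorem Mode.sum (hU : Mode U) {ι : Type*} (s : Finset ι) {f : ι → ℝ → ℝ} (hf : ∀ i ∈ s, Bm (f i)) {δ : ι → ℝ}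
    (h : ∀ i ∈ s, Tendsto (U (f i)) atTop (𝓝 (δ i))) :
    Bm (fun t => ∑ i ∈ s, f i t) ∧ Tendsto (U fun t => ∑ i ∈ s, f i t) atTop (𝓝 (∑ i ∈ s, δ i)) := by
  classical
  induction s using Finset.induction_on with
  | empty =>
    simp only [sum_empty]
    refine ⟨Bm.zero, ?_⟩
    have h1 : ∀ t, U (fun _ => 0) t = 0 := by
      intro t
      have := hU.smul (fun _ => 0) Bm.zero 0 t
      simpa using this
    have h2 : (U fun _ => 0) = fun _ => 0 := funext h1
    rw [h2]
    exact tendsto_const_nhds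
  | insert a s ha ih =>
    obtain ⟨h1, h2⟩ := ih (fun i hi => hf i (mem_insert_of_mem hi)) (fun i hi => h i (mem_insert_of_mem hi))
    have h3 := hf a (mem_insert_self _ _)
    have h4 := h a (mem_insert_self _ _)
    simp only [sum_insert ha]
    refine ⟨h3.add h1, ?_⟩
    have h5 : (U fun t => f a t + ∑ i ∈ s, f i t) = fun t => U (f a) t + U (fun t => ∑ i ∈ s, f i t) t :=
      funext fun t => hU.add _ _ h3 h1 t
    rw [h5]
    exact h4.add h2

theorem Mode.exists_lim (hU : Mode U) {f : ℝ → ℝ} (hf : Bm f)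
    (h : ∀ ε : ℝ, 0 < ε → ∃ g, Bm g ∧ (∃ δ, Tendsto (U g) atTop (𝓝 δ)) ∧ ∀ᶠ t in atTop, |f t - g t| ≤ ε) :
    ∃ δ, Tendsto (U f) atTop (𝓝 δ) := by
  rw [← cauchy_map_iff_exists_tendsto, Metric.cauchy_iff]
  refine ⟨inferInstance, fun ε hε => ?_⟩
  obtain ⟨g, hg, ⟨δ, hδ⟩, hfg⟩ := h (ε / 8) (by positivity)
  have h1 := hU.close f g hf hg (ε / 8) (by positivity) hfg
  have h2 := Metric.tendsto_nhds.1 hδ (ε / 8) (by positivity)
  have h3 : ∀ᶠ t in atTop, dist (U f t) δ < ε / 2 := by
    filter_upwards [h1, h2] with t a1 a2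
    rw [Real.dist_eq] at a2 ⊢
    have := abs_sub_le (U f t) (U g t) δ
    linarith
  refine ⟨{y | dist y δ < ε / 2}, h3, fun x hx y hy => ?_⟩
  have hx' : dist x δ < ε / 2 := hx
  have hy' : dist y δ < ε / 2 := hy
  have := dist_triangle_right x y δ
  linarith

end Pool.Agent.Zk39.LD
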