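import Mathlib
import Pool.Agent.Zk39.LD.Leigh2
import Pool.Agent.Zk39.LD.Mode

/-!
# Densities of almost invariant sets inside cylinders
-/

set_option autoImplicit false
set_option linter.unusedSectionVars false

namespace Pool.Agent.Zk39.GD

open Finset Pool.Agent.H319R3.GC Filter Topology MeasureTheory Pool.Agent.Zk39.LD

theorem fd_Bm (E : Set ℤ) {σ : ℤ} (hσ : σ = 1 ∨ σ = -1) : Bm (fd E σ) :=
  ⟨fd_meas E hσ, 1, fun t => by rw [abs_of_nonneg (fd_nonneg E σ t)]; exact fd_le_one E hσ t⟩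

namespace GS

variable {ι : Type} [Fintype ι] [DecidableEq ι] (G : GS ι) {ρ : ι → ℝ}

/-- general words -/
theorem Zset_word (S : ι → Set ℤ) {σ : ℤ} (X : ℝ) (i : ι) (w : List ℕ) : ∃ e : ℤ,
    ((G.Zset S σ X 1 0 i w).ncard : ℝ) =
      cn (S (G.en i w)) (σ * (G.Mv (G.ct i w)).sign) (X * |(G.Mv (G.ct i w) : ℝ)| / G.Nv (G.ct i w))
        (G.Mv (G.ct i w)).natAbs e := by
  obtain ⟨u, v, huv⟩ := G.Mv_cop_Nv (G.ct i w) (G.ct i w)
  refine ⟨-(v * G.Ww i w), ?_⟩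
  unfold Zset cn
  congr 2
  ext z
  simp only [Set.mem_ofPred_eq]
  have hiff : (((G.Mv (G.ct i w)).natAbs * 1 : ℕ) : ℤ) ∣ G.Ww i w - (G.Mv (G.ct i w) * 0 - G.Nv (G.ct i w) * z) ↔
      ((G.Mv (G.ct i w)).natAbs : ℤ) ∣ z - -(v * G.Ww i w) := by
    rw [mul_one, Int.natAbs_dvd, Int.natAbs_dvd]
    constructor
    · rintro ⟨q, hq⟩
      refine ⟨v * q + u * z, ?_⟩
      linear_combination v * hq - z * huv
    · rintro ⟨q, hq⟩
      refine ⟨G.Nv (G.ct i w) * q + u * G.Ww i w, ?_⟩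
      linear_combination (G.Nv (G.ct i w) : ℤ) * hq - G.Ww i w * huv
  rw [hiff]

theorem Mv_dvd_PB {k : ℕ} {i : ι} {w : List ℕ} (hw : w ∈ G.Pth k i) : (G.Mv (G.ct i w)).natAbs ∣ G.PB ^ k := by
  rw [natAbs_Mv]
  unfold PB
  rw [← prod_pow]
  refine prod_dvd_prod_of_dvd _ _ fun j _ => pow_dvd_pow _ ?_
  have h1 := G.ct_mem hw
  unfold Vs at h1
  rw [Fintype.mem_piFinset] at h1
  have h2 := mem_range.1 (h1 j)
  omega

/-- the part of `S i` with a given path -/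
def cyl (S : ι → Set ℤ) (k : ℕ) (i : ι) (w : List ℕ) : Set ℤ := {x | x ∈ S i ∧ G.wd k (i, x) = w}

/-- the step of a word on the logarithmic scale -/
noncomputable def xw (i : ι) (w : List ℕ) : ℝ := Real.log |(G.Mv (G.ct i w) : ℝ)| - Real.log (G.Nv (G.ct i w))

theorem sgn_word {σ : ℤ} (hσ : σ = 1 ∨ σ = -1) (v : ι → ℕ) : σ * (G.Mv v).sign = 1 ∨ σ * (G.Mv v).sign = -1 := by
  rcases lt_or_gt_of_ne (G.Mv_ne v) with h1 | h1
  · rw [Int.sign_eq_neg_one_of_neg h1]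
    rcases hσ with rfl | rfl <;> norm_num
  · rw [Int.sign_eq_one_of_pos h1]
    rcases hσ with rfl | rfl <;> norm_num

/-- density functions in a cylinder -/
theorem cyl_fd (h : G.Irr ρ) (hd : G.mm ρ < G.hh ρ) {R : ℕ} {S : ι → Set ℤ} (hS : G.QI R S) {σ : ℤ}
    (hσ : σ = 1 ∨ σ = -1) {k : ℕ} {i : ι} {w : List ℕ} (hw : w ∈ G.Pth k i) :
    Tendsto (fun t => fd (G.cyl S k i w) σ t - 1 / G.Nv (G.ct i w) *
      fd (S (G.en i w)) (σ * (G.Mv (G.ct i w)).sign) (t + G.xw i w)) atTop (𝓝 0) := by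
  obtain ⟨L₀, C, hL₀, hC, heq⟩ := G.equi h hd 1 R k
  set M := G.Mv (G.ct i w) with hM
  set K := G.Nv (G.ct i w) with hK
  set ξ := G.xw i w with hξ
  have hM0 : M ≠ 0 := G.Mv_ne _
  have hMn : 0 < M.natAbs := Int.natAbs_pos.2 hM0
  have hMR : (0 : ℝ) < |(M : ℝ)| := abs_pos.2 (by exact_mod_cast hM0)
  have hMc : ((M.natAbs : ℕ) : ℝ) = |(M : ℝ)| := by rw [Nat.cast_natAbs, Int.cast_abs]
  have hK0 : (0 : ℝ) < K := G.Nv_posR _
  set E₀ : ℝ := 2 * |(G.Ww i w : ℝ)| + 2 + k * (2 * R + 1) with hE₀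
  have hE₀0 : 0 ≤ E₀ := by positivity
  have hτ := G.sgn_word hσ (G.ct i w)
  rw [← hM] at hτ
  set τ : ℤ := σ * M.sign with hτd
  have hbound : ∀ᶠ t : ℝ in atTop, |fd (G.cyl S k i w) σ t - 1 / K * fd (S (G.en i w)) τ (t + ξ)| ≤
      E₀ * Real.exp (-t) + C / K / (t + ξ) := by
    filter_upwards [eventually_ge_atTop (L₀ - ξ), eventually_gt_atTop (-ξ)] with t ht1 ht2
    set X : ℝ := Real.exp t with hX
    have hX0 : 0 < X := Real.exp_pos t
    have hX'e : X * |(M : ℝ)| / K = Real.exp (t + ξ) := by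
      rw [Real.exp_add, hξ]
      unfold xw
      rw [Real.exp_sub, ← hM, ← hK, Real.exp_log hMR, Real.exp_log hK0]
      ring
    have hX'0 : 0 < X * |(M : ℝ)| / K := by positivity
    have hlog : Real.log (X * |(M : ℝ)| / K) = t + ξ := by rw [hX'e, Real.log_exp]
    have h1 := G.word_count hS hσ X 0 hw (Q := 1)
    obtain ⟨e, he⟩ := G.Zset_word S (σ := σ) X i w
    rw [he] at h1
    have h2 := heq S hS τ hτ _ hX'0 (by rw [hlog]; linarith) M.natAbs hMn (G.Mv_dvd_PB hw) (G.en i w) e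
    rw [hlog, hMc, pow_one] at h2
    have hA : ((G.Aset S σ X 1 0 k i w).ncard : ℝ) = cn (G.cyl S k i w) σ X 1 0 := by
      unfold cn Aset cyl
      congr 2
      ext x
      simp only [Set.mem_ofPred_eq]
      constructor
      · rintro ⟨a1, a2, a3, a4, a5⟩
        exact ⟨⟨a1, a5⟩, a2, a3, a4⟩
      · rintro ⟨⟨a1, a5⟩, a2, a3, a4⟩
        exact ⟨a1, a2, a3, a4, a5⟩
    rw [hA] at h1
    have h3 := abs_sub_le (cn (G.cyl S k i w) σ X 1 0) (cn (S (G.en i w)) τ (X * |(M : ℝ)| / K) M.natAbs e)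
      (cn (S (G.en i w)) τ (X * |(M : ℝ)| / K) 1 0 / |(M : ℝ)|)
    have h4 := h3.trans (add_le_add h1 h2)
    have h5 : fd (G.cyl S k i w) σ t - 1 / K * fd (S (G.en i w)) τ (t + ξ) =
        (cn (G.cyl S k i w) σ X 1 0 - cn (S (G.en i w)) τ (X * |(M : ℝ)| / K) 1 0 / |(M : ℝ)|) / X := by
      unfold fd
      rw [← hX'e, ← hX]
      field_simp
    rw [h5, abs_div, abs_of_pos hX0, div_le_iff₀ hX0]
    refine h4.trans (le_of_eq ?_)
    rw [add_mul, Real.exp_neg, ← hX, mul_assoc, inv_mul_cancel₀ hX0.ne', mul_one]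
    congr 1
    field_simp
  rw [tendsto_zero_iff_abs_tendsto_zero]
  refine squeeze_zero' (Eventually.of_forall fun t => abs_nonneg _) hbound ?_
  have h1 : Tendsto (fun t : ℝ => E₀ * Real.exp (-t)) atTop (𝓝 (E₀ * 0)) :=
    Real.tendsto_exp_neg_atTop_nhds_zero.const_mul _
  have h2 : Tendsto (fun t : ℝ => C / K / (t + ξ)) atTop (𝓝 0) :=
    (tendsto_atTop_add_const_right _ _ tendsto_id).const_div_atTop _
  have h3 := h1.add h2
  rw [mul_zero, add_zero] at h3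
  exact h3

theorem cyl_mode (h : G.Irr ρ) (hd : G.mm ρ < G.hh ρ) {R : ℕ} {S : ι → Set ℤ} (hS : G.QI R S) {σ : ℤ}
    (hσ : σ = 1 ∨ σ = -1) {k : ℕ} {i : ι} {w : List ℕ} (hw : w ∈ G.Pth k i) {U : (ℝ → ℝ) → ℝ → ℝ} (hU : Mode U)
    {α : ℝ} (hα : Tendsto (U (fd (S (G.en i w)) (σ * (G.Mv (G.ct i w)).sign))) atTop (𝓝 α)) :
    Tendsto (U (fd (G.cyl S k i w) σ)) atTop (𝓝 (1 / G.Nv (G.ct i w) * α)) := by
  have hτ := G.sgn_word hσ (G.ct i w)
  have hB := fd_Bm (S (G.en i w)) hτ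
  refine hU.of_sub (fd_Bm _ hσ) ((hB.shift (G.xw i w)).smul (1 / G.Nv (G.ct i w))) (G.cyl_fd h hd hS hσ hw) ?_
  have h1 := hU.shift _ hB (G.xw i w) α hα
  have h2 := h1.const_mul (1 / (G.Nv (G.ct i w) : ℝ))
  refine h2.congr fun t => ?_
  rw [hU.smul _ (hB.shift (G.xw i w))]

/-- all states are visited -/
def Full (i : ι) (w : List ℕ) : Prop := ∀ j, 1 ≤ G.ct i w j

open scoped Classical in
theorem full_large (h : G.Irr ρ) : Tendsto (fun k : ℕ => ∑ i, G.Ex k i (fun w => if G.Full i w then 0 else 1)) atTop (𝓝 0) := by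
  obtain ⟨r0, hr0, -, hr⟩ := G.exists_r0 h
  obtain ⟨C, c, hC, hc, htyp⟩ := G.typical h (show 0 < r0 / 2 by positivity)
  have h1 : Tendsto (fun k : ℕ => (Fintype.card ι : ℝ) * (C * Real.exp (-(c * k)))) atTop (𝓝 0) := by
    have h2 : Tendsto (fun k : ℕ => Real.exp (-(c * k))) atTop (𝓝 0) := by
      apply Real.tendsto_exp_neg_atTop_nhds_zero.comp
      exact tendsto_natCast_atTop_atTop.const_mul_atTop hc
    have h3 := (h2.const_mul C).const_mul (Fintype.card ι : ℝ)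
    simpa using h3
  refine squeeze_zero' (Eventually.of_forall fun k => ?_) ?_ h1
  · refine sum_nonneg fun i _ => sum_nonneg fun w _ => ?_
    have := G.Nv_posR (G.ct i w)
    beta_reduce
    split_ifs <;> positivity
  · filter_upwards [eventually_ge_atTop 1] with k hk
    have hkR : (1 : ℝ) ≤ k := by exact_mod_cast hk
    have h2 : ∀ i, G.Ex k i (fun w => if G.Full i w then 0 else 1) ≤ C * Real.exp (-(c * k)) := by
      intro i
      refine le_trans ?_ (htyp k i)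
      unfold Ex
      refine sum_le_sum fun w _ => ?_
      apply div_le_div_of_nonneg_right _ (G.Nv_posR _).le
      beta_reduce
      split_ifs with a1 a2 a2
      · exact le_rfl
      · exact zero_le_one
      · exfalso
        apply a1
        intro j
        have h3 := (abs_le.1 (a2 j)).1
        have h4 := hr j
        have h5 : (0 : ℝ) < G.ct i w j := by nlinarith
        exact_mod_cast h5
      · exact le_rfl
    refine (sum_le_sum fun i _ => h2 i).trans ?_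
    rw [sum_const, card_univ, nsmul_eq_mul]

end GS

end Pool.Agent.Zk39.GD
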