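import Mathlib
import Pool.Agent.Zk39.LD.Cyl

/-!
# The labels of an integer merge
-/

set_option autoImplicit false
set_option linter.unusedSectionVars false

namespace Pool.Agent.Zk39.GD

open Finset Pool.Agent.H319R2.Leigh Pool.Agent.W44.LM Filter Topology MeasureTheory Pool.Agent.Zk39.LD

namespace GS

variable {ι : Type} [Fintype ι] [DecidableEq ι] (G : GS ι)

theorem visit {k : ℕ} {i : ι} {x : ℤ} {j : ι} (h : 1 ≤ G.ct i (G.wd k (i, x)) j) :
    ∃ t < k, (G.step^[t] (i, x)).1 = j := by
  induction k generalizing i x with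
  | zero =>
    exfalso
    simp only [wd, ct, Pi.zero_apply] at h
    omega
  | succ k ih =>
    simp only [wd, ct, Pi.add_apply] at h
    by_cases hij : i = j
    · exact ⟨0, by omega, hij⟩
    · rw [Pi.single_eq_of_ne (fun h => hij h.symm), zero_add] at h
      obtain ⟨t, ht, h1⟩ := ih (i := (G.step (i, x)).1) (x := (G.step (i, x)).2) h
      exact ⟨t + 1, by omega, by rw [Function.iterate_succ_apply]; exact h1⟩

/-- a cylinder is a residue class -/
theorem wd_iff (k : ℕ) (i : ι) (x y : ℤ) : G.wd k (i, y) = G.wd k (i, x) ↔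
    (G.Nv (G.ct i (G.wd k (i, x))) : ℤ) ∣ y - x := by
  constructor
  · intro h
    have := G.wd_cong h
    rwa [h] at this
  · rintro ⟨q, hq⟩
    apply G.wd_of_dvd (G.wd_mem k i x)
    have h1 := G.iter_eq k i x
    refine ⟨(G.step^[k] (i, x)).2 + G.Mv (G.ct i (G.wd k (i, x))) * q, ?_⟩
    linear_combination G.Mv (G.ct i (G.wd k (i, x))) * hq - h1

end GS

variable {d : ℕ} {m r b : ℤ → ℤ} {e : ℤ → ℕ} {C : Finset (ℤ × ℕ)} {ρ : ℤ × ℕ → ℝ}

theorem state_ne (D : Data d m r b e) (hC : Class d m r e C ρ) (B : {B // B ∈ C}) : B.1.2 ≠ 0 := by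
  have : 0 < B.1.2 := state_pos D hC B.2
  omega

theorem val_mod (z : {B // B ∈ C} × ℤ) : val d C z % (d : ℤ) = z.1.1.1 % (d : ℤ) := by
  unfold val
  rw [mul_assoc, Int.add_mul_emod_self_left]

theorem fac_step (D : Data d m r b e) (hC : Class d m r e C ρ) (z : {B // B ∈ C} × ℤ) (p : ℕ) :
    ((LG D hC).step z).1.1.2.factorization p =
      z.1.1.2.factorization p + (e (val d C z % d)).factorization p - d.factorization p := by
  have h1 : ((LG D hC).step z).1.1.2 = K' d e z.1.1 := rfl
  have hk := state_ne D hC z.1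
  have he := (Pool.Agent.Zk39.PM.e_pos D z.1.1.1).ne'
  have hd := (Pool.Agent.W44.LM.d_pos D).ne'
  have hKK : KK d e z.1.1 ≠ 0 := (KK_pos D hC z.1.2).ne'
  rw [h1, val_mod]
  unfold K'
  rw [Nat.factorization_div (Nat.gcd_dvd_left _ _), Nat.factorization_gcd hKK hd]
  have h2 : (KK d e z.1.1).factorization p = z.1.1.2.factorization p + (e (z.1.1.1 % d)).factorization p := by
    unfold KK
    rw [Nat.factorization_mul hk he]
    rfl
  simp only [Finsupp.tsub_apply, Finsupp.inf_apply]
  rw [h2]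
  omega

/-- the multiplicative bookkeeping -/
theorem size_iter (D : Data d m r b e) (hC : Class d m r e C ρ) (k : ℕ) (B : {B // B ∈ C}) (y : ℤ) :
    d ^ k * ((LG D hC).step^[k] (B, y)).1.1.2 = (LG D hC).Nv ((LG D hC).ct B ((LG D hC).wd k (B, y))) * B.1.2 *
      ∏ t ∈ range k, e ((T d m r)^[t] (val d C (B, y)) % d) := by
  induction k generalizing B y with
  | zero => simp [GS.wd, GS.ct, GS.Nv_zero]
  | succ k ih =>
    have h1 := ih ((LG D hC).step (B, y)).1 ((LG D hC).step (B, y)).2
    have h2 : (((LG D hC).step (B, y)).1, ((LG D hC).step (B, y)).2) = (LG D hC).step (B, y) := rfl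
    rw [h2] at h1
    have h3 : d * ((LG D hC).step (B, y)).1.1.2 = succ d e B.1 * KK d e B.1 := d_K' D B.1
    have h4 : (LG D hC).Nv ((LG D hC).ct B ((LG D hC).wd (k + 1) (B, y))) = succ d e B.1 *
        (LG D hC).Nv ((LG D hC).ct ((LG D hC).step (B, y)).1 ((LG D hC).wd k ((LG D hC).step (B, y)))) := by
      simp only [GS.wd, GS.ct, GS.Nv_add, GS.Nv_single]
      rfl
    rw [Function.iterate_succ_apply, h4, prod_range_succ', Function.iterate_zero, id, val_mod]
    simp only [Function.iterate_succ_apply]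
    rw [← val_step D hC]
    have h5 : KK d e B.1 = B.1.2 * e (B.1.1 % d) := rfl
    rw [h5] at h3
    calc d ^ (k + 1) * ((LG D hC).step^[k] ((LG D hC).step (B, y))).1.1.2
        = d * (d ^ k * ((LG D hC).step^[k] ((LG D hC).step (B, y))).1.1.2) := by ring
      _ = (d * ((LG D hC).step (B, y)).1.1.2) * ((LG D hC).Nv ((LG D hC).ct ((LG D hC).step (B, y)).1 ((LG D hC).wd k ((LG D hC).step (B, y)))) *
          ∏ t ∈ range k, e ((T d m r)^[t] (val d C ((LG D hC).step (B, y))) % d)) := by rw [h1]; ring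
      _ = _ := by rw [h3]; ring

/-- merging of two labels -/
theorem merge_size (D : Data d m r b e) (hC : Class d m r e C ρ) {k : ℕ} {B B' : {B // B ∈ C}} {y y' : ℤ}
    (hv : val d C (B, y) = val d C (B', y')) (hf : (LG D hC).Full B ((LG D hC).wd k (B, y)))
    (hf' : (LG D hC).Full B' ((LG D hC).wd k (B', y'))) :
    ((LG D hC).step^[k] (B, y)).1.1.2 = ((LG D hC).step^[k] (B', y')).1.1.2 := by
  -- one direction
  have key : ∀ (B B' : {B // B ∈ C}) (y y' : ℤ), val d C (B, y) = val d C (B', y') →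
      (LG D hC).Full B' ((LG D hC).wd k (B', y')) → ∀ p, B.1.2.factorization p ≤ B'.1.2.factorization p →
      ((LG D hC).step^[k] (B, y)).1.1.2.factorization p = ((LG D hC).step^[k] (B', y')).1.1.2.factorization p := by
    intro B B' y y' hv hf' p hle
    have hvt : ∀ t, val d C ((LG D hC).step^[t] (B, y)) = val d C ((LG D hC).step^[t] (B', y')) := by
      intro t
      rw [val_iter, val_iter, hv]
    have hmono : ∀ t, ((LG D hC).step^[t] (B, y)).1.1.2.factorization p ≤
        ((LG D hC).step^[t] (B', y')).1.1.2.factorization p := by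
      intro t
      induction t with
      | zero => exact hle
      | succ t ih =>
        rw [Function.iterate_succ_apply', Function.iterate_succ_apply', fac_step, fac_step, hvt t]
        omega
    have hstay : ∀ t s, ((LG D hC).step^[t] (B, y)).1.1.2.factorization p =
        ((LG D hC).step^[t] (B', y')).1.1.2.factorization p →
        ((LG D hC).step^[t + s] (B, y)).1.1.2.factorization p =
        ((LG D hC).step^[t + s] (B', y')).1.1.2.factorization p := by
      intro t s h
      induction s with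
      | zero => exact h
      | succ s ih =>
        rw [← add_assoc, Function.iterate_succ_apply', Function.iterate_succ_apply', fac_step, fac_step, hvt (t + s), ih]
    obtain ⟨Bm, -, hBm⟩ := exists_min_image (univ : Finset {B // B ∈ C}) (fun B => B.1.2.factorization p) ⟨B, mem_univ _⟩
    obtain ⟨t, ht, h1⟩ := (LG D hC).visit (hf' Bm)
    have h2 := hBm ((LG D hC).step^[t] (B, y)).1 (mem_univ _)
    have h3 := hmono t
    rw [h1] at h3
    have h4 : ((LG D hC).step^[t] (B, y)).1.1.2.factorization p = ((LG D hC).step^[t] (B', y')).1.1.2.factorization p := by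
      rw [h1]
      exact le_antisymm h3 h2
    have h5 := hstay t (k - t) h4
    rwa [Nat.add_sub_cancel' ht.le] at h5
  apply Nat.eq_of_factorization_eq
  · exact state_ne D hC _
  · exact state_ne D hC _
  · intro p
    rcases le_total (B.1.2.factorization p) (B'.1.2.factorization p) with h | h
    · exact key B B' y y' hv hf' p h
    · exact (key B' B y' y hv.symm hf p h).symm

/-- the integers of a class with a given path -/
def Yc (D : Data d m r b e) (hC : Class d m r e C ρ) (k : ℕ) (B : {B // B ∈ C}) (w : List ℕ) : Set ℤ :=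
  {x | ∃ y, val d C (B, y) = x ∧ (LG D hC).wd k (B, y) = w}

theorem val_inj' (hC : Class d m r e C ρ) (B : {B // B ∈ C}) {y y' : ℤ}
    (h : val d C (B, y) = val d C (B, y')) : y = y' := by
  obtain ⟨-, -, h2⟩ := state_bd hC B
  unfold val at h
  have h3 : (d : ℤ) * B.1.2 * y = d * B.1.2 * y' := by
    have h3 : B.1.1 + (d : ℤ) * B.1.2 * y = B.1.1 + d * B.1.2 * y' := h
    linarith
  have h4 : (d : ℤ) * B.1.2 ≠ 0 := by
    intro h4
    rw [h4] at h2
    norm_num at h2
  exact mul_left_cancel₀ h4 h3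

theorem Yc_eq (D : Data d m r b e) (hC : Class d m r e C ρ) {k : ℕ} {B : {B // B ∈ C}} {w : List ℕ} {x : ℤ}
    (hx : x ∈ Yc D hC k B w) : Yc D hC k B w = {x' | ((d * (B.1.2 * (LG D hC).Nv ((LG D hC).ct B w)) : ℕ) : ℤ) ∣ x' - x} := by
  obtain ⟨y, hy, hw⟩ := hx
  obtain ⟨-, -, h2⟩ := state_bd hC B
  have h4 : (d : ℤ) * B.1.2 ≠ 0 := by
    intro h4
    rw [h4] at h2
    norm_num at h2
  ext x'
  constructor
  · rintro ⟨y', hy', hw'⟩
    have h1 := ((LG D hC).wd_iff k B y y').1 (hw'.trans hw.symm)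
    rw [hw] at h1
    obtain ⟨q, hq⟩ := h1
    refine ⟨q, ?_⟩
    rw [← hy, ← hy']
    unfold val
    push_cast
    have : B.1.1 + (d : ℤ) * B.1.2 * y' - (B.1.1 + d * B.1.2 * y) = d * B.1.2 * (y' - y) := by ring
    rw [this, hq]
    ring
  · rintro ⟨q, hq⟩
    refine ⟨y + (LG D hC).Nv ((LG D hC).ct B w) * q, ?_, ?_⟩
    · have h5 : x' = x + (x' - x) := by ring
      rw [h5, hq, ← hy]
      unfold val
      push_cast
      ring
    · rw [← hw]
      apply ((LG D hC).wd_iff k B y _).2
      rw [hw]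
      exact ⟨q, by ring⟩

/-- two good cylinders are equal or disjoint -/
theorem Yc_merge (D : Data d m r b e) (hC : Class d m r e C ρ) {k : ℕ} {B B' : {B // B ∈ C}} {w w' : List ℕ} {x : ℤ}
    (hf : (LG D hC).Full B w) (hf' : (LG D hC).Full B' w') (hx : x ∈ Yc D hC k B w) (hx' : x ∈ Yc D hC k B' w') :
    Yc D hC k B w = Yc D hC k B' w' := by
  have hmod : B.1.2 * (LG D hC).Nv ((LG D hC).ct B w) = B'.1.2 * (LG D hC).Nv ((LG D hC).ct B' w') := by
    obtain ⟨y, hy, hw⟩ := hx
    obtain ⟨y', hy', hw'⟩ := hx'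
    have hv : val d C (B, y) = val d C (B', y') := hy.trans hy'.symm
    have h1 := merge_size D hC (k := k) hv (by rw [hw]; exact hf) (by rw [hw']; exact hf')
    have h2 := size_iter D hC k B y
    have h3 := size_iter D hC k B' y'
    rw [h1, h3, hw, hw', hv] at h2
    have hpos : 0 < ∏ t ∈ range k, e ((T d m r)^[t] (val d C (B', y')) % d) :=
      prod_pos fun t _ => Pool.Agent.Zk39.PM.e_pos D _
    have h4 := Nat.eq_of_mul_eq_mul_right hpos h2
    rw [mul_comm, ← h4, mul_comm]
  rw [Yc_eq D hC hx, Yc_eq D hC hx', hmod]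

end Pool.Agent.Zk39.GD
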