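import Mathlib
import Pool.Agent.Zk39.LD.Merge

/-!
# Densities of almost invariant sets in the union of the classes
-/

set_option autoImplicit false
set_option linter.unusedSectionVars false

namespace Pool.Agent.Zk39.GD

open Finset Pool.Agent.H319R2.Leigh Pool.Agent.W44.LM Filter Topology MeasureTheory Pool.Agent.Zk39.LD

variable {d : ℕ} {m r b : ℤ → ℤ} {e : ℤ → ℕ} {C : Finset (ℤ × ℕ)} {ρ : ℤ × ℕ → ℝ}

/-! ### Counting with indicator functions -/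

theorem cn_ind (E : Set ℤ) {σ : ℤ} (hσ : σ = 1 ∨ σ = -1) (X : ℝ) :
    cn E σ X 1 0 = ∑ x ∈ (side_fin hσ X).toFinset, E.indicator (fun _ => (1 : ℝ)) x := by
  classical
  have h1 : ∑ x ∈ (side_fin hσ X).toFinset, E.indicator (fun _ => (1 : ℝ)) x =
      (((side_fin hσ X).toFinset.filter fun x => x ∈ E).card : ℝ) := by
    rw [← Finset.sum_boole]
    refine sum_congr rfl fun x _ => ?_
    rw [Set.indicator_apply]
  rw [h1]
  unfold cn
  rw [← Set.ncard_coe_finset]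
  congr 2
  ext x
  rw [mem_coe, mem_filter, Set.Finite.mem_toFinset]
  simp only [Set.mem_ofPred_eq]
  constructor
  · rintro ⟨a1, a2, a3, -⟩
    exact ⟨⟨a2, a3⟩, a1⟩
  · rintro ⟨⟨a2, a3⟩, a1⟩
    exact ⟨a1, a2, a3, by simp⟩

/-- pointwise inequalities give inequalities of density functions -/
theorem fd_le_of_ind {ι κ : Type*} (s : Finset ι) (u : Finset κ) (E : ι → Set ℤ) (F : κ → Set ℤ) {σ : ℤ}
    (hσ : σ = 1 ∨ σ = -1) (h : ∀ x : ℤ, ∑ i ∈ s, (E i).indicator (fun _ => (1 : ℝ)) x ≤ ∑ j ∈ u, (F j).indicator (fun _ => (1 : ℝ)) x)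
    (t : ℝ) : ∑ i ∈ s, fd (E i) σ t ≤ ∑ j ∈ u, fd (F j) σ t := by
  unfold fd
  rw [← sum_div, ← sum_div]
  apply div_le_div_of_nonneg_right _ (Real.exp_pos t).le
  simp only [cn_ind _ hσ]
  rw [sum_comm, sum_comm (s := u)]
  exact sum_le_sum fun x _ => h x

/-! ### The limits in the classes -/

/-- some closed path in `C` has a negative product of multipliers -/
def Mixed (d : ℕ) (m r : ℤ → ℤ) (e : ℤ → ℕ) (C : Finset (ℤ × ℕ)) : Prop :=
  ∃ (n : ℕ) (p : ℕ → ℤ × ℕ), (∀ t ≤ n, p t ∈ C) ∧ (∀ t < n, 0 < P d m r e (p t) (p (t + 1))) ∧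
    p n = p 0 ∧ ∏ t ∈ range n, m ((p t).1 % d) < 0

theorem m_eq (D : Data d m r b e) (x : ℤ) : m (x % d) = b (x % d) * e (x % d) := D.fac _ (res0 D _) (res1 D _)

theorem m_ne (D : Data d m r b e) (x : ℤ) : m (x % d) ≠ 0 := by
  rw [m_eq D]
  have h1 : 0 < e (x % d) := Pool.Agent.Zk39.PM.e_pos D x
  exact mul_ne_zero (b_ne D x) (by exact_mod_cast h1.ne')

theorem m_neg_iff (D : Data d m r b e) (x : ℤ) : m (x % d) < 0 ↔ b (x % d) < 0 := by
  rw [m_eq D]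
  have h1 : (0 : ℤ) < e (x % d) := by exact_mod_cast Pool.Agent.Zk39.PM.e_pos D x
  constructor
  · intro h
    by_contra hcon
    have := mul_nonneg (not_lt.1 hcon) h1.le
    omega
  · intro h
    exact mul_neg_of_neg_of_pos h h1

theorem mixed_pw (D : Data d m r b e) (hC : Class d m r e C ρ) (h : Mixed d m r e C) :
    ∃ i, Pw (LG D hC).pr (LG D hC).nu i i true := by
  obtain ⟨n, p, hp, hstep, hclosed, hneg⟩ := h
  have hw : ∀ (l : ℕ) (hl : l ≤ n), Pw (LG D hC).pr (LG D hC).nu ⟨p 0, hp 0 (Nat.zero_le _)⟩ ⟨p l, hp l hl⟩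
      (decide (∏ t ∈ range l, m ((p t).1 % d) < 0)) := by
    intro l
    induction l with
    | zero =>
      intro hl
      rw [range_zero, prod_empty]
      exact Pw.nil _
    | succ l ih =>
      intro hl
      have h1 := ih (by omega)
      have h3 : 0 < (LG D hC).pr ⟨p l, hp l (by omega)⟩ ⟨p (l + 1), hp (l + 1) hl⟩ := by
        rw [pr_eq D hC]
        exact hstep l (by omega)
      have h4 := h1.trans (Pw.cons h3 (Pw.nil _))
      have hne : ∏ t ∈ range l, m ((p t).1 % d) ≠ 0 := prod_ne_zero_iff.2 fun t _ => m_ne D _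
      have hne2 := m_ne D (p l).1
      have hb := m_neg_iff D (p l).1
      rw [prod_range_succ]
      have hnu : (LG D hC).nu ⟨p l, hp l (by omega)⟩ = decide (m ((p l).1 % d) < 0) := by
        unfold GS.nu
        rw [decide_eq_decide]
        exact hb.symm
      rw [hnu, Bool.xor_false] at h4
      convert h4 using 1
      generalize ∏ t ∈ range l, m ((p t).1 % d) = u at hne ⊢
      generalize m ((p l).1 % d) = v at hne2 ⊢
      rcases lt_or_gt_of_ne hne with hu | hu <;> rcases lt_or_gt_of_ne hne2 with hv | hv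
      · have h5 : 0 < u * v := mul_pos_of_neg_of_neg hu hv
        rw [decide_eq_false (not_lt.2 h5.le), decide_eq_true hu, decide_eq_true hv]
        rfl
      · have h5 : u * v < 0 := mul_neg_of_neg_of_pos hu hv
        rw [decide_eq_true h5, decide_eq_true hu, decide_eq_false (not_lt.2 hv.le)]
        rfl
      · have h5 : u * v < 0 := mul_neg_of_pos_of_neg hu hv
        rw [decide_eq_true h5, decide_eq_false (not_lt.2 hu.le), decide_eq_true hv]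
        rfl
      · have h5 : 0 < u * v := mul_pos hu hv
        rw [decide_eq_false (not_lt.2 h5.le), decide_eq_false (not_lt.2 hu.le), decide_eq_false (not_lt.2 hv.le)]
        rfl
  have h1 := hw n le_rfl
  have e0 : (⟨p n, hp n le_rfl⟩ : {B // B ∈ C}) = ⟨p 0, hp 0 (Nat.zero_le _)⟩ := Subtype.ext hclosed
  rw [e0, decide_eq_true hneg] at h1
  exact ⟨_, h1⟩

/-- all multipliers in `C` are positive -/
def AllPos (d : ℕ) (m : ℤ → ℤ) (C : Finset (ℤ × ℕ)) : Prop := ∀ B ∈ C, 0 < m (B.1 % d)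

theorem allPos_b (D : Data d m r b e) (hC : Class d m r e C ρ) (h : AllPos d m C) (i : {B // B ∈ C}) :
    0 < (LG D hC).b i := by
  have h1 := h i.1 i.2
  have h2 := m_neg_iff D i.1.1
  have h3 : (LG D hC).b i = b (i.1.1 % d) := rfl
  have h4 := b_ne D i.1.1
  rw [h3]
  by_contra hcon
  have h5 : b (i.1.1 % d) < 0 := lt_of_le_of_ne (not_lt.1 hcon) h4
  have := h2.2 h5
  omega

theorem side_mode (D : Data d m r b e) (hC : Class d m r e C ρ) (hL : Lam d m C ρ < 1) {R : ℕ} {A : Set ℤ}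
    (hA : InvOut d m r C R A) : ∃ α : ℤ → {B // B ∈ C} → ℝ, ∃ (a : ℝ) (s : ℤ → ℝ), 0 ≤ a ∧ a ≤ 1 ∧
      (∀ B, α 1 B + α (-1) B = 2 * a) ∧
      (∀ σ : ℤ, (σ = 1 ∨ σ = -1) → 0 ≤ s σ ∧ s σ ≤ 1 ∧
        ((Mixed d m r e C ∨ AllPos d m C) → ∀ B, α σ B = s σ) ∧ (Mixed d m r e C → s σ = a) ∧
        (Mixed d m r e C → ∀ τ : ℤ, (τ = 1 ∨ τ = -1) → s τ = s σ)) ∧
      (∀ σ : ℤ, (σ = 1 ∨ σ = -1) → ∀ B, Tendsto (ces (fd (SA d C A B) σ)) atTop (𝓝 (α σ B)) ∧
        (Nonlat d m r e C → Tendsto (fd (SA d C A B) σ) atTop (𝓝 (α σ B)))) := by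
  obtain ⟨Kα, hKα⟩ := (LG D hC).sides' (irr D hC) (drift D hC hL) (R + 1)
  obtain ⟨α, hα, hsum, hmix, hpos⟩ := hKα (SA d C A) (QI_SA D hC hA)
  obtain ⟨B₀, hB₀⟩ : C.Nonempty := by
    rw [Finset.nonempty_iff_ne_empty]
    intro h0
    have := hC.sum_one
    rw [h0, sum_empty] at this
    exact zero_ne_one this
  refine ⟨α, (α 1 ⟨B₀, hB₀⟩ + α (-1) ⟨B₀, hB₀⟩) / 2, fun σ => α σ ⟨B₀, hB₀⟩, ?_, ?_, ?_, ?_, ?_⟩
  · have h1 := (hα 1 (Or.inl rfl) ⟨B₀, hB₀⟩).1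
    have h2 := (hα (-1) (Or.inr rfl) ⟨B₀, hB₀⟩).1
    linarith
  · have h1 := (hα 1 (Or.inl rfl) ⟨B₀, hB₀⟩).2.1
    have h2 := (hα (-1) (Or.inr rfl) ⟨B₀, hB₀⟩).2.1
    linarith
  · intro B
    rw [hsum B ⟨B₀, hB₀⟩]
    ring
  · intro σ hσ
    refine ⟨(hα σ hσ _).1, (hα σ hσ _).2.1, fun h B => ?_, fun h => ?_, fun h τ hτ => ?_⟩
    · rcases h with h | h
      · exact hmix (mixed_pw D hC h) σ hσ σ hσ _ _
      · exact hpos (allPos_b D hC h) σ hσ _ _
    · have h1 := hmix (mixed_pw D hC h) σ hσ 1 (Or.inl rfl) ⟨B₀, hB₀⟩ ⟨B₀, hB₀⟩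
      have h2 := hmix (mixed_pw D hC h) σ hσ (-1) (Or.inr rfl) ⟨B₀, hB₀⟩ ⟨B₀, hB₀⟩
      linarith
    · exact hmix (mixed_pw D hC h) τ hτ σ hσ _ _
  · intro σ hσ B
    obtain ⟨-, -, hint, hnat⟩ := hα σ hσ B
    refine ⟨?_, fun h => hnat (nonlat D hC h)⟩
    rw [tendsto_iff_dist_tendsto_zero]
    have h2 : Tendsto (fun L : ℝ => Kα / L) atTop (𝓝 0) := tendsto_id.const_div_atTop _
    refine squeeze_zero' (Eventually.of_forall fun t => dist_nonneg) ?_ h2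
    filter_upwards [eventually_gt_atTop 0] with L hL
    unfold ces
    rw [Real.dist_eq, le_div_iff₀ hL, ← abs_of_pos hL, ← abs_mul, abs_of_pos hL, sub_mul, div_mul_cancel₀ _ hL.ne']
    exact hint L hL.le

/-- the two kinds of limits -/
def Kind (d : ℕ) (m r : ℤ → ℤ) (e : ℤ → ℕ) (C : Finset (ℤ × ℕ)) (U : (ℝ → ℝ) → ℝ → ℝ) : Prop :=
  U = ces ∨ (U = (fun f => f) ∧ Nonlat d m r e C)

theorem Kind.mode {U : (ℝ → ℝ) → ℝ → ℝ} (h : Kind d m r e C U) : Mode U := by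
  rcases h with rfl | ⟨rfl, -⟩
  · exact mode_ces
  · exact mode_id

theorem Kind.lim {U : (ℝ → ℝ) → ℝ → ℝ} (h : Kind d m r e C U) {f : ℝ → ℝ} {α : ℝ}
    (hf : Tendsto (ces f) atTop (𝓝 α) ∧ (Nonlat d m r e C → Tendsto f atTop (𝓝 α))) : Tendsto (U f) atTop (𝓝 α) := by
  rcases h with rfl | ⟨rfl, h⟩
  · exact hf.1
  · exact hf.2 h

/-! ### Cylinders -/

theorem Yc_sub (D : Data d m r b e) (hC : Class d m r e C ρ) (k : ℕ) (B : {B // B ∈ C}) (w : List ℕ) :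
    Yc D hC k B w ⊆ cls d B.1 := by
  rintro x ⟨y, rfl, -⟩
  exact val_mem_cls B y

theorem SA_Yc (D : Data d m r b e) (hC : Class d m r e C ρ) (A : Set ℤ) (k : ℕ) (B : {B // B ∈ C}) (w : List ℕ) :
    SA d C (A ∩ Yc D hC k B w) B = (LG D hC).cyl (SA d C A) k B w := by
  ext y
  constructor
  · rintro ⟨h1, y', h2, h3⟩
    have h4 := val_inj' hC B h2
    subst h4
    exact ⟨h1, h3⟩
  · rintro ⟨h1, h2⟩
    exact ⟨h1, y, rfl, h2⟩

/-- the modulus of a cylinder -/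
noncomputable def md (D : Data d m r b e) (hC : Class d m r e C ρ) (B : {B // B ∈ C}) (w : List ℕ) : ℝ :=
  (d : ℝ) * B.1.2 * ((LG D hC).Nv ((LG D hC).ct B w) : ℕ)

theorem Yc_mode (D : Data d m r b e) (hC : Class d m r e C ρ) (hL : Lam d m C ρ < 1) {R : ℕ} {A : Set ℤ}
    (hA : InvOut d m r C R A) {k : ℕ} {B : {B // B ∈ C}} {w : List ℕ} (hw : w ∈ (LG D hC).Pth k B) {σ : ℤ}
    (hσ : σ = 1 ∨ σ = -1) {U : (ℝ → ℝ) → ℝ → ℝ} (hU : Mode U) {α : ℝ}
    (hα : Tendsto (U (fd (SA d C A ((LG D hC).en B w)) (σ * ((LG D hC).Mv ((LG D hC).ct B w)).sign))) atTop (𝓝 α)) :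
    Tendsto (U (fd (A ∩ Yc D hC k B w) σ)) atTop (𝓝 (α / md D hC B w)) := by
  set N : ℝ := (((LG D hC).Nv ((LG D hC).ct B w) : ℕ) : ℝ) with hN
  have hN0 : 0 < N := (LG D hC).Nv_posR _
  obtain ⟨-, -, h2⟩ := state_bd hC B
  set q : ℝ := (d : ℝ) * B.1.2 with hq
  have hq1 : 1 ≤ q := by rw [hq]; exact_mod_cast h2
  have hq0 : 0 < q := by linarith
  have hmd : α / md D hC B w = 1 / q * (1 / N * α) := by
    have h4 : md D hC B w = q * N := rfl
    rw [h4]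
    field_simp
  rw [hmd]
  have h3 := (LG D hC).cyl_mode (irr D hC) (drift D hC hL) (QI_SA D hC hA) hσ hw hU hα
  rw [← SA_Yc] at h3
  have hB := fd_Bm (SA d C (A ∩ Yc D hC k B w) B) hσ
  refine hU.of_sub (fd_Bm _ hσ) ((hB.shift (-Real.log q)).smul (1 / q)) ?_ ?_
  · rw [tendsto_zero_iff_abs_tendsto_zero]
    have h5 : Tendsto (fun t : ℝ => 4 * Real.exp (-t)) atTop (𝓝 (4 * 0)) :=
      Real.tendsto_exp_neg_atTop_nhds_zero.const_mul 4
    rw [mul_zero] at h5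
    refine squeeze_zero (fun t => abs_nonneg _) (fun t => ?_) h5
    have h6 := fd_cls hC (A ∩ Yc D hC k B w) B hσ t
    have h7 : (A ∩ Yc D hC k B w) ∩ cls d B.1 = A ∩ Yc D hC k B w := by
      rw [Set.inter_eq_left]
      exact fun x hx => Yc_sub D hC k B w hx.2
    rw [h7] at h6
    simp only [Function.comp]
    rw [one_div, inv_mul_eq_div, ← sub_eq_add_neg]
    exact h6
  · have h8 := hU.shift _ hB (-Real.log q) _ h3
    refine (h8.const_mul (1 / q)).congr fun t => ?_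
    rw [hU.smul _ (hB.shift (-Real.log q))]

theorem Yc_lim (D : Data d m r b e) (hC : Class d m r e C ρ) (hL : Lam d m C ρ < 1) {R : ℕ} {A : Set ℤ}
    (hA : InvOut d m r C R A) : ∃ (a : ℝ) (s : ℤ → ℝ), 0 ≤ a ∧ a ≤ 1 ∧
      (∀ σ : ℤ, (σ = 1 ∨ σ = -1) → 0 ≤ s σ ∧ s σ ≤ 1 ∧ (Mixed d m r e C → s σ = a)) ∧
      ∀ (k : ℕ) (B : {B // B ∈ C}) (w : List ℕ), w ∈ (LG D hC).Pth k B →
      ∃ β : ℤ → ℝ, β 1 + β (-1) = 2 * a / md D hC B w ∧ ∀ σ : ℤ, (σ = 1 ∨ σ = -1) →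
        ((Mixed d m r e C ∨ AllPos d m C) → β σ = s σ / md D hC B w) ∧ ∀ U, Kind d m r e C U →
        Tendsto (U (fd (A ∩ Yc D hC k B w) σ)) atTop (𝓝 (β σ)) := by
  obtain ⟨α, a, s, ha0, ha1, hsum, hs, hα⟩ := side_mode D hC hL hA
  refine ⟨a, s, ha0, ha1, fun σ hσ => ⟨(hs σ hσ).1, (hs σ hσ).2.1, (hs σ hσ).2.2.2.1⟩, fun k B w hw => ?_⟩
  refine ⟨fun σ => α (σ * ((LG D hC).Mv ((LG D hC).ct B w)).sign) ((LG D hC).en B w) / md D hC B w, ?_, fun σ hσ => ⟨fun h => ?_, ?_⟩⟩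
  · have h1 : α (1 * ((LG D hC).Mv ((LG D hC).ct B w)).sign) ((LG D hC).en B w) +
        α (-1 * ((LG D hC).Mv ((LG D hC).ct B w)).sign) ((LG D hC).en B w) = 2 * a := by
      have h3 := hsum ((LG D hC).en B w)
      rcases lt_or_gt_of_ne ((LG D hC).Mv_ne ((LG D hC).ct B w)) with h | h
      · rw [Int.sign_eq_neg_one_of_neg h]
        norm_num
        linarith
      · rw [Int.sign_eq_one_of_pos h]
        norm_num
        linarith
    beta_reduce
    rw [← add_div, h1]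
  · have hτ := (LG D hC).sgn_word hσ ((LG D hC).ct B w)
    beta_reduce
    congr 1
    rcases h with h | h
    · rw [(hs _ hτ).2.2.1 (Or.inl h)]
      exact (hs σ hσ).2.2.2.2 h _ hτ
    · have hM : 0 < (LG D hC).Mv ((LG D hC).ct B w) := prod_pos fun j _ => pow_pos (allPos_b D hC h j) _
      rw [Int.sign_eq_one_of_pos hM, mul_one]
      exact (hs σ hσ).2.2.1 (Or.inr h) _
  · intro U hU
    exact Yc_mode D hC hL hA hw hσ hU.mode (hU.lim (hα _ ((LG D hC).sgn_word hσ ((LG D hC).ct B w)) ((LG D hC).en B w)))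

/-- the whole line -/
theorem fd_univ {σ : ℤ} (hσ : σ = 1 ∨ σ = -1) : Tendsto (fd Set.univ σ) atTop (𝓝 1) := by
  have h1 : ∀ t : ℝ, |fd Set.univ σ t - 1| ≤ Real.exp (-t) := by
    intro t
    have hE := Real.exp_pos t
    have h2 : cn Set.univ σ (Real.exp t) 1 0 = (⌊Real.exp t⌋₊ : ℝ) := by
      rw [cn_eq_sd _ hσ hE.le]
      have : sd Set.univ σ ⌊Real.exp t⌋₊ = Icc 1 ⌊Real.exp t⌋₊ := by
        ext n
        rw [mem_sd, mem_Icc]
        simp
      rw [this, Nat.card_Icc]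
      simp
    have h3 := Nat.floor_le hE.le
    have h4 := Nat.lt_floor_add_one (Real.exp t)
    unfold fd
    rw [h2, div_sub_one hE.ne', abs_div, abs_of_pos hE, Real.exp_neg, ← one_div]
    apply div_le_div_of_nonneg_right _ hE.le
    rw [abs_le]
    constructor <;> linarith
  rw [tendsto_iff_dist_tendsto_zero]
  refine squeeze_zero (fun t => dist_nonneg) (fun t => ?_) Real.tendsto_exp_neg_atTop_nhds_zero
  rw [Real.dist_eq]
  exact h1 t

theorem Yc_dens (D : Data d m r b e) (hC : Class d m r e C ρ) (hL : Lam d m C ρ < 1) {k : ℕ} {B : {B // B ∈ C}}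
    {w : List ℕ} (hw : w ∈ (LG D hC).Pth k B) {σ : ℤ} (hσ : σ = 1 ∨ σ = -1) :
    Tendsto (fd (Yc D hC k B w) σ) atTop (𝓝 (1 / md D hC B w)) := by
  have h1 : InvOut d m r C 0 Set.univ := fun x _ _ => by simp
  have h2 : ∀ B, SA d C Set.univ B = Set.univ := fun B => by
    ext y
    exact ⟨fun _ => trivial, fun _ => trivial⟩
  have h3 := Yc_mode D hC hL h1 hw hσ mode_id (α := 1) (by
    rw [h2]
    exact fd_univ ((LG D hC).sgn_word hσ _))
  rwa [Set.univ_inter] at h3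

theorem fd_Yc_le (D : Data d m r b e) (hC : Class d m r e C ρ) (k : ℕ) (B : {B // B ∈ C}) (w : List ℕ) {σ : ℤ}
    (hσ : σ = 1 ∨ σ = -1) (t : ℝ) :
    fd (Yc D hC k B w) σ t ≤ 1 / (LG D hC).Nv ((LG D hC).ct B w) + Real.exp (-t) := by
  have hN0 := (LG D hC).Nv_posR ((LG D hC).ct B w)
  rcases (Yc D hC k B w).eq_empty_or_nonempty with h | ⟨x, hx⟩
  · rw [h]
    unfold fd cn
    simp only [Set.mem_empty_iff_false, false_and, Set.ofPred_false, Set.ncard_empty, Nat.cast_zero, zero_div]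
    positivity
  · have h1 := Yc_eq D hC hx
    obtain ⟨-, -, h2⟩ := state_bd hC B
    have hq1 : (1 : ℝ) ≤ (d : ℝ) * B.1.2 := by exact_mod_cast h2
    set Q : ℕ := d * (B.1.2 * (LG D hC).Nv ((LG D hC).ct B w)) with hQ
    have hQR : (Q : ℝ) = (d : ℝ) * B.1.2 * (LG D hC).Nv ((LG D hC).ct B w) := by
      rw [hQ]
      push_cast
      ring
    have hQ0 : 0 < Q := by
      have : (0 : ℝ) < Q := by rw [hQR]; positivity
      exact_mod_cast this
    have h3 := cn_le Set.univ hσ (Real.exp_pos t).le hQ0 x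
    have h4 : cn Set.univ σ (Real.exp t) Q x = cn (Yc D hC k B w) σ (Real.exp t) 1 0 := by
      unfold cn
      rw [h1]
      congr 2
      ext x'
      simp only [Set.mem_ofPred_eq, Set.mem_univ, true_and]
      constructor
      · rintro ⟨a1, a2, a3⟩
        exact ⟨a3, a1, a2, by simp⟩
      · rintro ⟨a3, a1, a2, -⟩
        exact ⟨a1, a2, a3⟩
    rw [h4] at h3
    unfold fd
    rw [div_le_iff₀ (Real.exp_pos t), add_mul, Real.exp_neg, inv_mul_cancel₀ (Real.exp_pos t).ne']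
    refine h3.trans ?_
    gcongr
    rw [hQR, div_le_iff₀ (by positivity)]
    have : 1 / ((LG D hC).Nv ((LG D hC).ct B w) : ℝ) * Real.exp t * ((d : ℝ) * B.1.2 * (LG D hC).Nv ((LG D hC).ct B w)) =
        Real.exp t * ((d : ℝ) * B.1.2) := by field_simp
    rw [this]
    exact le_mul_of_one_le_right (Real.exp_pos t).le hq1

open scoped Classical in
/-- the good cylinders -/
noncomputable def YY (D : Data d m r b e) (hC : Class d m r e C ρ) (k : ℕ) : Finset (Set ℤ) :=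
  univ.biUnion fun B => (((LG D hC).Pth k B).filter fun w => (LG D hC).Full B w).image fun w => Yc D hC k B w

theorem mem_YY (D : Data d m r b e) (hC : Class d m r e C ρ) {k : ℕ} {Y : Set ℤ} : Y ∈ YY D hC k ↔
    ∃ B w, w ∈ (LG D hC).Pth k B ∧ (LG D hC).Full B w ∧ Yc D hC k B w = Y := by
  classical
  unfold YY
  simp only [mem_biUnion, mem_univ, true_and, mem_image, mem_filter]
  constructor
  · rintro ⟨B, w, ⟨h1, h2⟩, h3⟩
    exact ⟨B, w, h1, h2, h3⟩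
  · rintro ⟨B, w, h1, h2, h3⟩
    exact ⟨B, w, ⟨h1, h2⟩, h3⟩

theorem YY_sub (D : Data d m r b e) (hC : Class d m r e C ρ) {k : ℕ} {Y : Set ℤ} (hY : Y ∈ YY D hC k) : Y ⊆ S d C := by
  obtain ⟨B, w, -, -, rfl⟩ := (mem_YY D hC).1 hY
  rintro x ⟨y, rfl, -⟩
  exact val_mem_S B y

theorem YY_disj (D : Data d m r b e) (hC : Class d m r e C ρ) {k : ℕ} {Y Y' : Set ℤ} (hY : Y ∈ YY D hC k)
    (hY' : Y' ∈ YY D hC k) {x : ℤ} (hx : x ∈ Y) (hx' : x ∈ Y') : Y = Y' := by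
  obtain ⟨B, w, -, h2, rfl⟩ := (mem_YY D hC).1 hY
  obtain ⟨B', w', -, h2', rfl⟩ := (mem_YY D hC).1 hY'
  exact Yc_merge D hC h2 h2' hx hx'

open scoped Classical in
/-- the bad cylinders -/
noncomputable def bad (D : Data d m r b e) (hC : Class d m r e C ρ) (k : ℕ) : Finset (Σ _ : {B // B ∈ C}, List ℕ) :=
  univ.sigma fun B => ((LG D hC).Pth k B).filter fun w => ¬(LG D hC).Full B w

theorem ind_low (D : Data d m r b e) (hC : Class d m r e C ρ) (A : Set ℤ) (k : ℕ) (x : ℤ) :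
    ∑ Y ∈ YY D hC k, (A ∩ Y).indicator (fun _ => (1 : ℝ)) x ≤ (A ∩ S d C).indicator (fun _ => (1 : ℝ)) x := by
  classical
  by_cases hx : ∃ Y ∈ YY D hC k, x ∈ A ∩ Y
  · obtain ⟨Y₀, hY₀, hxA, hxY⟩ := hx
    rw [sum_eq_single Y₀]
    · rw [Set.indicator_of_mem (s := A ∩ Y₀) ⟨hxA, hxY⟩, Set.indicator_of_mem (s := A ∩ S d C) ⟨hxA, YY_sub D hC hY₀ hxY⟩]
    · intro Y hY hne
      apply Set.indicator_of_notMem
      rintro ⟨-, h⟩
      exact hne (YY_disj D hC hY hY₀ h hxY)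
    · intro h
      exact absurd hY₀ h
  · push Not at hx
    rw [sum_eq_zero fun Y hY => Set.indicator_of_notMem (hx Y hY) _]
    exact Set.indicator_nonneg (fun _ _ => zero_le_one) x

theorem ind_high (D : Data d m r b e) (hC : Class d m r e C ρ) (A : Set ℤ) (k : ℕ) (x : ℤ) :
    (A ∩ S d C).indicator (fun _ => (1 : ℝ)) x ≤ ∑ Y ∈ YY D hC k, (A ∩ Y).indicator (fun _ => (1 : ℝ)) x +
      ∑ z ∈ bad D hC k, (Yc D hC k z.1 z.2).indicator (fun _ => (1 : ℝ)) x := by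
  classical
  have h1 : 0 ≤ ∑ Y ∈ YY D hC k, (A ∩ Y).indicator (fun _ => (1 : ℝ)) x :=
    sum_nonneg fun Y _ => Set.indicator_nonneg (fun _ _ => zero_le_one) x
  have h2 : 0 ≤ ∑ z ∈ bad D hC k, (Yc D hC k z.1 z.2).indicator (fun _ => (1 : ℝ)) x :=
    sum_nonneg fun z _ => Set.indicator_nonneg (fun _ _ => zero_le_one) x
  by_cases hx : x ∈ A ∩ S d C
  · rw [Set.indicator_of_mem hx]
    obtain ⟨hxA, B₀, hB₀, hxB⟩ := hx
    obtain ⟨y, hy⟩ := exists_val (B := ⟨B₀, hB₀⟩) (x := x) hxB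
    have hmem := (LG D hC).wd_mem k ⟨B₀, hB₀⟩ y
    have hxY : x ∈ Yc D hC k ⟨B₀, hB₀⟩ ((LG D hC).wd k (⟨B₀, hB₀⟩, y)) := ⟨y, hy, rfl⟩
    by_cases hf : (LG D hC).Full ⟨B₀, hB₀⟩ ((LG D hC).wd k (⟨B₀, hB₀⟩, y))
    · have h3 := single_le_sum (f := fun Y : Set ℤ => (A ∩ Y).indicator (fun _ => (1 : ℝ)) x)
        (fun Y _ => Set.indicator_nonneg (fun _ _ => zero_le_one) x) ((mem_YY D hC).2 ⟨_, _, hmem, hf, rfl⟩)
      beta_reduce at h3
      rw [Set.indicator_of_mem (s := A ∩ Yc D hC k ⟨B₀, hB₀⟩ ((LG D hC).wd k (⟨B₀, hB₀⟩, y))) ⟨hxA, hxY⟩] at h3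
      linarith
    · have hz : (⟨⟨B₀, hB₀⟩, (LG D hC).wd k (⟨B₀, hB₀⟩, y)⟩ : Σ _ : {B // B ∈ C}, List ℕ) ∈ bad D hC k := by
        unfold bad
        rw [mem_sigma]
        exact ⟨mem_univ _, mem_filter.2 ⟨hmem, hf⟩⟩
      have h3 := single_le_sum (f := fun z : Σ _ : {B // B ∈ C}, List ℕ => (Yc D hC k z.1 z.2).indicator (fun _ => (1 : ℝ)) x)
        (fun z _ => Set.indicator_nonneg (fun _ _ => zero_le_one) x) hz
      beta_reduce at h3
      rw [Set.indicator_of_mem hxY] at h3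
      linarith
  · rw [Set.indicator_of_notMem hx]
    linarith

/-- approximation by good cylinders -/
theorem approx (D : Data d m r b e) (hC : Class d m r e C ρ) {ε : ℝ} (hε : 0 < ε) :
    ∃ k : ℕ, ∀ (A : Set ℤ) (σ : ℤ), (σ = 1 ∨ σ = -1) → ∀ᶠ t in atTop,
      |fd (A ∩ S d C) σ t - ∑ Y ∈ YY D hC k, fd (A ∩ Y) σ t| ≤ ε := by
  classical
  have h1 := (LG D hC).full_large (irr D hC)
  obtain ⟨k, hk⟩ := (h1.eventually (gt_mem_nhds (show 0 < ε / 2 by positivity))).exists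
  refine ⟨k, fun A σ hσ => ?_⟩
  have hcard : Tendsto (fun t : ℝ => ((bad D hC k).card : ℝ) * Real.exp (-t)) atTop (𝓝 ((bad D hC k).card * 0)) :=
    Real.tendsto_exp_neg_atTop_nhds_zero.const_mul _
  rw [mul_zero] at hcard
  filter_upwards [hcard.eventually (gt_mem_nhds (show 0 < ε / 2 by positivity))] with t ht
  have hlow := fd_le_of_ind (YY D hC k) {(0 : Fin 1)} (fun Y => A ∩ Y) (fun _ => A ∩ S d C) hσ (fun x => by
    rw [sum_singleton]; exact ind_low D hC A k x) t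
  rw [sum_singleton] at hlow
  have hhigh : fd (A ∩ S d C) σ t ≤ ∑ Y ∈ YY D hC k, fd (A ∩ Y) σ t + ∑ z ∈ bad D hC k, fd (Yc D hC k z.1 z.2) σ t := by
    have h2 := fd_le_of_ind {(0 : Fin 1)} ((YY D hC k).disjSum (bad D hC k)) (fun _ => A ∩ S d C)
      (fun z => Sum.elim (fun Y => A ∩ Y) (fun z => Yc D hC k z.1 z.2) z) hσ (fun x => by
        rw [sum_singleton, sum_disjSum]
        exact ind_high D hC A k x) t
    rw [sum_singleton, sum_disjSum] at h2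
    exact h2
  have hbad : ∑ z ∈ bad D hC k, fd (Yc D hC k z.1 z.2) σ t ≤ ε := by
    refine (sum_le_sum fun z _ => fd_Yc_le D hC k z.1 z.2 hσ t).trans ?_
    rw [sum_add_distrib, sum_const, nsmul_eq_mul]
    have h3 : ∑ z ∈ bad D hC k, (1 : ℝ) / (LG D hC).Nv ((LG D hC).ct z.1 z.2) =
        ∑ i, (LG D hC).Ex k i (fun w => if (LG D hC).Full i w then 0 else 1) := by
      unfold bad
      rw [sum_sigma]
      refine sum_congr rfl fun B _ => ?_
      unfold GS.Ex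
      rw [sum_filter]
      refine sum_congr rfl fun w _ => ?_
      by_cases hf : (LG D hC).Full B w
      · simp [hf]
      · simp [hf]
    rw [h3]
    linarith
  rw [abs_le]
  constructor <;> linarith

theorem Mode.lim_zero {U : (ℝ → ℝ) → ℝ → ℝ} (hU : Mode U) {f : ℝ → ℝ} (hf : Bm f)
    (h : ∀ ε : ℝ, 0 < ε → ∃ g, Bm g ∧ Tendsto (U g) atTop (𝓝 0) ∧ ∀ᶠ t in atTop, |f t - g t| ≤ ε) :
    Tendsto (U f) atTop (𝓝 0) := by
  rw [Metric.tendsto_nhds]
  intro ε hε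
  obtain ⟨g, hg, hδ, hfg⟩ := h (ε / 8) (by positivity)
  have h1 := hU.close f g hf hg (ε / 8) (by positivity) hfg
  have h2 := Metric.tendsto_nhds.1 hδ (ε / 8) (by positivity)
  filter_upwards [h1, h2] with t a1 a2
  rw [Real.dist_eq] at a2 ⊢
  have := abs_sub_le (U f t) (U g t) 0
  linarith

end Pool.Agent.Zk39.GD
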