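import Mathlib
import Pool.Agent.Zk39.LD.Union

/-!
# Densities of almost invariant sets in the union of the classes: existence
-/

set_option autoImplicit false
set_option linter.unusedSectionVars false

namespace Pool.Agent.Zk39.GD

open Finset Pool.Agent.H319R2.Leigh Pool.Agent.W44.LM Filter Topology MeasureTheory Pool.Agent.Zk39.LD

variable {d : ℕ} {m r b : ℤ → ℤ} {e : ℤ → ℕ} {C : Finset (ℤ × ℕ)} {ρ : ℤ × ℕ → ℝ}

theorem Bm_const (c : ℝ) : Bm fun _ => c := ⟨measurable_const, |c|, fun _ => le_rfl⟩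

theorem _root_.Pool.Agent.Zk39.LD.Bm.sub {f g : ℝ → ℝ} (hf : Bm f) (hg : Bm g) : Bm fun t => f t - g t := by
  have h1 := hf.add (hg.smul (-1))
  have h2 : (fun t => f t + -1 * g t) = fun t => f t - g t := funext fun t => by ring
  rwa [h2] at h1

theorem _root_.Pool.Agent.Zk39.LD.Mode.sub {U : (ℝ → ℝ) → ℝ → ℝ} (hU : Mode U) {f g : ℝ → ℝ} (hf : Bm f) (hg : Bm g) (t : ℝ) :
    U (fun t => f t - g t) t = U f t - U g t := by
  have h2 : (fun t => f t - g t) = fun t => f t + (fun t => -1 * g t) t := funext fun t => by ring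
  rw [h2, hU.add _ _ hf (hg.smul (-1)), hU.smul _ hg]
  ring

theorem _root_.Pool.Agent.Zk39.LD.Mode.tsub {U : (ℝ → ℝ) → ℝ → ℝ} (hU : Mode U) {f g : ℝ → ℝ} (hf : Bm f) (hg : Bm g)
    {α β : ℝ} (h1 : Tendsto (U f) atTop (𝓝 α)) (h2 : Tendsto (U g) atTop (𝓝 β)) :
    Tendsto (U fun t => f t - g t) atTop (𝓝 (α - β)) :=
  (h1.sub h2).congr fun t => (hU.sub hf hg t).symm

theorem _root_.Pool.Agent.Zk39.LD.Mode.tadd {U : (ℝ → ℝ) → ℝ → ℝ} (hU : Mode U) {f g : ℝ → ℝ} (hf : Bm f) (hg : Bm g)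
    {α β : ℝ} (h1 : Tendsto (U f) atTop (𝓝 α)) (h2 : Tendsto (U g) atTop (𝓝 β)) :
    Tendsto (U fun t => f t + g t) atTop (𝓝 (α + β)) :=
  (h1.add h2).congr fun t => (hU.add _ _ hf hg t).symm

theorem _root_.Pool.Agent.Zk39.LD.Mode.tsmul {U : (ℝ → ℝ) → ℝ → ℝ} (hU : Mode U) {f : ℝ → ℝ} (hf : Bm f) (c : ℝ)
    {α : ℝ} (h1 : Tendsto (U f) atTop (𝓝 α)) : Tendsto (U fun t => c * f t) atTop (𝓝 (c * α)) :=
  (h1.const_mul c).congr fun t => (hU.smul _ hf c t).symm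

/-- logarithmic density -/
def Has (E : Set ℤ) (σ : ℤ) (δ : ℝ) : Prop := Tendsto (ces (fd E σ)) atTop (𝓝 δ)

theorem ces_const (δ : ℝ) : Tendsto (ces fun _ => δ) atTop (𝓝 δ) := by
  refine (tendsto_const_nhds (x := δ)).congr' ?_
  filter_upwards [eventually_gt_atTop 0] with L hL
  unfold ces
  rw [intervalIntegral.integral_const, smul_eq_mul, sub_zero, mul_div_assoc, mul_comm, div_mul_cancel₀ _ hL.ne']

theorem ces_of_lim {f : ℝ → ℝ} (hf : Bm f) {δ : ℝ} (h : Tendsto f atTop (𝓝 δ)) : Tendsto (ces f) atTop (𝓝 δ) := by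
  refine mode_ces.of_sub hf (Bm_const δ) ?_ (ces_const δ)
  have h1 := h.sub_const δ
  rwa [sub_self] at h1

theorem YY_lim (D : Data d m r b e) (hC : Class d m r e C ρ) (hL : Lam d m C ρ < 1) {R : ℕ} {A : Set ℤ}
    (hA : InvOut d m r C R A) : ∃ a : ℝ, 0 ≤ a ∧ a ≤ 1 ∧ ∀ k, ∀ Y ∈ YY D hC k, ∃ (β : ℤ → ℝ) (μ : ℝ),
      β 1 + β (-1) = 2 * a * μ ∧ (∀ σ : ℤ, (σ = 1 ∨ σ = -1) → ∀ U, Kind d m r e C U →
        Tendsto (U (fd (A ∩ Y) σ)) atTop (𝓝 (β σ))) ∧ ∀ σ : ℤ, (σ = 1 ∨ σ = -1) → Tendsto (fd Y σ) atTop (𝓝 μ) := by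
  obtain ⟨a, s, ha0, ha1, -, h⟩ := Yc_lim D hC hL hA
  refine ⟨a, ha0, ha1, fun k Y hY => ?_⟩
  obtain ⟨B, w, hw, -, rfl⟩ := (mem_YY D hC).1 hY
  obtain ⟨β, h1, h2⟩ := h k B w hw
  exact ⟨β, 1 / md D hC B w, by rw [h1]; ring, fun σ hσ => (h2 σ hσ).2, fun σ hσ => Yc_dens D hC hL hw hσ⟩

/-- the density of `S_C` -/
theorem S_dens (D : Data d m r b e) (hC : Class d m r e C ρ) (hL : Lam d m C ρ < 1) :
    ∃ κ : ℝ, 0 < κ ∧ ∀ σ : ℤ, (σ = 1 ∨ σ = -1) → Tendsto (fd (S d C) σ) atTop (𝓝 κ) := by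
  have hu : InvOut d m r C 0 Set.univ := fun x _ _ => by simp
  obtain ⟨a, -, -, hY⟩ := YY_lim D hC hL hu
  choose! β μ hβ1 hβ2 hμ using hY
  have hex : ∀ σ : ℤ, (σ = 1 ∨ σ = -1) → ∃ κ, Tendsto (fd (S d C) σ) atTop (𝓝 κ) := by
    intro σ hσ
    apply mode_id.exists_lim (fd_Bm _ hσ)
    intro ε hε
    obtain ⟨k, hk⟩ := approx D hC hε
    have h1 := mode_id.sum (YY D hC k) (f := fun Y => fd Y σ) (δ := μ k) (fun Y _ => fd_Bm Y hσ) (fun Y hY => hμ k Y hY σ hσ)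
    refine ⟨_, h1.1, ⟨_, h1.2⟩, ?_⟩
    have h2 := hk Set.univ σ hσ
    simp only [Set.univ_inter] at h2
    exact h2
  obtain ⟨κ, hκ⟩ := hex 1 (Or.inl rfl)
  obtain ⟨κ', hκ'⟩ := hex (-1) (Or.inr rfl)
  have heq : κ - κ' = 0 := by
    have h0 : Tendsto (fun t => fd (S d C) 1 t - fd (S d C) (-1) t) atTop (𝓝 0) := by
      apply Mode.lim_zero mode_id ((fd_Bm _ (Or.inl rfl)).sub (fd_Bm _ (Or.inr rfl)))
      intro ε hε
      obtain ⟨k, hk⟩ := approx D hC (show 0 < ε / 2 by positivity)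
      have h1 := mode_id.sum (YY D hC k) (f := fun Y t => fd Y 1 t - fd Y (-1) t) (δ := fun _ => 0)
        (fun Y _ => (fd_Bm Y (Or.inl rfl)).sub (fd_Bm Y (Or.inr rfl))) (fun Y hY => by
          have := (hμ k Y hY 1 (Or.inl rfl)).sub (hμ k Y hY (-1) (Or.inr rfl))
          rwa [sub_self] at this)
      rw [sum_const_zero] at h1
      refine ⟨_, h1.1, h1.2, ?_⟩
      have h2 := hk Set.univ 1 (Or.inl rfl)
      have h3 := hk Set.univ (-1) (Or.inr rfl)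
      simp only [Set.univ_inter] at h2 h3
      filter_upwards [h2, h3] with t h2 h3
      rw [sum_sub_distrib]
      have h4 := abs_le.1 h2
      have h5 := abs_le.1 h3
      rw [abs_le]
      constructor <;> linarith [h4.1, h4.2, h5.1, h5.2]
    exact tendsto_nhds_unique (hκ.sub hκ') h0
  have hall : ∀ σ : ℤ, (σ = 1 ∨ σ = -1) → Tendsto (fd (S d C) σ) atTop (𝓝 κ) := by
    rintro σ (rfl | rfl)
    · exact hκ
    · rwa [show κ = κ' by linarith]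
  refine ⟨κ, ?_, hall⟩
  obtain ⟨B₀, hB₀⟩ : C.Nonempty := by
    rw [Finset.nonempty_iff_ne_empty]
    intro h0
    have := hC.sum_one
    rw [h0, sum_empty] at this
    exact zero_ne_one this
  have hw : ([] : List ℕ) ∈ (LG D hC).Pth 0 ⟨B₀, hB₀⟩ := by
    rw [GS.Pth_zero]
    exact mem_singleton_self _
  have h1 := Yc_dens D hC hL hw (Or.inl rfl : (1 : ℤ) = 1 ∨ (1 : ℤ) = -1)
  have hpos : 0 < 1 / md D hC ⟨B₀, hB₀⟩ [] := by
    have h2 := (state_bd hC ⟨B₀, hB₀⟩).2.2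
    have h3 := (LG D hC).Nv_posR ((LG D hC).ct ⟨B₀, hB₀⟩ [])
    have h4 : (1 : ℝ) ≤ (d : ℝ) * B₀.2 := by exact_mod_cast h2
    unfold md
    positivity
  refine hpos.trans_le (le_of_tendsto_of_tendsto' h1 hκ fun t => ?_)
  have h5 := fd_le_of_ind {(0 : Fin 1)} {(0 : Fin 1)} (fun _ => Yc D hC 0 ⟨B₀, hB₀⟩ []) (fun _ => S d C)
    (Or.inl rfl : (1 : ℤ) = 1 ∨ (1 : ℤ) = -1) (fun x => by
      rw [sum_singleton, sum_singleton]
      apply Set.indicator_le_indicator_of_subset _ (fun _ => zero_le_one)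
      rintro x ⟨y, rfl, -⟩
      exact val_mem_S _ y) t
  rwa [sum_singleton, sum_singleton] at h5

/-- **Existence of densities in `S_C`.** -/
theorem union_dens (D : Data d m r b e) (hC : Class d m r e C ρ) (hL : Lam d m C ρ < 1) {κ : ℝ}
    (hκ : ∀ σ : ℤ, (σ = 1 ∨ σ = -1) → Tendsto (fd (S d C) σ) atTop (𝓝 κ)) {R : ℕ} {A : Set ℤ}
    (hA : InvOut d m r C R A) : ∃ (a : ℝ) (s γ : ℤ → ℝ), 0 ≤ a ∧ a ≤ 1 ∧ γ 1 + γ (-1) = 2 * a * κ ∧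
      (∀ σ : ℤ, (σ = 1 ∨ σ = -1) → 0 ≤ s σ ∧ s σ ≤ 1 ∧ (Mixed d m r e C → s σ = a) ∧
        ((Mixed d m r e C ∨ AllPos d m C) → γ σ = s σ * κ)) ∧
      (∀ B ∈ C, ∃ β : ℤ → ℝ, β 1 + β (-1) = 2 * a / (d * B.2) ∧ ∀ σ : ℤ, (σ = 1 ∨ σ = -1) → Has (A ∩ cls d B) σ (β σ) ∧
        ((Mixed d m r e C ∨ AllPos d m C) → β σ = s σ / (d * B.2))) ∧
      ∀ σ : ℤ, (σ = 1 ∨ σ = -1) → Has (A ∩ S d C) σ (γ σ) ∧
        (Nonlat d m r e C → Tendsto (fd (A ∩ S d C) σ) atTop (𝓝 (γ σ))) := by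
  obtain ⟨a, s, ha0, ha1, hs, hYc⟩ := Yc_lim D hC hL hA
  have hYY : ∀ k, ∀ Y ∈ YY D hC k, ∃ (β : ℤ → ℝ) (μ : ℝ),
      β 1 + β (-1) = 2 * a * μ ∧ (∀ σ : ℤ, (σ = 1 ∨ σ = -1) → ∀ U, Kind d m r e C U →
        Tendsto (U (fd (A ∩ Y) σ)) atTop (𝓝 (β σ))) ∧ (∀ σ : ℤ, (σ = 1 ∨ σ = -1) → Tendsto (fd Y σ) atTop (𝓝 μ)) ∧
      ∀ σ : ℤ, (σ = 1 ∨ σ = -1) → (Mixed d m r e C ∨ AllPos d m C) → β σ = s σ * μ := by
    intro k Y hY
    obtain ⟨B, w, hw, -, rfl⟩ := (mem_YY D hC).1 hY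
    obtain ⟨β, h1, h2⟩ := hYc k B w hw
    exact ⟨β, 1 / md D hC B w, by rw [h1]; ring, fun σ hσ => (h2 σ hσ).2, fun σ hσ => Yc_dens D hC hL hw hσ,
      fun σ hσ h => by rw [(h2 σ hσ).1 h]; ring⟩
  choose! β μ hβ1 hβ2 hμ hβ3 using hYY
  have hex : ∀ U, Kind d m r e C U → ∀ σ : ℤ, (σ = 1 ∨ σ = -1) → ∃ γ, Tendsto (U (fd (A ∩ S d C) σ)) atTop (𝓝 γ) := by
    intro U hU σ hσ
    apply hU.mode.exists_lim (fd_Bm _ hσ)
    intro ε hε
    obtain ⟨k, hk⟩ := approx D hC hε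
    have h1 := hU.mode.sum (YY D hC k) (f := fun Y => fd (A ∩ Y) σ) (δ := fun Y => β k Y σ) (fun Y _ => fd_Bm _ hσ)
      (fun Y hY => hβ2 k Y hY σ hσ U hU)
    exact ⟨_, h1.1, ⟨_, h1.2⟩, hk A σ hσ⟩
  choose! γ hγ using hex ces (Or.inl rfl)
  have hnat : ∀ σ : ℤ, (σ = 1 ∨ σ = -1) → Nonlat d m r e C → Tendsto (fd (A ∩ S d C) σ) atTop (𝓝 (γ σ)) := by
    intro σ hσ hnl
    obtain ⟨γ', hγ'⟩ := hex (fun f => f) (Or.inr ⟨rfl, hnl⟩) σ hσ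
    have h1 := ces_of_lim (fd_Bm _ hσ) hγ'
    have h2 := tendsto_nhds_unique h1 (hγ σ hσ)
    rw [← h2]
    exact hγ'
  refine ⟨a, s, γ, ha0, ha1, ?_, fun σ hσ => ⟨(hs σ hσ).1, (hs σ hσ).2.1, (hs σ hσ).2.2, fun hreg => ?_⟩, ?_,
    fun σ hσ => ⟨hγ σ hσ, hnat σ hσ⟩⟩
  · have hb : ∀ (E : Set ℤ), Bm fun t => fd E 1 t + fd E (-1) t := fun E => (fd_Bm E (Or.inl rfl)).add (fd_Bm E (Or.inr rfl))
    have h0 : Tendsto (ces fun t => (fd (A ∩ S d C) 1 t + fd (A ∩ S d C) (-1) t) -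
        a * (fd (S d C) 1 t + fd (S d C) (-1) t)) atTop (𝓝 0) := by
      apply Mode.lim_zero mode_ces ((hb _).sub ((hb _).smul a))
      intro ε hε
      obtain ⟨k, hk⟩ := approx D hC (show 0 < ε / 4 by positivity)
      have h1 := mode_ces.sum (YY D hC k) (f := fun Y t => (fd (A ∩ Y) 1 t + fd (A ∩ Y) (-1) t) - a * (fd Y 1 t + fd Y (-1) t))
        (δ := fun Y => (β k Y 1 + β k Y (-1)) - a * (μ k Y + μ k Y))
        (fun Y _ => (hb _).sub ((hb _).smul a)) (fun Y hY => by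
          apply mode_ces.tsub (hb _) ((hb _).smul a)
          · exact mode_ces.tadd (fd_Bm _ (Or.inl rfl)) (fd_Bm _ (Or.inr rfl)) (hβ2 k Y hY 1 (Or.inl rfl) _ (Or.inl rfl))
              (hβ2 k Y hY (-1) (Or.inr rfl) _ (Or.inl rfl))
          · apply mode_ces.tsmul (hb _)
            exact mode_ces.tadd (fd_Bm _ (Or.inl rfl)) (fd_Bm _ (Or.inr rfl)) (ces_of_lim (fd_Bm _ (Or.inl rfl)) (hμ k Y hY 1 (Or.inl rfl)))
              (ces_of_lim (fd_Bm _ (Or.inr rfl)) (hμ k Y hY (-1) (Or.inr rfl))))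
      have h2 : ∑ Y ∈ YY D hC k, ((β k Y 1 + β k Y (-1)) - a * (μ k Y + μ k Y)) = 0 :=
        sum_eq_zero fun Y hY => by rw [hβ1 k Y hY]; ring
      rw [h2] at h1
      refine ⟨_, h1.1, h1.2, ?_⟩
      have e1 := hk A 1 (Or.inl rfl)
      have e2 := hk A (-1) (Or.inr rfl)
      have e3 := hk Set.univ 1 (Or.inl rfl)
      have e4 := hk Set.univ (-1) (Or.inr rfl)
      simp only [Set.univ_inter] at e3 e4
      filter_upwards [e1, e2, e3, e4] with t e1 e2 e3 e4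
      rw [sum_sub_distrib, sum_add_distrib, ← mul_sum, sum_add_distrib]
      have h3 := abs_le.1 e1
      have h4 := abs_le.1 e2
      have h5 : |(fd (S d C) 1 t - ∑ Y ∈ YY D hC k, fd Y 1 t) + (fd (S d C) (-1) t - ∑ Y ∈ YY D hC k, fd Y (-1) t)| ≤ ε / 2 :=
        (abs_add_le _ _).trans (by linarith)
      have h6 : |a * ((fd (S d C) 1 t - ∑ Y ∈ YY D hC k, fd Y 1 t) + (fd (S d C) (-1) t - ∑ Y ∈ YY D hC k, fd Y (-1) t))| ≤ ε / 2 := by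
        rw [abs_mul, abs_of_nonneg ha0]
        calc a * _ ≤ 1 * |(fd (S d C) 1 t - ∑ Y ∈ YY D hC k, fd Y 1 t) + (fd (S d C) (-1) t - ∑ Y ∈ YY D hC k, fd Y (-1) t)| :=
              mul_le_mul_of_nonneg_right ha1 (abs_nonneg _)
          _ ≤ ε / 2 := by rw [one_mul]; exact h5
      have h7 := abs_le.1 h6
      rw [abs_le]
      constructor <;> linarith [h3.1, h3.2, h4.1, h4.2, h7.1, h7.2]
    have h1 := mode_ces.tsub (hb (A ∩ S d C)) ((hb (S d C)).smul a)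
      (mode_ces.tadd (fd_Bm _ (Or.inl rfl)) (fd_Bm _ (Or.inr rfl)) (hγ 1 (Or.inl rfl)) (hγ (-1) (Or.inr rfl)))
      (mode_ces.tsmul (hb _) a (mode_ces.tadd (fd_Bm _ (Or.inl rfl)) (fd_Bm _ (Or.inr rfl))
        (ces_of_lim (fd_Bm _ (Or.inl rfl)) (hκ 1 (Or.inl rfl))) (ces_of_lim (fd_Bm _ (Or.inr rfl)) (hκ (-1) (Or.inr rfl)))))
    have h2 := tendsto_nhds_unique h1 h0
    linarith
  · have hs0 := (hs σ hσ).1
    have hs1 := (hs σ hσ).2.1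
    have h0 : Tendsto (ces fun t => fd (A ∩ S d C) σ t - s σ * fd (S d C) σ t) atTop (𝓝 0) := by
      apply Mode.lim_zero mode_ces ((fd_Bm _ hσ).sub ((fd_Bm _ hσ).smul _))
      intro ε hε
      obtain ⟨k, hk⟩ := approx D hC (show 0 < ε / 2 by positivity)
      have h1 := mode_ces.sum (YY D hC k) (f := fun Y t => fd (A ∩ Y) σ t - s σ * fd Y σ t)
        (δ := fun Y => β k Y σ - s σ * μ k Y)
        (fun Y _ => (fd_Bm _ hσ).sub ((fd_Bm _ hσ).smul _)) (fun Y hY => by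
          apply mode_ces.tsub (fd_Bm _ hσ) ((fd_Bm _ hσ).smul _)
          · exact hβ2 k Y hY σ hσ _ (Or.inl rfl)
          · exact mode_ces.tsmul (fd_Bm _ hσ) _ (ces_of_lim (fd_Bm _ hσ) (hμ k Y hY σ hσ)))
      have h2 : ∑ Y ∈ YY D hC k, (β k Y σ - s σ * μ k Y) = 0 :=
        sum_eq_zero fun Y hY => by rw [hβ3 k Y hY σ hσ hreg, sub_self]
      rw [h2] at h1
      refine ⟨_, h1.1, h1.2, ?_⟩
      have e1 := hk A σ hσ
      have e3 := hk Set.univ σ hσ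
      simp only [Set.univ_inter] at e3
      filter_upwards [e1, e3] with t e1 e3
      rw [sum_sub_distrib, ← mul_sum]
      have h3 := abs_le.1 e1
      have h6 : |s σ * (fd (S d C) σ t - ∑ Y ∈ YY D hC k, fd Y σ t)| ≤ ε / 2 := by
        rw [abs_mul, abs_of_nonneg hs0]
        calc s σ * _ ≤ 1 * |fd (S d C) σ t - ∑ Y ∈ YY D hC k, fd Y σ t| := mul_le_mul_of_nonneg_right hs1 (abs_nonneg _)
          _ ≤ ε / 2 := by rw [one_mul]; exact e3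
      have h7 := abs_le.1 h6
      rw [abs_le]
      constructor <;> linarith [h3.1, h3.2, h7.1, h7.2]
    have h1 := mode_ces.tsub (fd_Bm (A ∩ S d C) hσ) ((fd_Bm (S d C) hσ).smul (s σ)) (hγ σ hσ)
      (mode_ces.tsmul (fd_Bm _ hσ) (s σ) (ces_of_lim (fd_Bm _ hσ) (hκ σ hσ)))
    have h2 := tendsto_nhds_unique h1 h0
    linarith
  · intro B hB
    have hw : ([] : List ℕ) ∈ (LG D hC).Pth 0 ⟨B, hB⟩ := by
      rw [GS.Pth_zero]
      exact mem_singleton_self _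
    obtain ⟨β', h1, h2⟩ := hYc 0 ⟨B, hB⟩ [] hw
    have h3 : md D hC ⟨B, hB⟩ [] = d * B.2 := by
      unfold md
      have : (LG D hC).Nv ((LG D hC).ct ⟨B, hB⟩ []) = 1 := by
        simp only [GS.ct, GS.Nv_zero]
      rw [this, Nat.cast_one, mul_one]
    have h4 : Yc D hC 0 ⟨B, hB⟩ [] = cls d B := by
      apply Set.Subset.antisymm (Yc_sub D hC 0 ⟨B, hB⟩ [])
      intro x hx
      obtain ⟨y, hy⟩ := exists_val (B := ⟨B, hB⟩) (x := x) hx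
      exact ⟨y, hy, rfl⟩
    refine ⟨β', by rw [h1, h3], fun σ hσ => ⟨?_, fun h => by rw [(h2 σ hσ).1 h, h3]⟩⟩
    have h5 := (h2 σ hσ).2 ces (Or.inl rfl)
    rw [h4] at h5
    exact h5

end Pool.Agent.Zk39.GD
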