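import Mathlib
import Pool.Agent.Zk39.LD.Union2

/-!
# Densities of almost invariant sets: countable additivity
-/

set_option autoImplicit false
set_option linter.unusedSectionVars false

namespace Pool.Agent.Zk39.GD

open Finset Pool.Agent.H319R2.Leigh Pool.Agent.W44.LM Filter Topology MeasureTheory Pool.Agent.Zk39.LD

variable {d : ℕ} {m r b : ℤ → ℤ} {e : ℤ → ℕ} {C : Finset (ℤ × ℕ)} {ρ : ℤ × ℕ → ℝ}

/-! ### Averages -/

/-- the logarithmic average of `E` on the side `σ` -/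
noncomputable def logAvg (E : Set ℤ) (σ : ℤ) (N : ℕ) : ℝ := (∑ n ∈ sd E σ N, 1 / (n : ℝ)) / Real.log N

/-- the average of `E` on the side `σ` -/
noncomputable def natAvg (E : Set ℤ) (σ : ℤ) (N : ℕ) : ℝ := ((sd E σ N).card : ℝ) / N

/-- the logarithmic density of `E` on the side `σ` (the limit of the logarithmic averages) -/
noncomputable def ld (E : Set ℤ) (σ : ℤ) : ℝ := limUnder atTop (logAvg E σ)

theorem tendsto_log_nat : Tendsto (fun N : ℕ => Real.log N) atTop atTop :=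
  Real.tendsto_log_atTop.comp tendsto_natCast_atTop_atTop

theorem Has.logAvg {E : Set ℤ} {σ : ℤ} (hσ : σ = 1 ∨ σ = -1) {δ : ℝ} (h : Has E σ δ) :
    Tendsto (logAvg E σ) atTop (𝓝 δ) := by
  have h1 := h.comp tendsto_log_nat
  have h2 : Tendsto (fun N : ℕ => fd E σ (Real.log N) / Real.log N) atTop (𝓝 0) := by
    have h3 : Tendsto (fun N : ℕ => 1 / Real.log N) atTop (𝓝 0) := tendsto_log_nat.const_div_atTop 1
    refine squeeze_zero' ?_ ?_ h3
    · filter_upwards [tendsto_log_nat.eventually_gt_atTop 0] with N hN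
      exact div_nonneg (fd_nonneg _ _ _) hN.le
    · filter_upwards [tendsto_log_nat.eventually_gt_atTop 0] with N hN
      exact div_le_div_of_nonneg_right (fd_le_one _ hσ _) hN.le
  have h3 := h1.add h2
  rw [add_zero] at h3
  refine h3.congr' ?_
  filter_upwards [eventually_ge_atTop 2, tendsto_log_nat.eventually_gt_atTop 0] with N hN hL
  have hN0 : (0 : ℝ) < N := by exact_mod_cast (show 0 < N by omega)
  have h4 := ls_eq E hσ hL.le
  rw [Real.exp_log hN0] at h4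
  unfold GD.logAvg
  simp only [Function.comp]
  unfold ces
  rw [← add_div, ← h4]
  unfold ls
  rw [Nat.floor_natCast]

theorem Has.ld_eq {E : Set ℤ} {σ : ℤ} (hσ : σ = 1 ∨ σ = -1) {δ : ℝ} (h : Has E σ δ) : ld E σ = δ :=
  (h.logAvg hσ).limUnder_eq

theorem natAvg_lim {E : Set ℤ} {σ : ℤ} (hσ : σ = 1 ∨ σ = -1) {δ : ℝ} (h : Tendsto (fd E σ) atTop (𝓝 δ)) :
    Tendsto (natAvg E σ) atTop (𝓝 δ) := by
  refine (h.comp tendsto_log_nat).congr' ?_
  filter_upwards [eventually_ge_atTop 1] with N hN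
  have hN0 : (0 : ℝ) < N := by exact_mod_cast hN
  simp only [Function.comp]
  unfold fd natAvg
  rw [Real.exp_log hN0, cn_eq_sd E hσ hN0.le, Nat.floor_natCast]

theorem LogDens.has {E : Set ℤ} {σ : ℤ} (hσ : σ = 1 ∨ σ = -1) {δ K : ℝ} (h : LogDens E σ δ K) : Has E σ δ := by
  unfold Has
  rw [tendsto_iff_dist_tendsto_zero]
  have h2 : Tendsto (fun L : ℝ => (K + 1) / L) atTop (𝓝 0) := tendsto_id.const_div_atTop _
  refine squeeze_zero' (Eventually.of_forall fun t => dist_nonneg) ?_ h2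
  filter_upwards [eventually_gt_atTop 0] with L hL
  unfold ces
  rw [Real.dist_eq, le_div_iff₀ hL, ← abs_of_pos hL, ← abs_mul, abs_of_pos hL, sub_mul, div_mul_cancel₀ _ hL.ne']
  exact logDens_int hσ h hL.le

/-! ### Comparison -/

theorem ces_le {f g : ℝ → ℝ} (hf : Bm f) (hg : Bm g) (h : ∀ t : ℝ, 0 ≤ t → f t ≤ g t) {α β : ℝ}
    (h1 : Tendsto (ces f) atTop (𝓝 α)) (h2 : Tendsto (ces g) atTop (𝓝 β)) : α ≤ β := by
  refine le_of_tendsto_of_tendsto h1 h2 ?_
  filter_upwards [eventually_gt_atTop 0] with L hL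
  unfold ces
  apply div_le_div_of_nonneg_right _ hL.le
  exact intervalIntegral.integral_mono_on hL.le (hf.ii _ _) (hg.ii _ _) fun t ht => h t ht.1

theorem Has.nonneg {E : Set ℤ} {σ : ℤ} (hσ : σ = 1 ∨ σ = -1) {δ : ℝ} (h : Has E σ δ) : 0 ≤ δ :=
  ces_le (Bm_const 0) (fd_Bm E hσ) (fun t _ => fd_nonneg E σ t) (ces_const 0) h

theorem Has.le_of {E : Set ℤ} {σ : ℤ} (hσ : σ = 1 ∨ σ = -1) {δ ε : ℝ} (h : Has E σ δ)
    (hε : ∀ t : ℝ, 0 ≤ t → fd E σ t ≤ ε) : δ ≤ ε :=
  ces_le (fd_Bm E hσ) (Bm_const ε) hε h (ces_const ε)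

theorem sum_Has {ι : Type*} (s : Finset ι) (F : ι → Set ℤ) {σ : ℤ} (hσ : σ = 1 ∨ σ = -1) (w : ι → ℝ)
    (hF : ∀ i ∈ s, Has (F i) σ (w i)) :
    Bm (fun t => ∑ i ∈ s, fd (F i) σ t) ∧ Tendsto (ces fun t => ∑ i ∈ s, fd (F i) σ t) atTop (𝓝 (∑ i ∈ s, w i)) :=
  mode_ces.sum s (f := fun i => fd (F i) σ) (δ := w) (fun _ _ => fd_Bm _ hσ) hF

/-- **Countable additivity.** -/
theorem hasSum_of {ι : Type*} {E : Set ℤ} {F : ι → Set ℤ} {σ : ℤ} (hσ : σ = 1 ∨ σ = -1) {δ : ℝ} {w : ι → ℝ}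
    (hE : Has E σ δ) (hF : ∀ i, Has (F i) σ (w i)) (hsub : ∀ i, F i ⊆ E)
    (hdisj : ∀ i j x, x ∈ F i → x ∈ F j → i = j)
    (htight : ∀ ε : ℝ, 0 < ε → ∃ (s : Finset ι) (Z : Set ℤ), (∀ t : ℝ, 0 ≤ t → fd Z σ t ≤ ε) ∧
      ∀ x ∈ E, (∃ i ∈ s, x ∈ F i) ∨ x ∈ Z) : HasSum w δ := by
  classical
  have hlow : ∀ s : Finset ι, ∑ i ∈ s, w i ≤ δ := by
    intro s
    obtain ⟨h1, h2⟩ := sum_Has s F hσ w fun i _ => hF i
    refine ces_le h1 (fd_Bm E hσ) (fun t _ => ?_) h2 hE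
    have h3 := fd_le_of_ind s {(0 : Fin 1)} F (fun _ => E) hσ (fun x => by
      rw [sum_singleton]
      by_cases hx : ∃ i ∈ s, x ∈ F i
      · obtain ⟨i, hi, hxi⟩ := hx
        rw [sum_eq_single i]
        · rw [Set.indicator_of_mem hxi, Set.indicator_of_mem (hsub i hxi)]
        · intro j _ hji
          apply Set.indicator_of_notMem
          intro hxj
          exact hji (hdisj j i x hxj hxi)
        · intro h; exact absurd hi h
      · push Not at hx
        rw [sum_eq_zero fun i hi => Set.indicator_of_notMem (hx i hi) _]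
        exact Set.indicator_nonneg (fun _ _ => zero_le_one) x) t
    rwa [sum_singleton] at h3
  apply hasSum_of_isLUB_of_nonneg _ fun i => (hF i).nonneg hσ
  refine ⟨?_, ?_⟩
  · rintro _ ⟨s, rfl⟩
    exact hlow s
  · intro u hu
    apply le_of_forall_pos_le_add
    intro ε hε
    obtain ⟨s, Z, hZ, hcov⟩ := htight ε hε
    have h0 : ∑ i ∈ s, w i ≤ u := hu ⟨s, rfl⟩
    obtain ⟨h1, h2⟩ := sum_Has s F hσ w fun i _ => hF i
    have h3 : δ ≤ ∑ i ∈ s, w i + ε := by
      refine ces_le (fd_Bm E hσ) (h1.add (Bm_const ε)) (fun t ht => ?_) hE (mode_ces.tadd h1 (Bm_const ε) h2 (ces_const ε))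
      have h4 := fd_le_of_ind {(0 : Fin 1)} (s.disjSum {(0 : Fin 1)}) (fun _ => E)
        (fun z => Sum.elim F (fun _ => Z) z) hσ (fun x => by
          rw [sum_singleton, sum_disjSum, sum_singleton]
          simp only [Sum.elim_inl, Sum.elim_inr]
          have n1 : 0 ≤ ∑ i ∈ s, (F i).indicator (fun _ => (1 : ℝ)) x :=
            sum_nonneg fun i _ => Set.indicator_nonneg (fun _ _ => zero_le_one) x
          have n2 : 0 ≤ Z.indicator (fun _ => (1 : ℝ)) x := Set.indicator_nonneg (fun _ _ => zero_le_one) x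
          by_cases hx : x ∈ E
          · rw [Set.indicator_of_mem hx]
            rcases hcov x hx with ⟨i, hi, hxi⟩ | hxZ
            · have h5 := single_le_sum (f := fun i => (F i).indicator (fun _ => (1 : ℝ)) x)
                (fun i _ => Set.indicator_nonneg (fun _ _ => zero_le_one) x) hi
              beta_reduce at h5
              rw [Set.indicator_of_mem hxi] at h5
              linarith
            · rw [Set.indicator_of_mem hxZ]
              linarith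
          · rw [Set.indicator_of_notMem hx]
            linarith) t
      rw [sum_singleton, sum_disjSum, sum_singleton] at h4
      simp only [Sum.elim_inl, Sum.elim_inr] at h4
      have := hZ t ht
      linarith
    linarith

/-! ### Tails -/

/-- the integers of `S_C` whose trajectory never enters `[-y, y]` -/
def Zy (d : ℕ) (m r : ℤ → ℤ) (C : Finset (ℤ × ℕ)) (y : ℝ) : Set ℤ :=
  {x | x ∈ S d C ∧ ∀ n : ℕ, y < |(((T d m r)^[n] x : ℤ) : ℝ)|}

theorem tails (D : Data d m r b e) (hC : Class d m r e C ρ) (hL : Lam d m C ρ < 1) :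
    ∃ c : ℝ, 0 < c ∧ ∃ A : ℝ, 0 < A ∧ ∀ y : ℝ, 1 ≤ y → ∀ σ : ℤ, (σ = 1 ∨ σ = -1) → ∀ t : ℝ, 0 ≤ t →
      fd (Zy d m r C y) σ t ≤ A / y ^ c := by
  obtain ⟨c, hc, A, hA⟩ := leigh_power D hC hL
  refine ⟨c, hc, |A| + 1, by positivity, fun y hy σ hσ t ht => ?_⟩
  have hE := Real.exp_pos t
  have h1 := hA (Real.exp t) y (Real.one_le_exp ht) hy
  have hfin : {x : ℤ | x ∈ S d C ∧ |(x : ℝ)| ≤ Real.exp t ∧ ∀ n : ℕ, y < |(((T d m r)^[n] x : ℤ) : ℝ)|}.Finite := by
    refine (Set.finite_Icc (-⌊Real.exp t⌋) ⌊Real.exp t⌋).subset ?_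
    rintro x ⟨-, h2, -⟩
    have h3 := abs_le.1 h2
    refine ⟨?_, Int.le_floor.2 h3.2⟩
    have : -x ≤ ⌊Real.exp t⌋ := Int.le_floor.2 (by push_cast; linarith [h3.1])
    omega
  have h2 : cn (Zy d m r C y) σ (Real.exp t) 1 0 ≤
      (Set.ncard {x : ℤ | x ∈ S d C ∧ |(x : ℝ)| ≤ Real.exp t ∧ ∀ n : ℕ, y < |(((T d m r)^[n] x : ℤ) : ℝ)|} : ℝ) := by
    unfold cn
    have := Set.ncard_le_ncard (s := {x : ℤ | x ∈ Zy d m r C y ∧ 0 < σ * x ∧ ((σ * x : ℤ) : ℝ) ≤ Real.exp t ∧ ((1 : ℕ) : ℤ) ∣ x - 0})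
      (by
        rintro x ⟨⟨h3, h4⟩, h5, h6, -⟩
        refine ⟨h3, ?_, h4⟩
        have h7 : |(x : ℝ)| = ((σ * x : ℤ) : ℝ) := by
          have h5' : (0 : ℝ) < ((σ * x : ℤ) : ℝ) := by exact_mod_cast h5
          rcases hσ with rfl | rfl
          · push_cast at h5' ⊢
            rw [one_mul] at h5' ⊢
            exact abs_of_pos h5'
          · push_cast at h5' ⊢
            rw [abs_of_neg (by linarith)]
            ring
        rw [h7]
        exact h6) hfin
    exact_mod_cast this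
  unfold fd
  rw [div_le_iff₀ hE]
  refine (h2.trans h1).trans ?_
  have hy0 : 0 < y ^ c := Real.rpow_pos_of_pos (by linarith) _
  rw [div_mul_eq_mul_div]
  apply div_le_div_of_nonneg_right _ hy0.le
  apply mul_le_mul_of_nonneg_right _ hE.le
  linarith [le_abs_self A]

theorem tail_small {c A ε : ℝ} (hc : 0 < c) (hε : 0 < ε) : ∃ y : ℝ, 1 ≤ y ∧ A / y ^ c ≤ ε := by
  have h1 : Tendsto (fun y : ℝ => A / y ^ c) atTop (𝓝 0) := (tendsto_rpow_atTop hc).const_div_atTop _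
  have h2 := (h1.eventually (gt_mem_nhds hε)).and (eventually_ge_atTop 1)
  obtain ⟨y, h3, h4⟩ := h2.exists
  exact ⟨y, h4, h3.le⟩

/-! ### Grand orbits -/

/-- the grand orbit of `x` in `S_C`: the integers of `S_C` whose trajectories meet that of `x` -/
def orb (d : ℕ) (m r : ℤ → ℤ) (C : Finset (ℤ × ℕ)) (x : ℤ) : Set ℤ :=
  {y | y ∈ S d C ∧ ∃ i j : ℕ, (T d m r)^[i] y = (T d m r)^[j] x}

theorem T_mem (D : Data d m r b e) (hC : Class d m r e C ρ) {x : ℤ} (hx : x ∈ S d C) : T d m r x ∈ S d C := by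
  obtain ⟨B, hB, hxB⟩ := hx
  obtain ⟨y, rfl⟩ := exists_val (B := ⟨B, hB⟩) (x := x) hxB
  rw [← val_step D hC]
  exact val_mem_S _ _

theorem iter_mem (D : Data d m r b e) (hC : Class d m r e C ρ) (n : ℕ) {x : ℤ} (hx : x ∈ S d C) :
    (T d m r)^[n] x ∈ S d C := by
  induction n with
  | zero => exact hx
  | succ n ih =>
    rw [Function.iterate_succ_apply']
    exact T_mem D hC ih

theorem orb_self {x : ℤ} (hx : x ∈ S d C) : x ∈ orb d m r C x := ⟨hx, 0, 0, rfl⟩

theorem orb_eq {x y : ℤ} (hy : y ∈ orb d m r C x) : orb d m r C y = orb d m r C x := by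
  obtain ⟨-, i, j, hij⟩ := hy
  ext z
  constructor
  · rintro ⟨hz, k, l, hkl⟩
    refine ⟨hz, i + k, l + j, ?_⟩
    rw [Function.iterate_add_apply, hkl, ← Function.iterate_add_apply, add_comm i l, Function.iterate_add_apply, hij,
      ← Function.iterate_add_apply]
  · rintro ⟨hz, k, l, hkl⟩
    refine ⟨hz, j + k, l + i, ?_⟩
    rw [Function.iterate_add_apply, hkl, ← Function.iterate_add_apply, add_comm j l, Function.iterate_add_apply, ← hij,
      ← Function.iterate_add_apply]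

theorem orb_inv (D : Data d m r b e) (hC : Class d m r e C ρ) (x z : ℤ) (hz : z ∈ S d C) :
    z ∈ orb d m r C x ↔ T d m r z ∈ orb d m r C x := by
  constructor
  · rintro ⟨-, i, j, hij⟩
    refine ⟨T_mem D hC hz, i, j + 1, ?_⟩
    calc (T d m r)^[i] (T d m r z) = T d m r ((T d m r)^[i] z) := by
          rw [← Function.iterate_succ_apply, ← Function.iterate_succ_apply' (T d m r)]
      _ = T d m r ((T d m r)^[j] x) := by rw [hij]
      _ = (T d m r)^[j + 1] x := by rw [← Function.iterate_succ_apply' (T d m r)]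
  · rintro ⟨-, i, j, hij⟩
    exact ⟨hz, i + 1, j, by rw [Function.iterate_succ_apply]; exact hij⟩

end Pool.Agent.Zk39.GD
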