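import Mathlib
import Pool.Agent.Zk39.LD.Final

/-!
# Densities of almost invariant sets: the theorem
-/

set_option autoImplicit false
set_option linter.unusedSectionVars false

namespace Pool.Agent.Zk39.GD

open Finset Pool.Agent.H319R2.Leigh Pool.Agent.W44.LM Filter Topology MeasureTheory Pool.Agent.Zk39.LD

variable {d : ℕ} {m r b : ℤ → ℤ} {e : ℤ → ℕ} {C : Finset (ℤ × ℕ)} {ρ : ℤ × ℕ → ℝ}

/-- the intersection with a grand orbit is almost invariant -/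
theorem inv_inter_orb (D : Data d m r b e) (hC : Class d m r e C ρ) {R : ℕ} {A : Set ℤ} (hA : InvOut d m r C R A) (x : ℤ) :
    InvOut d m r C R (A ∩ orb d m r C x) := by
  intro z hz hzR
  rw [Set.mem_inter_iff, Set.mem_inter_iff, hA z hz hzR, orb_inv D hC x z hz]

/-- density of an almost invariant set contained in `S_C` -/
theorem has_of_sub (D : Data d m r b e) (hC : Class d m r e C ρ) (hL : Lam d m C ρ < 1) {R : ℕ} {A : Set ℤ}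
    (hA : InvOut d m r C R A) (hsub : A ⊆ S d C) {σ : ℤ} (hσ : σ = 1 ∨ σ = -1) : ∃ δ, Has A σ δ := by
  obtain ⟨κ, -, hκ⟩ := S_dens D hC hL
  obtain ⟨a, s, γ, -, -, -, -, -, h⟩ := union_dens D hC hL hκ hA
  have h1 := (h σ hσ).1
  rw [Set.inter_eq_left.2 hsub] at h1
  exact ⟨_, h1⟩

theorem orb_sub (x : ℤ) : orb d m r C x ⊆ S d C := fun _ hy => hy.1

/-- countable additivity along the grand orbits -/
theorem orbits_sum (D : Data d m r b e) (hC : Class d m r e C ρ) (hL : Lam d m C ρ < 1) {R : ℕ} {A : Set ℤ}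
    (hA : InvOut d m r C R A) {σ : ℤ} (hσ : σ = 1 ∨ σ = -1) :
    HasSum (fun O : {O : Set ℤ // ∃ x ∈ S d C, O = orb d m r C x} => ld (A ∩ O.1) σ) (ld (A ∩ S d C) σ) := by
  classical
  obtain ⟨κ, -, hκ⟩ := S_dens D hC hL
  obtain ⟨a, s, γ, -, -, -, -, -, h⟩ := union_dens D hC hL hκ hA
  have hE := (h σ hσ).1
  have hE' : Has (A ∩ S d C) σ (ld (A ∩ S d C) σ) := by
    rw [hE.ld_eq hσ]
    exact hE
  obtain ⟨c, hc, A₀, hA₀, htail⟩ := tails D hC hL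
  refine hasSum_of (F := fun O : {O : Set ℤ // ∃ x ∈ S d C, O = orb d m r C x} => A ∩ O.1) hσ hE' ?_ ?_ ?_ ?_
  · rintro ⟨O, x, hx, rfl⟩
    obtain ⟨δ, hδ⟩ := has_of_sub D hC hL (inv_inter_orb D hC hA x) (Set.inter_subset_right.trans (orb_sub x)) hσ
    rw [hδ.ld_eq hσ]
    exact hδ
  · rintro ⟨O, x, hx, rfl⟩
    exact Set.inter_subset_inter_right A (orb_sub x)
  · rintro ⟨O, x, hx, rfl⟩ ⟨O', x', hx', rfl⟩ z ⟨-, hz⟩ ⟨-, hz'⟩
    apply Subtype.ext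
    show orb d m r C x = orb d m r C x'
    rw [← orb_eq hz, ← orb_eq hz']
  · intro ε hε
    obtain ⟨y, hy1, hy⟩ := tail_small (A := A₀) hc hε
    refine ⟨(((Icc (-⌊y⌋) ⌊y⌋).filter fun z => z ∈ S d C).attach.image fun z =>
      (⟨orb d m r C z.1, z.1, (mem_filter.1 z.2).2, rfl⟩ : {O : Set ℤ // ∃ x ∈ S d C, O = orb d m r C x})), Zy d m r C y,
      fun t ht => (htail y hy1 σ hσ t ht).trans hy, ?_⟩
    rintro x ⟨hxA, hxS⟩
    by_cases hx : ∀ n : ℕ, y < |(((T d m r)^[n] x : ℤ) : ℝ)|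
    · exact Or.inr ⟨hxS, hx⟩
    · left
      push Not at hx
      obtain ⟨n, hn⟩ := hx
      have hz : (T d m r)^[n] x ∈ (Icc (-⌊y⌋) ⌊y⌋).filter fun z => z ∈ S d C := by
        have h3 := abs_le.1 hn
        rw [mem_filter, mem_Icc]
        refine ⟨⟨?_, Int.le_floor.2 h3.2⟩, iter_mem D hC n hxS⟩
        have : -((T d m r)^[n] x) ≤ ⌊y⌋ := Int.le_floor.2 (by push_cast; linarith [h3.1])
        omega
      refine ⟨_, mem_image.2 ⟨⟨_, hz⟩, mem_attach _ _, rfl⟩, hxA, hxS, n, 0, rfl⟩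

/-- the integers whose trajectory has minimal absolute value `v` -/
def Mn (d : ℕ) (m r : ℤ → ℤ) (v : ℕ) : Set ℤ :=
  {x | (∃ n : ℕ, |(T d m r)^[n] x| = v) ∧ ∀ n : ℕ, (v : ℤ) ≤ |(T d m r)^[n] x|}

theorem Mn_inv (v : ℕ) : InvOut d m r C v (Mn d m r v) := by
  intro x _ hx
  constructor
  · rintro ⟨⟨n, hn⟩, h⟩
    refine ⟨?_, fun k => ?_⟩
    · rcases n with _ | n
      · exfalso
        rw [Function.iterate_zero, id] at hn
        omega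
      · exact ⟨n, by rw [← Function.iterate_succ_apply]; exact hn⟩
    · rw [← Function.iterate_succ_apply]
      exact h (k + 1)
  · rintro ⟨⟨n, hn⟩, h⟩
    refine ⟨⟨n + 1, by rw [Function.iterate_succ_apply]; exact hn⟩, fun k => ?_⟩
    rcases k with _ | k
    · rw [Function.iterate_zero, id]
      exact hx.le
    · rw [Function.iterate_succ_apply]
      exact h k

/-- the law of the minimum -/
theorem min_sum (D : Data d m r b e) (hC : Class d m r e C ρ) (hL : Lam d m C ρ < 1) {κ : ℝ}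
    (hκ : ∀ σ : ℤ, (σ = 1 ∨ σ = -1) → Tendsto (fd (S d C) σ) atTop (𝓝 κ)) {σ : ℤ} (hσ : σ = 1 ∨ σ = -1) :
    HasSum (fun v : ℕ => ld (Mn d m r v ∩ S d C) σ) κ := by
  classical
  obtain ⟨c, hc, A₀, hA₀, htail⟩ := tails D hC hL
  refine hasSum_of (E := S d C) (F := fun v : ℕ => Mn d m r v ∩ S d C) hσ (ces_of_lim (fd_Bm _ hσ) (hκ σ hσ)) ?_ ?_ ?_ ?_
  · intro v
    obtain ⟨a, s, γ, -, -, -, -, -, h⟩ := union_dens D hC hL hκ (Mn_inv (C := C) (d := d) (m := m) (r := r) v)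
    have hE := (h σ hσ).1
    rw [hE.ld_eq hσ]
    exact hE
  · intro v
    exact Set.inter_subset_right
  · rintro v w x ⟨⟨⟨n, hn⟩, h⟩, -⟩ ⟨⟨⟨n', hn'⟩, h'⟩, -⟩
    have h1 := h n'
    have h2 := h' n
    rw [hn'] at h1
    rw [hn] at h2
    omega
  · intro ε hε
    obtain ⟨y, hy1, hy⟩ := tail_small (A := A₀) hc hε
    refine ⟨range (⌊y⌋₊ + 1), Zy d m r C y, fun t ht => (htail y hy1 σ hσ t ht).trans hy, fun x hxS => ?_⟩
    by_cases hx : ∀ n : ℕ, y < |(((T d m r)^[n] x : ℤ) : ℝ)|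
    · exact Or.inr ⟨hxS, hx⟩
    · left
      push Not at hx
      obtain ⟨n, hn⟩ := hx
      -- the minimum
      have hex : ∃ v : ℕ, ∃ k : ℕ, |(T d m r)^[k] x| = v := ⟨((T d m r)^[n] x).natAbs, n, by simp⟩
      obtain ⟨k, hk⟩ := Nat.find_spec hex
      have hmin : ∀ j : ℕ, ((Nat.find hex : ℕ) : ℤ) ≤ |(T d m r)^[j] x| := by
        intro j
        have h1 : Nat.find hex ≤ ((T d m r)^[j] x).natAbs := Nat.find_min' hex ⟨j, by simp⟩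
        rw [Int.abs_eq_natAbs]
        exact_mod_cast h1
      refine ⟨Nat.find hex, ?_, ⟨⟨k, hk⟩, hmin⟩, hxS⟩
      rw [mem_range]
      have h2 := hmin n
      have h3 : ((Nat.find hex : ℕ) : ℝ) ≤ y := by
        have : ((Nat.find hex : ℕ) : ℝ) ≤ |(((T d m r)^[n] x : ℤ) : ℝ)| := by exact_mod_cast h2
        exact this.trans hn
      have := Nat.le_floor h3
      omega

/-- **The theorem.** -/
theorem dens_main (D : Data d m r b e) (hC : Class d m r e C ρ) (hL : Lam d m C ρ < 1) :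
    ∃ κ : ℝ, 0 < κ ∧ ∃ c : ℝ, 0 < c ∧ ∃ A₀ : ℝ, ∃ K : ℕ → ℝ,
      (∀ σ : ℤ, (σ = 1 ∨ σ = -1) → Tendsto (natAvg (S d C) σ) atTop (𝓝 κ) ∧
        HasSum (fun v : ℕ => ld (Mn d m r v ∩ S d C) σ) κ) ∧
      ∀ (R : ℕ) (A : Set ℤ), InvOut d m r C R A →
        (∃ (a : ℝ) (s : ℤ → ℝ), 0 ≤ a ∧ a ≤ 1 ∧ ld (A ∩ S d C) 1 + ld (A ∩ S d C) (-1) = 2 * a * κ ∧
          (∀ B ∈ C, ld (A ∩ cls d B) 1 + ld (A ∩ cls d B) (-1) = 2 * a / (d * B.2)) ∧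
          ∀ σ : ℤ, (σ = 1 ∨ σ = -1) → 0 ≤ s σ ∧ s σ ≤ 1 ∧ (Mixed d m r e C → s σ = a) ∧
            ((Mixed d m r e C ∨ AllPos d m C) → ld (A ∩ S d C) σ = s σ * κ ∧
              ∀ B ∈ C, ld (A ∩ cls d B) σ = s σ / (d * B.2))) ∧
        ∀ σ : ℤ, (σ = 1 ∨ σ = -1) →
          Tendsto (logAvg (A ∩ S d C) σ) atTop (𝓝 (ld (A ∩ S d C) σ)) ∧
          (∀ B ∈ C, ∀ N : ℕ, 1 ≤ N → |∑ n ∈ sd (A ∩ cls d B) σ N, 1 / (n : ℝ) - ld (A ∩ cls d B) σ * Real.log N| ≤ K R) ∧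
          (Nonlat d m r e C → Tendsto (natAvg (A ∩ S d C) σ) atTop (𝓝 (ld (A ∩ S d C) σ)) ∧
            ∀ B ∈ C, Tendsto (natAvg (A ∩ cls d B) σ) atTop (𝓝 (ld (A ∩ cls d B) σ))) ∧
          HasSum (fun O : {O : Set ℤ // ∃ x ∈ S d C, O = orb d m r C x} => ld (A ∩ O.1) σ) (ld (A ∩ S d C) σ) ∧
          ∀ y : ℝ, 1 ≤ y → A ∩ S d C ⊆ Zy d m r C y → ld (A ∩ S d C) σ ≤ A₀ / y ^ c := by
  obtain ⟨κ, hκ0, hκ⟩ := S_dens D hC hL
  obtain ⟨c, hc, A₀, hA₀, htail⟩ := tails D hC hL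
  choose K hK using fun R => leigh_dens D hC hL R
  refine ⟨κ, hκ0, c, hc, A₀, K, fun σ hσ => ⟨natAvg_lim hσ (hκ σ hσ), min_sum D hC hL hκ hσ⟩, fun R A hA => ?_⟩
  obtain ⟨a, s, γ, ha0, ha1, hsum, hs, hcl, h⟩ := union_dens D hC hL hκ hA
  obtain ⟨δ, a', -, -, -, hδ⟩ := hK R A hA
  refine ⟨⟨a, s, ha0, ha1, ?_, fun B hB => ?_, fun σ hσ => ⟨(hs σ hσ).1, (hs σ hσ).2.1, (hs σ hσ).2.2.1, fun hreg => ⟨?_, fun B hB => ?_⟩⟩⟩,
    fun σ hσ => ⟨?_, fun B hB N hN => ?_, fun hnl => ⟨?_, fun B hB => ?_⟩, orbits_sum D hC hL hA hσ, fun y hy hsub => ?_⟩⟩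
  · rw [(h 1 (Or.inl rfl)).1.ld_eq (Or.inl rfl), (h (-1) (Or.inr rfl)).1.ld_eq (Or.inr rfl)]
    exact hsum
  · obtain ⟨β, h1, h2⟩ := hcl B hB
    rw [(h2 1 (Or.inl rfl)).1.ld_eq (Or.inl rfl), (h2 (-1) (Or.inr rfl)).1.ld_eq (Or.inr rfl)]
    exact h1
  · rw [(h σ hσ).1.ld_eq hσ]
    exact (hs σ hσ).2.2.2 hreg
  · obtain ⟨β, -, h2⟩ := hcl B hB
    rw [(h2 σ hσ).1.ld_eq hσ]
    exact (h2 σ hσ).2 hreg
  · rw [(h σ hσ).1.ld_eq hσ]
    exact (h σ hσ).1.logAvg hσ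
  · obtain ⟨h1, -⟩ := hδ σ hσ B hB
    rw [(h1.has hσ).ld_eq hσ]
    have h2 := h1 N (by exact_mod_cast hN)
    unfold ls at h2
    rwa [Nat.floor_natCast] at h2
  · rw [(h σ hσ).1.ld_eq hσ]
    exact natAvg_lim hσ ((h σ hσ).2 hnl)
  · obtain ⟨h1, h2⟩ := hδ σ hσ B hB
    rw [(h1.has hσ).ld_eq hσ]
    exact natAvg_lim hσ (h2 hnl)
  · rw [(h σ hσ).1.ld_eq hσ]
    refine (h σ hσ).1.le_of hσ fun t ht => le_trans ?_ (htail y hy σ hσ t ht)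
    have h4 := fd_le_of_ind {(0 : Fin 1)} {(0 : Fin 1)} (fun _ => A ∩ S d C) (fun _ => Zy d m r C y) hσ (fun x => by
      rw [sum_singleton, sum_singleton]
      exact Set.indicator_le_indicator_of_subset hsub (fun _ => zero_le_one) x) t
    rwa [sum_singleton, sum_singleton] at h4

end Pool.Agent.Zk39.GD
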